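import Pool.Agent.BHTri.Defs2

set_option autoImplicit false

/-!
# Arithmetic of `d (k - d)` modulo `k`
-/

namespace Pool.Agent.BHTri

/-- `x (k - x)` for the remainder `x` modulo `k` -/
def ar (k x : ℕ) : ℕ := (x % k) * (k - x % k)

theorem ar_add (k x y : ℕ) (hk : 0 < k) : ar k (x + y) ≤ ar k x + ar k y ∧
    (ar k (x + y) = ar k x + ar k y → x % k = 0 ∨ y % k = 0) := by
  unfold ar
  rw [Nat.add_mod]
  have ha := Nat.mod_lt x hk
  have hb := Nat.mod_lt y hk
  generalize x % k = a at ha ⊢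
  generalize y % k = b at hb ⊢
  rcases Nat.lt_or_ge (a + b) k with h | h
  · rw [Nat.mod_eq_of_lt h]
    obtain ⟨c, hc⟩ : ∃ c, k = a + b + c := ⟨k - (a + b), by omega⟩
    have e1 : k - (a + b) = c := by omega
    have e2 : k - a = b + c := by omega
    have e3 : k - b = a + c := by omega
    rw [e1, e2, e3]
    have e4 : a * (b + c) + b * (a + c) = (a + b) * c + 2 * (a * b) := by ring
    rw [e4]
    refine ⟨by omega, fun h1 => ?_⟩
    have h2 : a * b = 0 := by omega
    exact mul_eq_zero.1 h2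
  · have h1 : (a + b) % k = a + b - k := by
      rw [Nat.mod_eq_sub_mod h, Nat.mod_eq_of_lt (by omega)]
    rw [h1]
    obtain ⟨a', ha'⟩ : ∃ a', a' = k - a := ⟨_, rfl⟩
    obtain ⟨b', hb'⟩ : ∃ b', b' = k - b := ⟨_, rfl⟩
    obtain ⟨c, hc⟩ : ∃ c, k = a' + b' + c := ⟨k - (a' + b'), by omega⟩
    have e1 : a + b - k = c := by omega
    have e2 : k - c = a' + b' := by omega
    have e3 : a = b' + c := by omega
    have e4 : b = a' + c := by omega
    rw [e1, e2, ← ha', ← hb', e3, e4]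
    clear e1 e2
    have e5 : (b' + c) * a' + (a' + c) * b' = c * (a' + b') + 2 * (a' * b') := by ring
    rw [e5]
    refine ⟨by omega, fun h2 => ?_⟩
    have h3 : 0 < a' * b' := Nat.mul_pos (by omega) (by omega)
    omega

theorem ar_eq_zero {k x : ℕ} (hk : 0 < k) : ar k x = 0 ↔ x % k = 0 := by
  unfold ar
  have := Nat.mod_lt x hk
  rw [mul_eq_zero]
  omega

theorem ar_of_le {k d : ℕ} (hd : d ≤ k) : d * (k - d) = ar k d := by
  unfold ar
  rcases hd.lt_or_eq with h | h
  · rw [Nat.mod_eq_of_lt h]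
  · rw [h, Nat.mod_self, Nat.sub_self, mul_zero, zero_mul]

theorem ar_add_extra (k x e : ℕ) (hk : 0 < k) : ar k (x + e) + e ≤ ar k x + k * e := by
  induction e with
  | zero => simp
  | succ e ih =>
    have h1 := (ar_add k (x + e) 1 hk).1
    have h2 : ar k 1 + 1 ≤ k := by
      unfold ar
      rcases Nat.lt_or_ge 1 k with h | h
      · rw [Nat.mod_eq_of_lt h]
        omega
      · have : k = 1 := by omega
        rw [this]
    have h3 : k * (e + 1) = k * e + k := by ring
    have h4 : x + (e + 1) = x + e + 1 := rfl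
    rw [h3, h4]
    omega

theorem ar_sum {ι : Type*} [DecidableEq ι] (k : ℕ) (hk : 0 < k) (d : ι → ℕ) (s : Finset ι) :
    ar k (∑ w ∈ s, d w) ≤ ∑ w ∈ s, ar k (d w) ∧
    (ar k (∑ w ∈ s, d w) = ∑ w ∈ s, ar k (d w) → (∀ w ∈ s, d w % k = 0) ∨
      ∃ w₀ ∈ s, d w₀ % k ≠ 0 ∧ ∀ w ∈ s, w ≠ w₀ → d w % k = 0) := by
  induction s using Finset.induction_on with
  | empty =>
    refine ⟨by simp [ar], fun _ => Or.inl fun w hw => by simp at hw⟩
  | insert a s ha ih =>
    rw [Finset.sum_insert ha, Finset.sum_insert ha]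
    obtain ⟨h1, h2⟩ := ar_add k (d a) (∑ w ∈ s, d w) hk
    obtain ⟨h3, h4⟩ := ih
    refine ⟨by omega, fun h => ?_⟩
    have h5 := h2 (by omega)
    have h6 := h4 (by omega)
    rcases h6 with h6 | ⟨w₀, hw₀, h7, h8⟩
    · by_cases h9 : d a % k = 0
      · left
        intro w hw
        rcases Finset.mem_insert.1 hw with rfl | hw
        · exact h9
        · exact h6 w hw
      · right
        refine ⟨a, Finset.mem_insert_self _ _, h9, fun w hw hwa => ?_⟩
        rcases Finset.mem_insert.1 hw with hw | hw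
        · exact absurd hw hwa
        · exact h6 w hw
    · right
      refine ⟨w₀, Finset.mem_insert_of_mem hw₀, h7, fun w hw hwa => ?_⟩
      rcases Finset.mem_insert.1 hw with hw | hw
      · rw [hw]
        rcases h5 with h5 | h5
        · exact h5
        · exfalso
          have h9 := (ar_eq_zero hk).2 h5
          have h10 : ∑ w ∈ s, ar k (d w) = 0 := by omega
          rw [Finset.sum_eq_zero_iff] at h10
          exact h7 ((ar_eq_zero hk).1 (h10 w₀ hw₀))
      · exact h8 w hw hwa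

theorem arith_core {ι : Type*} (s : Finset ι) (d : ι → ℕ) {k r e t : ℕ} (hr : r < k)
    (hd : ∀ w ∈ s, d w ≤ k) (hsum : ∑ w ∈ s, d w + e = k * t + r)
    (hle : ∑ w ∈ s, d w * (k - d w) + k * e ≤ r * (k - r)) :
    e = 0 ∧ (r = 0 → ∀ w ∈ s, d w = 0 ∨ d w = k) ∧
      (1 ≤ r → ∃ w₀ ∈ s, d w₀ = r ∧ ∀ w ∈ s, w ≠ w₀ → d w = 0 ∨ d w = k) := by
  classical
  have hk : 0 < k := by omega
  have h1 : ∑ w ∈ s, d w * (k - d w) = ∑ w ∈ s, ar k (d w) :=
    Finset.sum_congr rfl fun w hw => ar_of_le (hd w hw)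
  rw [h1] at hle
  obtain ⟨h2, h3⟩ := ar_sum k hk d s
  have h4 := ar_add_extra k (∑ w ∈ s, d w) e hk
  have h5 : ar k (∑ w ∈ s, d w + e) = r * (k - r) := by
    unfold ar
    rw [hsum, Nat.mul_add_mod, Nat.mod_eq_of_lt hr]
  rw [h5] at h4
  have he : e = 0 := by omega
  subst he
  rw [Nat.add_zero] at h5 hsum
  have h6 : ar k (∑ w ∈ s, d w) = ∑ w ∈ s, ar k (d w) := by omega
  have hmod : ∀ w ∈ s, d w % k = 0 → d w = 0 ∨ d w = k := by
    intro w hw h7
    rcases (hd w hw).lt_or_eq with h8 | h8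
    · left
      rw [Nat.mod_eq_of_lt h8] at h7
      exact h7
    · exact Or.inr h8
  refine ⟨rfl, fun hr0 w hw => hmod w hw ?_, fun hr1 => ?_⟩
  · rw [hr0, zero_mul] at h5
    rw [h5] at h6
    have h7 := Finset.sum_eq_zero_iff.1 h6.symm w hw
    exact (ar_eq_zero hk).1 h7
  · have hpos : 0 < r * (k - r) := Nat.mul_pos (by omega) (by omega)
    rcases h3 h6 with h7 | ⟨w₀, hw₀, h7, h8⟩
    · exfalso
      have h9 : ∑ w ∈ s, ar k (d w) = 0 :=
        Finset.sum_eq_zero fun w hw => (ar_eq_zero hk).2 (h7 w hw)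
      omega
    · refine ⟨w₀, hw₀, ?_, fun w hw hne => hmod w hw (h8 w hw hne)⟩
      have h9 : k ∣ ∑ w ∈ s.erase w₀, d w := by
        refine Finset.dvd_sum fun w hw => ?_
        rw [Finset.mem_erase] at hw
        exact Nat.dvd_of_mod_eq_zero (h8 w hw.2 hw.1)
      obtain ⟨c, hc⟩ := h9
      have h10 := Finset.add_sum_erase s d hw₀
      rw [hc, hsum] at h10
      have h11 : d w₀ < k := by
        rcases (hd w₀ hw₀).lt_or_eq with h12 | h12
        · exact h12
        · rw [h12, Nat.mod_self] at h7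
          exact absurd rfl h7
      have h12 : (d w₀ + k * c) % k = (k * t + r) % k := by rw [h10]
      rw [Nat.add_mul_mod_self_left, Nat.mul_add_mod, Nat.mod_eq_of_lt h11,
        Nat.mod_eq_of_lt hr] at h12
      exact h12

end Pool.Agent.BHTri
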