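import Pool.Agent.BHTri.Defs

set_option autoImplicit false

/-!
# Degeneracy and complete bipartite subgraphs
-/

namespace Pool.Agent.BHTri

variable {V : Type*}

open Finset

theorem exists_few [DecidableEq V] (G : SimpleGraph V) [DecidableRel G.Adj] {n : ℕ} (hn : 1 ≤ n)
    (S : Finset V) (hS : S.Nonempty) (h : NoPath G S (n + 1)) :
    ∃ v ∈ S, (S.filter (G.Adj v)).card ≤ n - 1 := by
  by_contra hcon
  push Not at hcon
  have key : ∀ m : ℕ, m ≤ n → ∃ v : V, ∃ l : List V, (v :: l).Nodup ∧ (v :: l).IsChain G.Adj ∧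
      (∀ w ∈ v :: l, w ∈ S) ∧ (v :: l).length = m + 1 := by
    intro m
    induction m with
    | zero =>
      intro _
      obtain ⟨v, hv⟩ := hS
      exact ⟨v, [], List.nodup_singleton v, List.isChain_singleton v, by simpa using hv, rfl⟩
    | succ m ih =>
      intro hm
      obtain ⟨v, l, h1, h2, h3, h4⟩ := ih (by omega)
      have hvS : v ∈ S := h3 v List.mem_cons_self
      have h5 := hcon v hvS
      have h6 : l.toFinset.card ≤ m := by
        refine (List.toFinset_card_le l).trans ?_
        simp only [List.length_cons] at h4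
        omega
      have h7 : ∃ w ∈ S.filter (G.Adj v), w ∉ l.toFinset := by
        by_contra hc
        push Not at hc
        have := card_le_card (fun w hw => hc w hw : S.filter (G.Adj v) ⊆ l.toFinset)
        omega
      obtain ⟨w, hw, hwl⟩ := h7
      rw [mem_filter] at hw
      rw [List.mem_toFinset] at hwl
      refine ⟨w, v :: l, ?_, ?_, ?_, ?_⟩
      · rw [List.nodup_cons]
        refine ⟨?_, h1⟩
        rw [List.mem_cons]
        rintro (h8 | h8)
        · exact hw.2.ne h8.symm
        · exact hwl h8
      · rw [List.isChain_cons_cons]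
        exact ⟨hw.2.symm, h2⟩
      · intro z hz
        rcases List.mem_cons.mp hz with h8 | h8
        · exact h8 ▸ hw.1
        · exact h3 z h8
      · rw [List.length_cons, h4]
  obtain ⟨v, l, h1, h2, h3, h4⟩ := key n le_rfl
  exact h _ h1 h2 h3 h4

theorem degen [DecidableEq V] (G : SimpleGraph V) (x : V → ℝ) (hx : ∀ v, 0 ≤ x v) {n : ℕ}
    (hn : 1 ≤ n) (S : Finset V) (h : NoPath G S (n + 1)) :
    ∑ v ∈ S, ∑ w ∈ S, av G v w * min (x v) (x w) ≤ 2 * (n - 1) * ∑ v ∈ S, x v := by
  classical
  induction S using Finset.strongInduction with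
  | H S ih =>
    rcases S.eq_empty_or_nonempty with rfl | hS
    · simp
    obtain ⟨v, hv, hfew⟩ := exists_few G hn S hS h
    have h0 : ∀ a b, 0 ≤ av G a b := by
      intro a b
      unfold av
      split_ifs <;> norm_num
    have hsymm : ∀ a b, av G a b = av G b a := by
      intro a b
      unfold av
      simp only [G.adj_comm a b]
    have hvv : av G v v = 0 := by
      unfold av
      simp
    have hih := ih (S.erase v) (erase_ssubset hv) fun l h1 h2 h3 =>
      h l h1 h2 fun w hw => mem_of_mem_erase (h3 w hw)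
    have hdeg : ∑ w ∈ S.erase v, av G v w ≤ (n : ℝ) - 1 := by
      have h1 : ∑ w ∈ S.erase v, av G v w ≤ ∑ w ∈ S, av G v w :=
        sum_le_sum_of_subset_of_nonneg (erase_subset _ _) fun w _ _ => h0 v w
      have h2 : ∑ w ∈ S, av G v w = ((S.filter (G.Adj v)).card : ℝ) := by
        unfold av
        rw [sum_boole]
      have h3 : ((S.filter (G.Adj v)).card : ℝ) ≤ ((n - 1 : ℕ) : ℝ) := by exact_mod_cast hfew
      have h4 : ((n - 1 : ℕ) : ℝ) = (n : ℝ) - 1 := by
        rw [Nat.cast_sub hn, Nat.cast_one]
      linarith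
    have hrow : ∑ w ∈ S.erase v, av G v w * min (x v) (x w) ≤ (n - 1) * x v := by
      calc ∑ w ∈ S.erase v, av G v w * min (x v) (x w)
          ≤ ∑ w ∈ S.erase v, av G v w * x v :=
            sum_le_sum fun w _ => mul_le_mul_of_nonneg_left (min_le_left _ _) (h0 v w)
        _ = (∑ w ∈ S.erase v, av G v w) * x v := (sum_mul _ _ _).symm
        _ ≤ (n - 1) * x v := mul_le_mul_of_nonneg_right hdeg (hx v)
    have hcol : ∑ w ∈ S.erase v, av G w v * min (x w) (x v) =
        ∑ w ∈ S.erase v, av G v w * min (x v) (x w) :=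
      sum_congr rfl fun w _ => by rw [hsymm w v, min_comm]
    have hsplit : ∑ a ∈ S, ∑ w ∈ S, av G a w * min (x a) (x w) =
        ∑ a ∈ S.erase v, ∑ w ∈ S.erase v, av G a w * min (x a) (x w) +
          2 * ∑ w ∈ S.erase v, av G v w * min (x v) (x w) := by
      have hin : ∀ a, ∑ w ∈ S, av G a w * min (x a) (x w) =
          ∑ w ∈ S.erase v, av G a w * min (x a) (x w) + av G a v * min (x a) (x v) :=
        fun a => (sum_erase_add _ _ hv).symm
      rw [← sum_erase_add _ _ hv]
      simp only [hin]
      rw [sum_add_distrib, hcol, hvv]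
      ring
    have hsum : ∑ a ∈ S, x a = ∑ a ∈ S.erase v, x a + x v := (sum_erase_add _ _ hv).symm
    rw [hsplit, hsum]
    linarith

theorem card_le_of_complete [DecidableEq V] (G : SimpleGraph V) (A : Finset V) {k : ℕ}
    (h : NoPath G A (2 * k + 1)) (T R : Finset V) (hT : T ⊆ A) (hR : R ⊆ A) (hTR : Disjoint T R)
    (hk : T.card = k) (hadj : ∀ t ∈ T, ∀ r ∈ R, G.Adj t r) : R.card ≤ k := by
  by_contra hcon
  push Not at hcon
  have key : ∀ T' : Finset V, T' ⊆ T → ∀ R' : Finset V, R' ⊆ R → R'.card = T'.card + 1 →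
      ∃ r ∈ R', ∃ l : List V, (r :: l).Nodup ∧ (r :: l).IsChain G.Adj ∧
        (∀ v ∈ r :: l, v ∈ T' ∪ R') ∧ (r :: l).length = 2 * T'.card + 1 := by
    intro T'
    induction T' using Finset.induction with
    | empty =>
      intro _ R' _ hc
      rw [card_empty, zero_add, card_eq_one] at hc
      obtain ⟨r, rfl⟩ := hc
      exact ⟨r, mem_singleton_self r, [], List.nodup_singleton r, List.isChain_singleton r,
        by simp, rfl⟩
    | insert t T' ht ih =>
      intro hT' R' hR' hc
      rw [card_insert_of_notMem ht] at hc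
      have hne : R'.Nonempty := by
        rw [← card_pos]
        omega
      obtain ⟨r, hr⟩ := hne
      obtain ⟨r', hr', l, h1, h2, h3, h4⟩ := ih ((subset_insert t T').trans hT') (R'.erase r)
        ((erase_subset r R').trans hR') (by rw [card_erase_of_mem hr]; omega)
      have htT : t ∈ T := hT' (mem_insert_self t T')
      have hrR : r ∈ R := hR' hr
      have hdis : ∀ a ∈ T, ∀ b ∈ R, a ≠ b := fun a ha b hb hab =>
        (disjoint_left.mp hTR ha) (hab ▸ hb)
      have htl : t ∉ r' :: l := by
        intro hm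
        rcases mem_union.mp (h3 t hm) with h5 | h5
        · exact ht h5
        · exact hdis t htT t (hR' (mem_of_mem_erase h5)) rfl
      have hrl : r ∉ r' :: l := by
        intro hm
        rcases mem_union.mp (h3 r hm) with h5 | h5
        · exact hdis r (hT' (mem_insert_of_mem h5)) r hrR rfl
        · exact notMem_erase r R' h5
      refine ⟨r, hr, t :: r' :: l, ?_, ?_, ?_, ?_⟩
      · rw [List.nodup_cons, List.nodup_cons]
        refine ⟨?_, htl, h1⟩
        rw [List.mem_cons]
        rintro (h5 | h5)
        · exact hdis t htT r hrR h5.symm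
        · exact hrl h5
      · rw [List.isChain_cons_cons, List.isChain_cons_cons]
        exact ⟨(hadj t htT r hrR).symm, hadj t htT r' (hR' (mem_of_mem_erase hr')), h2⟩
      · intro v hv
        rw [List.mem_cons, List.mem_cons] at hv
        rw [mem_union, mem_insert]
        rcases hv with rfl | rfl | hv
        · exact Or.inr hr
        · exact Or.inl (Or.inl rfl)
        · rcases mem_union.mp (h3 v hv) with h5 | h5
          · exact Or.inl (Or.inr h5)
          · exact Or.inr (mem_of_mem_erase h5)
      · rw [List.length_cons, List.length_cons, h4, card_insert_of_notMem ht]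
        ring
  obtain ⟨R', hR', hc⟩ := exists_subset_card_eq (show k + 1 ≤ R.card by omega)
  obtain ⟨r, _, l, h1, h2, h3, h4⟩ := key T subset_rfl R' hR' (by rw [hc, hk])
  refine h _ h1 h2 (fun v hv => ?_) (by rw [h4, hk])
  rcases mem_union.mp (h3 v hv) with h5 | h5
  · exact hT h5
  · exact hR (hR' h5)

end Pool.Agent.BHTri
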