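import Pool.Agent.BHTri.Defs

set_option autoImplicit false

/-!
# Lists, paths and copies of the forbidden graph
-/

namespace Pool.Agent.BHTri

variable {V : Type*}

/-- cycle builder -/
theorem not_free_of_list (G : SimpleGraph V) {t : ℕ} (ht : 3 ≤ t) (l : List V)
    (hl : l.length = t) (hn : l.Nodup) (hc : l.IsChain G.Adj) (a b z : V) (ha : l.head? = some a)
    (hb : l.getLast? = some b) (hab : G.Adj b a) (hz : z ∉ l) (hza : G.Adj z a)
    (hzb : G.Adj z b) : ¬ (cTri t).Free G := by
  subst hl
  have h0 : 0 < l.length := by omega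
  have ea : ∀ i : ℕ, ∀ hi : i < l.length, i = 0 → l[i] = a := by
    intro i hi h
    subst h
    rw [List.head?_eq_getElem?, List.getElem?_eq_getElem h0] at ha
    exact Option.some.inj ha
  have eb : ∀ i : ℕ, ∀ hi : i < l.length, i + 1 = l.length → l[i] = b := by
    intro i hi h
    have h1 : i = l.length - 1 := by omega
    subst h1
    rw [List.getLast?_eq_getElem?, List.getElem?_eq_getElem (by omega)] at hb
    exact Option.some.inj hb
  have hch : ∀ i j : ℕ, ∀ hi : i < l.length, ∀ hj : j < l.length, i + 1 = j →
      G.Adj l[i] l[j] := by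
    intro i j hi hj h
    subst h
    exact List.isChain_iff_getElem.mp hc i hj
  have hadj : ∀ o p : Option (Fin l.length), cAdj l.length o p →
      G.Adj (o.elim z (fun i => l[i.val])) (p.elim z (fun i => l[i.val])) := by
    rintro (_ | i) (_ | j) h
    · exact h.elim
    · rcases h with h | h
      · simpa [ea j.val j.isLt h] using hza
      · simpa [eb j.val j.isLt h] using hzb
    · rcases h with h | h
      · simpa [ea i.val i.isLt h] using hza.symm
      · simpa [eb i.val i.isLt h] using hzb.symm
    · obtain ⟨h1, h2 | h2 | ⟨h2, h3⟩ | ⟨h2, h3⟩⟩ := h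
      · exact hch i.val j.val i.isLt j.isLt h2
      · exact (hch j.val i.val j.isLt i.isLt h2).symm
      · simpa [ea i.val i.isLt h2, eb j.val j.isLt h3] using hab.symm
      · simpa [ea j.val j.isLt h2, eb i.val i.isLt h3] using hab
  have hinj : Function.Injective
      (fun o : Option (Fin l.length) => o.elim z (fun i => l[i.val])) := by
    rintro (_ | i) (_ | j) h
    · rfl
    · exact absurd (by
        have h' : z = l[j.val] := h
        rw [h']
        exact List.getElem_mem _) hz
    · exact absurd (by
        have h' : l[i.val] = z := h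
        rw [← h']
        exact List.getElem_mem _) hz
    · have h' : l[i.val] = l[j.val] := h
      have h1 := (List.Nodup.getElem_inj_iff hn).mp h'
      exact congrArg some (Fin.ext h1)
  intro hfree
  exact hfree ⟨⟨⟨fun o => o.elim z (fun i => l[i.val]), fun h => hadj _ _ h⟩, hinj⟩⟩

theorem noPath_of_free [DecidableEq V] (G : SimpleGraph V) {t : ℕ} (ht : 3 ≤ t)
    (hf : (cTri t).Free G) (u : V) (A : Finset V) (hA : ∀ v ∈ A, G.Adj u v) :
    NoPath G A t := by
  intro l hn hc hm hl
  obtain _ | ⟨z, l1⟩ := l
  · simp at hl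
    omega
  obtain _ | ⟨a, l2⟩ := l1
  · simp at hl
    omega
  have hu : ∀ v ∈ z :: a :: l2, u ≠ v := fun v hv => (hA v (hm v hv)).ne
  rw [List.nodup_cons] at hn
  rw [List.isChain_cons_cons] at hc
  refine not_free_of_list G ht (a :: l2 ++ [u]) ?_ ?_ ?_ a u z ?_ ?_ ?_ ?_ ?_ ?_ hf
  · simp at hl ⊢
    omega
  · rw [List.nodup_append]
    refine ⟨hn.2, List.nodup_singleton _, ?_⟩
    intro x hx y hy
    rw [List.mem_singleton] at hy
    subst hy
    exact (hu x (List.mem_cons_of_mem _ hx)).symm
  · rw [List.isChain_append]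
    refine ⟨hc.2, List.isChain_singleton _, ?_⟩
    intro x hx y hy
    have hx' := List.mem_of_getLast? hx
    simp at hy
    subst hy
    exact (hA x (hm x (List.mem_cons_of_mem _ hx'))).symm
  · simp
  · exact List.getLast?_concat ..
  · exact hA a (hm a (by simp))
  · intro h
    rw [List.mem_append, List.mem_singleton] at h
    rcases h with h | h
    · exact hn.1 h
    · exact hu z (by simp) h.symm
  · exact hc.1
  · exact (hA z (hm z (by simp))).symm

theorem NoPath.mono {G : SimpleGraph V} {A : Finset V} {n m : ℕ} (h : NoPath G A n)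
    (hnm : n ≤ m) : NoPath G A m := by
  intro l hn hc hm hl
  refine h (l.take n) ?_ ?_ ?_ ?_
  · exact hn.sublist (List.take_sublist _ _)
  · exact hc.take n
  · intro v hv
    exact hm v (List.mem_of_mem_take hv)
  · rw [List.length_take]
    omega

end Pool.Agent.BHTri
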