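import Pool.Agent.BHTri.Defs
import Pool.Agent.BHTri.Lists

set_option autoImplicit false

/-!
# Many good vertices outside the neighbourhood give the forbidden graph
-/

namespace Pool.Agent.BHTri

variable {V : Type*}

theorem good_list [DecidableEq V] (G : SimpleGraph V) {k : ℕ} (hk : 2 ≤ k) (u : V)
    (g : ℕ → V) (hg : ∀ i < k - 1, ∀ j < k - 1, g i = g j → i = j)
    (hgu : ∀ i < k - 1, g i ≠ u ∧ ¬ G.Adj u (g i)) (y a z : V)
    (ha : G.Adj u a) (hga : G.Adj (g 0) a) (hay : G.Adj a y)
    (haz : a ≠ z)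
    (hmany : ∀ i < k - 1, ∀ j < k - 1, ∀ F : Finset V, F.card ≤ 3 * k + 5 →
      ∃ c, c ∉ F ∧ G.Adj u c ∧ G.Adj (g i) c ∧ G.Adj (g j) c) :
    ∀ j ≤ k - 1, ∃ (l : List V) (c : V), l.length = 2 * j + 1 ∧ l.Nodup ∧ l.IsChain G.Adj ∧
      l.head? = some a ∧ l.getLast? = some c ∧ G.Adj u c ∧ (j < k - 1 → G.Adj (g j) c) ∧
      ∀ v ∈ l, (∃ i < j, v = g i) ∨ (G.Adj u v ∧ v ≠ y ∧ v ≠ z) := by
  intro j
  induction j with
  | zero =>
    intro _
    refine ⟨[a], a, rfl, List.nodup_singleton a, List.isChain_singleton a, rfl, rfl, ha,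
      fun _ => hga, ?_⟩
    intro v hv
    rw [List.mem_singleton] at hv
    subst hv
    exact Or.inr ⟨ha, hay.ne, haz⟩
  | succ j ih =>
    intro hj
    obtain ⟨l, c, hlen, hnd, hch, hhd, hlast, huc, hgc, hmem⟩ := ih (by omega)
    have hjk : j < k - 1 := by omega
    have hgj := hgu j hjk
    have hi2 : ∃ i2, i2 < k - 1 ∧ (j + 1 < k - 1 → i2 = j + 1) := by
      by_cases h : j + 1 < k - 1
      · exact ⟨j + 1, h, fun _ => rfl⟩
      · exact ⟨j, hjk, fun h' => absurd h' h⟩
    obtain ⟨i2, hi2, hi2'⟩ := hi2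
    have hcard : (l.toFinset ∪ {y, z}).card ≤ 3 * k + 5 := by
      have h1 := Finset.card_union_le l.toFinset {y, z}
      have h2 := l.toFinset_card_le
      have h3 : ({y, z} : Finset V).card ≤ 2 := Finset.card_le_two
      omega
    obtain ⟨d, hdF, hud, hgd, hgd2⟩ := hmany j hjk i2 hi2 _ hcard
    have hdl : d ∉ l := fun h => hdF (by simp [h])
    have hdy : d ≠ y := fun h => hdF (by simp [h])
    have hdz : d ≠ z := fun h => hdF (by simp [h])
    have hgl : g j ∉ l := by
      intro h
      rcases hmem _ h with ⟨i, hi, he⟩ | ⟨h1, _, _⟩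
      · have := hg j hjk i (by omega) he
        omega
      · exact hgj.2 h1
    refine ⟨l ++ [g j, d], d, ?_, ?_, ?_, ?_, ?_, hud, ?_, ?_⟩
    · simp [hlen]
      omega
    · rw [List.nodup_append]
      refine ⟨hnd, ?_, ?_⟩
      · simp [hgd.ne]
      · intro x hx w hw hxw
        subst hxw
        simp only [List.mem_cons, List.not_mem_nil, or_false] at hw
        rcases hw with hw | hw
        · subst hw
          exact hgl hx
        · subst hw
          exact hdl hx
    · rw [List.isChain_append]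
      refine ⟨hch, ?_, ?_⟩
      · simp [hgd]
      · intro x hx w hw
        rw [hlast] at hx
        simp at hx hw
        subst hx
        subst hw
        exact (hgc hjk).symm
    · rw [List.head?_append, hhd]
      rfl
    · rw [List.getLast?_append]
      rfl
    · intro h
      rw [← hi2' h]
      exact hgd2
    · intro v hv
      rw [List.mem_append] at hv
      rcases hv with hv | hv
      · rcases hmem v hv with ⟨i, hi, he⟩ | h
        · exact Or.inl ⟨i, by omega, he⟩
        · exact Or.inr h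
      · simp only [List.mem_cons, List.not_mem_nil, or_false] at hv
        rcases hv with hv | hv
        · exact Or.inl ⟨j, by omega, hv⟩
        · subst hv
          exact Or.inr ⟨hud, hdy, hdz⟩

theorem good_contra [DecidableEq V] (G : SimpleGraph V) {k : ℕ} (hk : 2 ≤ k) (u : V)
    (g : ℕ → V) (hg : ∀ i < k - 1, ∀ j < k - 1, g i = g j → i = j)
    (hgu : ∀ i < k - 1, g i ≠ u ∧ ¬ G.Adj u (g i)) (y a z : V) (hy : G.Adj u y)
    (ha : G.Adj u a) (hz : G.Adj u z) (hga : G.Adj (g 0) a) (hay : G.Adj a y) (hzy : G.Adj z y)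
    (haz : a ≠ z)
    (hmany : ∀ i < k - 1, ∀ j < k - 1, ∀ F : Finset V, F.card ≤ 3 * k + 5 →
      ∃ c, c ∉ F ∧ G.Adj u c ∧ G.Adj (g i) c ∧ G.Adj (g j) c) :
    ¬ (cTri (2 * k)).Free G ∧ ¬ (cTri (2 * k + 1)).Free G := by
  obtain ⟨l, c, hlen, hnd, hch, hhd, hlast, huc, _, hmem⟩ :=
    good_list G hk u g hg hgu y a z ha hga hay haz hmany (k - 1) le_rfl
  have hul : u ∉ l := by
    intro h
    rcases hmem u h with ⟨i, hi, he⟩ | ⟨h1, _, _⟩
    · exact (hgu i hi).1 he.symm
    · exact h1.ne rfl
  have hyl : y ∉ l := by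
    intro h
    rcases hmem y h with ⟨i, hi, he⟩ | ⟨_, h1, _⟩
    · exact (hgu i hi).2 (he ▸ hy)
    · exact h1 rfl
  have hzl : z ∉ l := by
    intro h
    rcases hmem z h with ⟨i, hi, he⟩ | ⟨_, _, h1⟩
    · exact (hgu i hi).2 (he ▸ hz)
    · exact h1 rfl
  have hnd2 : (l ++ [u]).Nodup := by
    rw [List.nodup_append]
    refine ⟨hnd, List.nodup_singleton _, ?_⟩
    intro x hx w hw hxw
    rw [List.mem_singleton] at hw
    subst hxw
    subst hw
    exact hul hx
  have hch2 : (l ++ [u]).IsChain G.Adj := by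
    rw [List.isChain_append]
    refine ⟨hch, List.isChain_singleton _, ?_⟩
    intro x hx w hw
    rw [hlast] at hx
    simp at hx hw
    subst hx
    subst hw
    exact huc.symm
  have hhd2 : (l ++ [u]).head? = some a := by
    rw [List.head?_append, hhd]
    rfl
  have hyl2 : y ∉ l ++ [u] := by
    intro h
    rw [List.mem_append, List.mem_singleton] at h
    rcases h with h | h
    · exact hyl h
    · exact hy.ne h.symm
  have hzl2 : z ∉ l ++ [u] := by
    intro h
    rw [List.mem_append, List.mem_singleton] at h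
    rcases h with h | h
    · exact hzl h
    · exact hz.ne h.symm
  constructor
  · refine not_free_of_list G (by omega) (l ++ [u]) ?_ hnd2 hch2 a u y hhd2
      (List.getLast?_concat ..) ha hyl2 hay.symm hy.symm
    simp [hlen]
    omega
  · refine not_free_of_list G (by omega) (y :: (l ++ [u])) ?_ ?_ ?_ y u z rfl ?_ hy ?_ hzy
      hz.symm
    · simp [hlen]
      omega
    · exact List.nodup_cons.mpr ⟨hyl2, hnd2⟩
    · rw [List.isChain_cons]
      refine ⟨?_, hch2⟩
      intro w hw
      rw [hhd2] at hw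
      simp at hw
      subst hw
      exact hay.symm
    · rw [← List.cons_append]
      exact List.getLast?_concat ..
    · intro h
      rw [List.mem_cons] at h
      rcases h with h | h
      · exact hzy.ne h
      · exact hzl2 h

end Pool.Agent.BHTri
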