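import Pool.Agent.BHTri.Defs

set_option autoImplicit false

/-!
# The last step: two vertices joined to a complete bipartite graph
-/

namespace Pool.Agent.BHTri

namespace LastStep

variable {V : Type*}

/-- A closed list together with a vertex on one of its edges gives a copy of `cTri`. -/
theorem not_free_of_list (G : SimpleGraph V) {t : ℕ} (ht : 3 ≤ t) (l : List V)
    (hl : l.length = t) (hn : l.Nodup) (hc : l.IsChain G.Adj) (a b z : V) (ha : l.head? = some a)
    (hb : l.getLast? = some b) (hab : G.Adj b a) (hz : z ∉ l) (hza : G.Adj z a)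
    (hzb : G.Adj z b) : ¬ (cTri t).Free G := by
  subst hl
  have e0 : ∀ i : Fin l.length, i.val = 0 → l.get i = a := by
    rintro ⟨i, hi'⟩ hi
    change i = 0 at hi
    subst hi
    cases l with
    | nil => simp at ha
    | cons c l' => simpa using ha
  have e1 : ∀ i : Fin l.length, i.val + 1 = l.length → l.get i = b := by
    rintro ⟨i, hi'⟩ hi
    change i + 1 = l.length at hi
    have hne : l ≠ [] := by
      rintro rfl
      simp at hb
    rw [List.getLast?_eq_getLast_of_ne_nil hne] at hb
    have h2 := Option.some.inj hb
    rw [List.getLast_eq_getElem hne] at h2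
    have h5 : i = l.length - 1 := Nat.eq_sub_of_add_eq hi
    subst h5
    simpa using h2
  have hstep : ∀ i j : Fin l.length, i.val + 1 = j.val → G.Adj (l.get i) (l.get j) := by
    intro i j hij
    have h3 := List.isChain_iff_getElem.1 hc i.val (by have := j.isLt; omega)
    have h4 : l.get j = l[i.val + 1]'(by have := j.isLt; omega) := by
      simp only [List.get_eq_getElem]
      congr 1
      exact hij.symm
    rw [h4]
    exact h3
  have hends : ∀ i j : Fin l.length, i.val = 0 → j.val + 1 = l.length →
      G.Adj (l.get i) (l.get j) := by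
    intro i j hi hj
    rw [e0 i hi, e1 j hj]
    exact hab.symm
  have hzz : ∀ i : Fin l.length, (i.val = 0 ∨ i.val + 1 = l.length) → G.Adj z (l.get i) := by
    intro i hi
    rcases hi with hi | hi
    · rw [e0 i hi]
      exact hza
    · rw [e1 i hi]
      exact hzb
  let f : Option (Fin l.length) → V := fun o => o.elim z l.get
  have hf : ∀ x y, (cTri l.length).Adj x y → G.Adj (f x) (f y) := by
    rintro (_ | i) (_ | j) h
    · exact absurd h id
    · exact hzz j h
    · exact (hzz i h).symm
    · obtain ⟨_, h7⟩ := h
      rcases h7 with h7 | h7 | ⟨h7, h8⟩ | ⟨h7, h8⟩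
      · exact hstep i j h7
      · exact (hstep j i h7).symm
      · exact hends i j h7 h8
      · exact (hends j i h7 h8).symm
  have hinj : Function.Injective f := by
    rintro (_ | i) (_ | j) h
    · rfl
    · exact absurd (by rw [show z = l.get j from h]; exact List.get_mem _ _) hz
    · exact absurd (by rw [show z = l.get i from h.symm]; exact List.get_mem _ _) hz
    · exact congrArg some (List.nodup_iff_injective_get.1 hn h)
  intro hfree
  exact hfree ⟨⟨⟨f, fun {x y} h => hf x y h⟩, hinj⟩⟩

/-- The list `a₁, b₁, a₂, b₂, ...` of the entries of a list of pairs, followed by `rest`. -/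
def alt : List (V × V) → List V → List V
  | [], rest => rest
  | p :: ps, rest => p.1 :: p.2 :: alt ps rest

theorem alt_length (ps : List (V × V)) (rest : List V) :
    (alt ps rest).length = 2 * ps.length + rest.length := by
  induction ps with
  | nil => simp [alt]
  | cons p ps ih =>
    simp only [alt, List.length_cons, ih]
    omega

theorem alt_perm (ps : List (V × V)) (rest : List V) :
    (alt ps rest).Perm (ps.map Prod.fst ++ (ps.map Prod.snd ++ rest)) := by
  induction ps with
  | nil => simp [alt]
  | cons p ps ih =>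
    simp only [alt, List.map_cons, List.cons_append]
    refine List.Perm.cons _ ?_
    exact (List.Perm.cons _ ih).trans List.perm_middle.symm

theorem alt_chain (G : SimpleGraph V) (L D : Finset V) (hc : ∀ v ∈ L, ∀ d ∈ D, G.Adj v d)
    (rest : List V) (hr : ∀ d ∈ D, List.IsChain G.Adj (d :: rest)) (ps : List (V × V)) :
    (∀ p ∈ ps, p.1 ∈ L ∧ p.2 ∈ D) → ∀ x ∈ D, List.IsChain G.Adj (x :: alt ps rest) := by
  induction ps with
  | nil => exact fun _ x hx => hr x hx
  | cons p ps ih =>
    intro h x hx
    obtain ⟨h1, h2⟩ := h p (by simp)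
    simp only [alt]
    refine List.isChain_cons_cons.2 ⟨(hc _ h1 _ hx).symm, List.isChain_cons_cons.2
      ⟨hc _ h1 _ h2, ?_⟩⟩
    have h3 := ih (fun q hq => h q (by simp [hq])) p.2 h2
    exact h3

end LastStep

variable {V : Type*}

/-- A vertex `u` completely joined to `L ∪ D`, a vertex `w` completely joined to `D`, where `L` and
`D` are completely joined, `L` has `k - 1` and `D` at least `k + 1` vertices: both forbidden graphs
occur. -/
theorem last_contra2 [DecidableEq V] (G : SimpleGraph V) {k : ℕ} (hk : 2 ≤ k) (u w : V)
    (L D : Finset V) (hL : L.card = k - 1) (hD : k + 1 ≤ D.card) (huw : u ≠ w)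
    (hu : u ∉ L ∧ u ∉ D) (hw : w ∉ L ∧ w ∉ D) (hLD : Disjoint L D)
    (hua : ∀ v ∈ L ∪ D, G.Adj u v) (hwD : ∀ v ∈ D, G.Adj w v)
    (hc : ∀ v ∈ L, ∀ d ∈ D, G.Adj v d) :
    ¬ (cTri (2 * k)).Free G ∧ ¬ (cTri (2 * k + 1)).Free G := by
  classical
  have huL : ∀ v ∈ L, G.Adj u v := fun v hv => hua v (Finset.mem_union_left _ hv)
  have huD : ∀ v ∈ D, G.Adj u v := fun v hv => hua v (Finset.mem_union_right _ hv)
  -- the entries of `L`
  obtain ⟨t, ts, hts⟩ : ∃ t ts, L.toList = t :: ts := by
    cases h : L.toList with
    | nil =>
      have h1 := L.length_toList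
      rw [h] at h1
      simp only [List.length_nil] at h1
      omega
    | cons t ts => exact ⟨t, ts, rfl⟩
  have htl : ts.length = k - 2 := by
    have h1 := L.length_toList
    rw [hts, List.length_cons] at h1
    omega
  have htn : (t :: ts).Nodup := hts ▸ L.nodup_toList
  have htm : ∀ v ∈ t :: ts, v ∈ L := by
    intro v hv
    rw [← hts] at hv
    exact Finset.mem_toList.1 hv
  -- the entries of `D`
  obtain ⟨z, x, d, ds', hds⟩ : ∃ z x d ds, D.toList = z :: x :: d :: ds := by
    have h1 := D.length_toList
    cases h : D.toList with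
    | nil =>
      rw [h] at h1
      simp only [List.length_nil] at h1
      omega
    | cons z l1 =>
      cases l1 with
      | nil =>
        rw [h] at h1
        simp only [List.length_cons, List.length_nil] at h1
        omega
      | cons x l2 =>
        cases l2 with
        | nil =>
          rw [h] at h1
          simp only [List.length_cons, List.length_nil] at h1
          omega
        | cons d ds => exact ⟨z, x, d, ds, rfl⟩
  have hdl' : k - 2 ≤ ds'.length := by
    have h1 := D.length_toList
    rw [hds, List.length_cons, List.length_cons, List.length_cons] at h1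
    omega
  obtain ⟨ds, hdsdef⟩ : ∃ ds, ds = ds'.take (k - 2) := ⟨_, rfl⟩
  have hdl : ds.length = k - 2 := by
    rw [hdsdef, List.length_take]
    omega
  have hdsub : List.Sublist ds ds' := hdsdef ▸ List.take_sublist _ _
  have hdn : (z :: x :: d :: ds).Nodup := by
    have h1 : (z :: x :: d :: ds').Nodup := hds ▸ D.nodup_toList
    exact h1.sublist (((hdsub.cons_cons d).cons_cons x).cons_cons z)
  have hdm : ∀ v ∈ z :: x :: d :: ds, v ∈ D := by
    intro v hv
    have h1 : v ∈ z :: x :: d :: ds' := (((hdsub.cons_cons d).cons_cons x).cons_cons z).subset hv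
    rw [← hds] at h1
    exact Finset.mem_toList.1 h1
  -- the pairs
  obtain ⟨ps, hps⟩ : ∃ ps, ps = ts.zip ds := ⟨_, rfl⟩
  have hp1 : ps.map Prod.fst = ts := by
    rw [hps]
    exact List.map_fst_zip (by omega)
  have hp2 : ps.map Prod.snd = ds := by
    rw [hps]
    exact List.map_snd_zip (by omega)
  have hpl : ps.length = k - 2 := by
    rw [← htl, ← hp1, List.length_map]
  have hpm : ∀ p ∈ ps, p.1 ∈ L ∧ p.2 ∈ D := by
    intro p hp
    constructor
    · apply htm
      rw [← hp1]
      exact List.mem_cons_of_mem _ (List.mem_map_of_mem hp)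
    · apply hdm
      rw [← hp2]
      exact List.mem_cons_of_mem _ (List.mem_cons_of_mem _ (List.mem_cons_of_mem _
        (List.mem_map_of_mem hp)))
  have htL : t ∈ L := htm t (by simp)
  have hzD : z ∈ D := hdm z (by simp)
  have hxD : x ∈ D := hdm x (by simp)
  have hdD : d ∈ D := hdm d (by simp)
  have hdisj : ∀ a ∈ L, ∀ b ∈ D, a ≠ b := by
    intro a ha b hb hab
    exact Finset.disjoint_left.1 hLD ha (hab ▸ hb)
  have hmemts : ∀ v ∈ ts, v ∈ L := fun v hv => htm v (List.mem_cons_of_mem _ hv)
  have hmemds : ∀ v ∈ ds, v ∈ D := fun v hv =>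
    hdm v (List.mem_cons_of_mem _ (List.mem_cons_of_mem _ (List.mem_cons_of_mem _ hv)))
  have hwu : w ≠ u := huw.symm
  have a1 : t ≠ z := hdisj t htL z hzD
  have a2 : t ≠ x := hdisj t htL x hxD
  have a3 : t ≠ d := hdisj t htL d hdD
  have a4 : t ≠ u := fun h => hu.1 (h ▸ htL)
  have a5 : t ≠ w := fun h => hw.1 (h ▸ htL)
  have b1 : z ≠ u := fun h => hu.2 (h ▸ hzD)
  have b2 : x ≠ u := fun h => hu.2 (h ▸ hxD)
  have b3 : d ≠ u := fun h => hu.2 (h ▸ hdD)
  have b4 : z ≠ w := fun h => hw.2 (h ▸ hzD)
  have b5 : x ≠ w := fun h => hw.2 (h ▸ hxD)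
  have b6 : d ≠ w := fun h => hw.2 (h ▸ hdD)
  have c1 : u ∉ ts := fun h => hu.1 (hmemts u h)
  have c2 : w ∉ ts := fun h => hw.1 (hmemts w h)
  have c3 : u ∉ ds := fun h => hu.2 (hmemds u h)
  have c4 : w ∉ ds := fun h => hw.2 (hmemds w h)
  have c5 : z ∉ ts := fun h => hdisj z (hmemts z h) z hzD rfl
  have c6 : x ∉ ts := fun h => hdisj x (hmemts x h) x hxD rfl
  have c7 : d ∉ ts := fun h => hdisj d (hmemts d h) d hdD rfl
  have c8 : t ∉ ds := fun h => hdisj t htL t (hmemds t h) rfl
  have c9 : t ∉ ts := (List.nodup_cons.1 htn).1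
  have htsn : ts.Nodup := (List.nodup_cons.1 htn).2
  have e1 := List.nodup_cons.1 hdn
  have e2 := List.nodup_cons.1 e1.2
  have e3 := List.nodup_cons.1 e2.2
  have hzx : z ≠ x := fun h => e1.1 (by simp [h])
  have hzd : z ≠ d := fun h => e1.1 (by simp [h])
  have hzds : z ∉ ds := fun h => e1.1 (by simp [h])
  have hxd : x ≠ d := fun h => e2.1 (by simp [h])
  have hxds : x ∉ ds := fun h => e2.1 (by simp [h])
  have hdds : d ∉ ds := e3.1
  have htsds : List.Disjoint ts ds := fun v hv1 hv2 => hdisj v (hmemts v hv1) v (hmemds v hv2) rfl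
  constructor
  · -- the list `z, w, x, (t₂, d₁), (t₃, d₂), ..., u`
    have hperm := LastStep.alt_perm ps [u]
    rw [hp1, hp2] at hperm
    have hN : (LastStep.alt ps [u]).Nodup := by
      rw [hperm.nodup_iff]
      rw [List.nodup_append', List.nodup_append']
      refine ⟨htsn, ⟨e3.2, List.nodup_singleton _, ?_⟩, ?_⟩
      · intro v hv1 hv2
        rw [List.mem_singleton] at hv2
        exact c3 (hv2 ▸ hv1)
      · intro v hv1 hv2
        rcases List.mem_append.1 hv2 with h | h
        · exact htsds hv1 h
        · rw [List.mem_singleton] at h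
          exact c1 (h ▸ hv1)
    have hM : ∀ v, v ∈ LastStep.alt ps [u] ↔ v ∈ ts ∨ v ∈ ds ∨ v = u := by
      intro v
      rw [hperm.mem_iff]
      simp only [List.mem_append, List.mem_singleton]
    refine LastStep.not_free_of_list G (by omega) (z :: w :: x :: LastStep.alt ps [u]) ?_ ?_ ?_
      z u t rfl ?_ (huD z hzD) ?_ (hc t htL z hzD) (huL t htL).symm
    · simp only [List.length_cons, LastStep.alt_length, List.length_nil, hpl]
      omega
    · refine List.nodup_cons.2 ⟨?_, List.nodup_cons.2 ⟨?_, List.nodup_cons.2 ⟨?_, hN⟩⟩⟩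
      · intro h
        rcases List.mem_cons.1 h with h | h
        · exact b4 h
        rcases List.mem_cons.1 h with h | h
        · exact hzx h
        rcases (hM z).1 h with h | h | h
        · exact c5 h
        · exact hzds h
        · exact b1 h
      · intro h
        rcases List.mem_cons.1 h with h | h
        · exact b5 h.symm
        rcases (hM w).1 h with h | h | h
        · exact c2 h
        · exact c4 h
        · exact hwu h
      · intro h
        rcases (hM x).1 h with h | h | h
        · exact c6 h
        · exact hxds h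
        · exact b2 h
    · refine List.isChain_cons_cons.2 ⟨(hwD z hzD).symm, List.isChain_cons_cons.2
        ⟨hwD x hxD, ?_⟩⟩
      refine LastStep.alt_chain G L D hc [u] ?_ ps hpm x hxD
      intro v hv
      exact List.isChain_cons_cons.2 ⟨(huD v hv).symm, List.isChain_singleton _⟩
    · have hlast : ∀ (qs : List (V × V)) (r : V),
          (LastStep.alt qs [r]).getLast? = some r := by
        intro qs
        induction qs with
        | nil => exact fun r => rfl
        | cons q qs ih =>
          intro r
          have hh := ih r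
          simp only [LastStep.alt]
          rw [List.getLast?_cons, List.getLast?_cons, hh]
          rfl
      rw [List.getLast?_cons, List.getLast?_cons, List.getLast?_cons, hlast]
      rfl
    · intro h
      rcases List.mem_cons.1 h with h | h
      · exact a1 h
      rcases List.mem_cons.1 h with h | h
      · exact a5 h
      rcases List.mem_cons.1 h with h | h
      · exact a2 h
      rcases (hM t).1 h with h | h | h
      · exact c9 h
      · exact c8 h
      · exact a4 h
  · -- the list `t, d, (t₂, d₁), (t₃, d₂), ..., w, x, u`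
    have hperm := LastStep.alt_perm ps [w, x, u]
    rw [hp1, hp2] at hperm
    have hM : ∀ v, v ∈ LastStep.alt ps [w, x, u] ↔ v ∈ ts ∨ v ∈ ds ∨ v = w ∨ v = x ∨ v = u := by
      intro v
      rw [hperm.mem_iff]
      simp only [List.mem_append, List.mem_cons, List.not_mem_nil, or_false]
    have hN : (LastStep.alt ps [w, x, u]).Nodup := by
      rw [hperm.nodup_iff]
      rw [List.nodup_append', List.nodup_append']
      refine ⟨htsn, ⟨e3.2, ?_, ?_⟩, ?_⟩
      · simp only [List.nodup_cons, List.mem_cons, List.not_mem_nil, or_false, not_or,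
          not_false_eq_true, List.nodup_nil, and_true]
        exact ⟨⟨b5.symm, hwu⟩, b2⟩
      · intro v hv1 hv2
        simp only [List.mem_cons, List.not_mem_nil, or_false] at hv2
        rcases hv2 with h | h | h
        · exact c4 (h ▸ hv1)
        · exact hxds (h ▸ hv1)
        · exact c3 (h ▸ hv1)
      · intro v hv1 hv2
        rcases List.mem_append.1 hv2 with h | h
        · exact htsds hv1 h
        · simp only [List.mem_cons, List.not_mem_nil, or_false] at h
          rcases h with h | h | h
          · exact c2 (h ▸ hv1)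
          · exact c6 (h ▸ hv1)
          · exact c1 (h ▸ hv1)
    refine LastStep.not_free_of_list G (by omega) (t :: d :: LastStep.alt ps [w, x, u]) ?_ ?_ ?_
      t u z rfl ?_ (huL t htL) ?_ (hc t htL z hzD).symm (huD z hzD).symm
    · simp only [List.length_cons, LastStep.alt_length, List.length_nil, hpl]
      omega
    · refine List.nodup_cons.2 ⟨?_, List.nodup_cons.2 ⟨?_, hN⟩⟩
      · intro h
        rcases List.mem_cons.1 h with h | h
        · exact a3 h
        rcases (hM t).1 h with h | h | h | h | h
        · exact c9 h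
        · exact c8 h
        · exact a5 h
        · exact a2 h
        · exact a4 h
      · intro h
        rcases (hM d).1 h with h | h | h | h | h
        · exact c7 h
        · exact hdds h
        · exact b6 h
        · exact hxd h.symm
        · exact b3 h
    · refine List.isChain_cons_cons.2 ⟨hc t htL d hdD, ?_⟩
      refine LastStep.alt_chain G L D hc [w, x, u] ?_ ps hpm d hdD
      intro v hv
      exact List.isChain_cons_cons.2 ⟨(hwD v hv).symm, List.isChain_cons_cons.2 ⟨hwD x hxD,
        List.isChain_cons_cons.2 ⟨(huD x hxD).symm, List.isChain_singleton _⟩⟩⟩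
    · have hlast : ∀ (qs : List (V × V)) (r : V),
          (LastStep.alt qs [w, x, r]).getLast? = some r := by
        intro qs
        induction qs with
        | nil => exact fun r => rfl
        | cons q qs ih =>
          intro r
          have hh := ih r
          simp only [LastStep.alt]
          rw [List.getLast?_cons, List.getLast?_cons, hh]
          rfl
      rw [List.getLast?_cons, List.getLast?_cons, hlast]
      rfl
    · intro h
      rcases List.mem_cons.1 h with h | h
      · exact a1 h.symm
      rcases List.mem_cons.1 h with h | h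
      · exact hzd h
      rcases (hM z).1 h with h | h | h | h | h
      · exact c5 h
      · exact hzds h
      · exact b4 h
      · exact hzx h
      · exact b1 h

/-- Two vertices `u`, `w` completely joined to `L ∪ D`, where `L` and `D` are completely joined,
`L` has `k - 1` and `D` at least `k + 1` vertices: both forbidden graphs occur. -/
theorem last_contra [DecidableEq V] (G : SimpleGraph V) {k : ℕ} (hk : 2 ≤ k) (u w : V)
    (L D : Finset V) (hL : L.card = k - 1) (hD : k + 1 ≤ D.card) (huw : u ≠ w)
    (hu : u ∉ L ∧ u ∉ D) (hw : w ∉ L ∧ w ∉ D) (hLD : Disjoint L D)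
    (hua : ∀ v ∈ L ∪ D, G.Adj u v) (hwa : ∀ v ∈ L ∪ D, G.Adj w v)
    (hc : ∀ v ∈ L, ∀ d ∈ D, G.Adj v d) :
    ¬ (cTri (2 * k)).Free G ∧ ¬ (cTri (2 * k + 1)).Free G :=
  last_contra2 G hk u w L D hL hD huw hu hw hLD hua
    (fun v hv => hwa v (Finset.mem_union_right _ hv)) hc

end Pool.Agent.BHTri
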