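import Pool.Agent.BHTri.Setup
import Pool.Agent.BHTri.Degen
import Pool.Agent.BHTri.Lists
import Pool.Agent.BHTri.Last
import Pool.Agent.BHTri.Good

set_option autoImplicit false
set_option linter.unusedSectionVars false

namespace Pool.Agent.BHTri

open Finset

variable {V : Type*} [Fintype V] [DecidableEq V]

namespace Setup

variable {G : SimpleGraph V} {k : ℕ} {x : V → ℝ} {u : V} {l : ℝ} {A B : Finset V}

lemma k_ge (S : Setup G k x u l A B) : (2 : ℝ) ≤ k := by exact_mod_cast S.hk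

lemma W_le (S : Setup G k x u l A B) (hNP : NoPath G A (2 * k + 1)) (T : Finset V) (hT : T ⊆ A) :
    ∑ v ∈ T, ∑ w ∈ T, av G v w * min (x v) (x w) ≤ 2 * (2 * (k : ℝ) - 1) * ∑ v ∈ T, x v := by
  have hk := S.hk
  have h := degen G x S.hx0 (n := 2 * k) (by omega) T
    (fun p h1 h2 h3 => hNP p h1 h2 (fun v hv => hT (h3 v hv)))
  push_cast at h
  exact h

lemma W_ge (S : Setup G k x u l A B) :
    2 * ((k : ℝ) - 1) * l - F G k x l A ≤ ∑ v ∈ A, ∑ w ∈ A, av G v w * min (x v) (x w) := by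
  unfold F
  have : ∑ v ∈ A, ∑ w ∈ A, av G v w * (x v + x w - 1) ≤
      ∑ v ∈ A, ∑ w ∈ A, av G v w * min (x v) (x w) := by
    refine Finset.sum_le_sum fun v _ => Finset.sum_le_sum fun w _ => ?_
    refine mul_le_mul_of_nonneg_left ?_ (av_nonneg G v w)
    refine le_min ?_ ?_
    · linarith [S.hx1 w]
    · linarith [S.hx1 v]
  linarith

lemma F_ge (S : Setup G k x u l A B) (hNP : NoPath G A (2 * k + 1)) :
    - (2 * (k : ℝ) * l) ≤ F G k x l A := by
  have h1 := S.W_ge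
  have h2 := S.W_le hNP A (Finset.Subset.refl _)
  rw [S.eig_u] at h2
  nlinarith [S.l_nonneg]

lemma Q_le (S : Setup G k x u l A B) (hNP : NoPath G A (2 * k + 1)) (hl : (k : ℝ) ≤ l)
    (hFQ : F G k x l A + Q G x A B ≤ (k : ℝ) ^ 2) : Q G x A B ≤ 3 * k * l := by
  have h := S.F_ge hNP
  have hk := S.k_ge
  nlinarith

lemma sum_BB_le (S : Setup G k x u l A B) (hQ : Q G x A B ≤ 3 * k * l) :
    ∑ v ∈ B, ∑ w ∈ B, av G v w ≤ 3 * k * l := by
  unfold Q at hQ
  have h1 : 0 ≤ ∑ v ∈ A, ∑ w ∈ B, av G v w * (1 - x w) :=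
    Finset.sum_nonneg fun v _ => Finset.sum_nonneg fun w _ =>
      mul_nonneg (av_nonneg G v w) (by linarith [S.hx1 w])
  linarith

lemma sum_AB_le (S : Setup G k x u l A B) (hQ : Q G x A B ≤ 3 * k * l) :
    ∑ w ∈ B, (∑ v ∈ A, av G w v) * (1 - x w) ≤ 3 / 2 * k * l := by
  unfold Q at hQ
  have h2 : 0 ≤ ∑ v ∈ B, ∑ w ∈ B, av G v w :=
    Finset.sum_nonneg fun v _ => Finset.sum_nonneg fun w _ => av_nonneg G v w
  have h3 : ∑ w ∈ B, (∑ v ∈ A, av G w v) * (1 - x w) =
      ∑ v ∈ A, ∑ w ∈ B, av G v w * (1 - x w) := by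
    rw [Finset.sum_comm]
    refine Finset.sum_congr rfl fun w _ => ?_
    rw [Finset.sum_mul]
    exact Finset.sum_congr rfl fun v _ => by rw [av_symm]
  rw [h3]
  linarith

/-- `l x_w` is at most the degree. -/
lemma lx_le (S : Setup G k x u l A B) {w : V} (hw : w ∈ B) :
    l * x w ≤ ∑ v ∈ A, av G w v + ∑ v ∈ B, av G w v := by
  rw [S.eig_B hw]
  refine add_le_add ?_ ?_ <;>
  · refine Finset.sum_le_sum fun v _ => ?_
    have h1 := av_nonneg G w v
    have h2 := S.hx1 v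
    nlinarith

/-- The vertices of `B` with small entry have bounded total weight. -/
lemma light_le (S : Setup G k x u l A B) (hl : 0 < l) (hQ : Q G x A B ≤ 3 * k * l) :
    ∑ w ∈ B.filter (fun w => x w ≤ 1 - 1 / (16 * k)), x w ≤ 27 * (k : ℝ) ^ 2 := by
  have hk := S.k_ge
  set Lt := B.filter (fun w => x w ≤ 1 - 1 / (16 * (k : ℝ))) with hLt
  have hsub : Lt ⊆ B := Finset.filter_subset _ _
  have h1 : ∑ w ∈ Lt, (∑ v ∈ A, av G w v) * (1 / (16 * (k : ℝ))) ≤ 3 / 2 * k * l := by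
    refine le_trans ?_ (S.sum_AB_le hQ)
    refine le_trans (Finset.sum_le_sum (g := fun w => (∑ v ∈ A, av G w v) * (1 - x w)) ?_)
      (Finset.sum_le_sum_of_subset_of_nonneg hsub ?_)
    · intro w hw
      have hw' := (Finset.mem_filter.mp hw).2
      exact mul_le_mul_of_nonneg_left (by linarith) (Finset.sum_nonneg fun v _ => av_nonneg G w v)
    · intro w _ _
      exact mul_nonneg (Finset.sum_nonneg fun v _ => av_nonneg G w v) (by linarith [S.hx1 w])
  have h2 : ∑ w ∈ Lt, ∑ v ∈ A, av G w v ≤ 24 * (k : ℝ) ^ 2 * l := by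
    rw [← Finset.sum_mul] at h1
    have hpos : (0 : ℝ) < 16 * k := by linarith
    rw [mul_one_div, div_le_iff₀ hpos] at h1
    nlinarith
  have h3 : ∑ w ∈ Lt, ∑ v ∈ B, av G w v ≤ 3 * k * l := by
    refine le_trans ?_ (S.sum_BB_le hQ)
    exact Finset.sum_le_sum_of_subset_of_nonneg hsub
      (fun w _ _ => Finset.sum_nonneg fun v _ => av_nonneg G w v)
  have h4 : l * ∑ w ∈ Lt, x w ≤ 24 * (k : ℝ) ^ 2 * l + 3 * k * l := by
    rw [Finset.mul_sum]
    refine le_trans (Finset.sum_le_sum fun w hw => S.lx_le (hsub hw)) ?_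
    rw [Finset.sum_add_distrib]
    linarith
  have h6 : 3 * (k : ℝ) * l ≤ 3 * (k : ℝ) ^ 2 * l := by
    refine mul_le_mul_of_nonneg_right ?_ hl.le
    nlinarith
  have h5 : l * ∑ w ∈ Lt, x w ≤ l * (27 * (k : ℝ) ^ 2) := by
    refine h4.trans ?_
    linarith
  exact le_of_mul_le_mul_left h5 hl

/-- Few vertices of `B` have many neighbours in `B`. -/
lemma badB_le (S : Setup G k x u l A B) (hl : 0 < l) (hQ : Q G x A B ≤ 3 * k * l) :
    ((B.filter (fun w => 1 / (16 * (k : ℝ)) * l ≤ ∑ v ∈ B, av G w v)).card : ℝ) ≤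
      48 * (k : ℝ) ^ 2 := by
  have hk := S.k_ge
  set Bd := B.filter (fun w => 1 / (16 * (k : ℝ)) * l ≤ ∑ v ∈ B, av G w v) with hBd
  have h1 : (Bd.card : ℝ) * (1 / (16 * (k : ℝ)) * l) ≤ 3 * k * l := by
    refine le_trans ?_ (S.sum_BB_le hQ)
    refine le_trans ?_ (Finset.sum_le_sum_of_subset_of_nonneg
      (Finset.filter_subset (fun w => 1 / (16 * (k : ℝ)) * l ≤ ∑ v ∈ B, av G w v) B)
      (fun w _ _ => Finset.sum_nonneg fun v _ => av_nonneg G w v))
    rw [← nsmul_eq_mul]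
    refine Finset.card_nsmul_le_sum _ _ _ fun w hw => ?_
    exact (Finset.mem_filter.mp hw).2
  have hpos : (0 : ℝ) < 16 * k := by linarith
  have h2 : (Bd.card : ℝ) * l ≤ 48 * (k : ℝ) ^ 2 * l := by
    have : (Bd.card : ℝ) * (1 / (16 * (k : ℝ)) * l) = (Bd.card : ℝ) * l / (16 * k) := by
      field_simp
    rw [this, div_le_iff₀ hpos] at h1
    nlinarith
  exact le_of_mul_le_mul_right h2 hl

/-- Three vertices of `A`. -/
lemma exists_yaz (S : Setup G k x u l A B) (hNP : NoPath G A (2 * k + 1)) (hl : 4 * (k : ℝ) + 6 < l)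
    (hF : F G k x l A ≤ (k : ℝ) ^ 2) (w0 : V)
    (hw0 : (1 - 1 / (8 * (k : ℝ))) * l ≤ ∑ v ∈ A, av G w0 v * x v) :
    ∃ y ∈ A, ∃ a ∈ A, ∃ z ∈ A, G.Adj w0 a ∧ G.Adj a y ∧ G.Adj z y ∧ a ≠ z := by
  classical
  have hk := S.k_ge
  by_contra hcon
  push Not at hcon
  set N1 := A.filter (fun v => G.Adj w0 v) with hN1
  set N0 := A.filter (fun v => ¬ G.Adj w0 v) with hN0
  have hsplit : ∀ f : V → ℝ, ∑ v ∈ A, f v = ∑ v ∈ N1, f v + ∑ v ∈ N0, f v := fun f =>
    (Finset.sum_filter_add_sum_filter_not A _ f).symm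
  have h1 : ∑ v ∈ A, av G w0 v * x v = ∑ v ∈ N1, x v := by
    rw [hsplit, Finset.sum_congr rfl (g := x) (fun v hv => by
      rw [av_of_adj (Finset.mem_filter.mp hv).2, one_mul]),
      Finset.sum_congr (s₁ := N0) rfl (g := fun _ => 0) (fun v hv => by
      rw [av_of_not (Finset.mem_filter.mp hv).2, zero_mul])]
    simp
  have h2 : ∑ v ∈ N0, x v ≤ l / (8 * k) := by
    have h3 := hsplit x
    rw [S.eig_u] at h3
    have : (1 - 1 / (8 * (k : ℝ))) * l = l - l / (8 * k) := by ring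
    rw [this, h1] at hw0
    linarith
  -- at most one neighbour in N1
  have h3 : ∀ v ∈ A, ∀ T ⊆ N1, ∑ w ∈ T, av G v w * min (x v) (x w) ≤ x v := by
    intro v hv T hT
    by_cases hex : ∃ a ∈ T, G.Adj a v
    · obtain ⟨a, haT, hav⟩ := hex
      have haN := Finset.mem_filter.mp (hT haT)
      rw [Finset.sum_eq_single_of_mem a haT]
      · calc av G v a * min (x v) (x a) ≤ 1 * x v :=
            mul_le_mul (av_le_one G v a) (min_le_left _ _)
              (le_min (S.hx0 v) (S.hx0 a)) zero_le_one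
          _ = x v := one_mul _
      · intro b hbT hba
        have hbN := Finset.mem_filter.mp (hT hbT)
        by_cases hbv : G.Adj b v
        · exact absurd (hcon v hv a haN.1 b hbN.1 haN.2 hav hbv).symm hba
        · rw [av_of_not (fun h => hbv h.symm), zero_mul]
    · push Not at hex
      rw [Finset.sum_eq_zero]
      · exact S.hx0 v
      · intro w hw
        rw [av_of_not (fun h => hex w hw h.symm), zero_mul]
  have h4 : ∑ v ∈ A, ∑ w ∈ N1, av G v w * min (x v) (x w) ≤ l := by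
    rw [← S.eig_u]
    exact Finset.sum_le_sum fun v hv => h3 v hv N1 (Finset.Subset.refl _)
  have h5 : ∑ v ∈ N1, ∑ w ∈ N0, av G v w * min (x v) (x w) ≤ l / (8 * k) := by
    rw [Finset.sum_comm]
    refine le_trans (Finset.sum_le_sum fun w hw => ?_) h2
    have hwA : w ∈ A := (Finset.mem_filter.mp hw).1
    refine le_trans (le_of_eq ?_) (h3 w hwA N1 (Finset.Subset.refl _))
    exact Finset.sum_congr rfl fun v _ => by rw [av_symm, min_comm]
  have h6 : ∑ v ∈ N0, ∑ w ∈ N0, av G v w * min (x v) (x w) ≤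
      2 * (2 * (k : ℝ) - 1) * (l / (8 * k)) := by
    refine le_trans (S.W_le hNP N0 (Finset.filter_subset _ _)) ?_
    exact mul_le_mul_of_nonneg_left h2 (by linarith)
  have h7 : ∑ v ∈ A, ∑ w ∈ A, av G v w * min (x v) (x w) =
      ∑ v ∈ A, ∑ w ∈ N1, av G v w * min (x v) (x w) +
      (∑ v ∈ N1, ∑ w ∈ N0, av G v w * min (x v) (x w) +
      ∑ v ∈ N0, ∑ w ∈ N0, av G v w * min (x v) (x w)) := by
    have e1 : ∑ v ∈ A, ∑ w ∈ A, av G v w * min (x v) (x w) =
        ∑ v ∈ A, (∑ w ∈ N1, av G v w * min (x v) (x w) +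
          ∑ w ∈ N0, av G v w * min (x v) (x w)) :=
      Finset.sum_congr rfl fun v _ => hsplit _
    rw [e1, Finset.sum_add_distrib,
      hsplit (fun v => ∑ w ∈ N0, av G v w * min (x v) (x w))]
  have h8 := S.W_ge
  have hlpos : 0 < l := by linarith
  have h9 : 2 * (2 * (k : ℝ) - 1) * (l / (8 * k)) ≤ l / 2 := by
    have hpos : (0 : ℝ) < 8 * k := by linarith
    rw [mul_div_assoc', div_le_iff₀ hpos]
    nlinarith
  have h10 : l / (8 * k) ≤ l / 16 := by
    apply div_le_div_of_nonneg_left hlpos.le (by norm_num)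
    linarith
  nlinarith

end Setup

end Pool.Agent.BHTri
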