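import Pool.Agent.BHTri.Core1

set_option autoImplicit false
set_option linter.unusedSectionVars false

namespace Pool.Agent.BHTri

open Finset

variable {V : Type*} [Fintype V] [DecidableEq V]

namespace Setup

variable {G : SimpleGraph V} {k : ℕ} {x : V → ℝ} {u : V} {l : ℝ} {A B : Finset V}

lemma good_sum (S : Setup G k x u l A B) (hl : 0 < l) {w : V} (hw : w ∈ B)
    (h1 : 1 - 1 / (16 * (k : ℝ)) < x w) (h2 : ∑ v ∈ B, av G w v < 1 / (16 * (k : ℝ)) * l) :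
    (1 - 1 / (8 * (k : ℝ))) * l ≤ ∑ v ∈ A, av G w v * x v := by
  have hk := S.k_ge
  have h3 := S.eig_B hw
  have h4 : ∑ v ∈ B, av G w v * x v ≤ ∑ v ∈ B, av G w v := Finset.sum_le_sum fun v _ => by
    nlinarith [av_nonneg G w v, S.hx1 v]
  have h5 : (1 - 1 / (16 * (k : ℝ))) * l ≤ l * x w := by
    rw [mul_comm l]
    exact mul_le_mul_of_nonneg_right h1.le hl.le
  have h6 : (1 - 1 / (8 * (k : ℝ))) * l =
      (1 - 1 / (16 * (k : ℝ))) * l - 1 / (16 * (k : ℝ)) * l := by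
    have : (k : ℝ) ≠ 0 := by linarith
    field_simp
    ring
  rw [h6]
  linarith

lemma many (S : Setup G k x u l A B) (hl : 4 * (k : ℝ) + 6 < l) {w1 w2 : V}
    (h1 : (1 - 1 / (8 * (k : ℝ))) * l ≤ ∑ v ∈ A, av G w1 v * x v)
    (h2 : (1 - 1 / (8 * (k : ℝ))) * l ≤ ∑ v ∈ A, av G w2 v * x v) (F : Finset V)
    (hF : F.card ≤ 3 * k + 5) : ∃ c, c ∉ F ∧ G.Adj u c ∧ G.Adj w1 c ∧ G.Adj w2 c := by
  by_contra hcon
  push Not at hcon
  have hk := S.k_ge
  have h3 : ∑ v ∈ A, (av G w1 v * x v + av G w2 v * x v) ≤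
      ∑ v ∈ A, (x v + if v ∈ F then (1 : ℝ) else 0) := by
    refine Finset.sum_le_sum fun v hv => ?_
    have hx0 := S.hx0 v
    have hx1 := S.hx1 v
    have ha1 := av_le_one G w1 v
    have ha2 := av_le_one G w2 v
    by_cases hvF : v ∈ F
    · rw [if_pos hvF]
      nlinarith
    · rw [if_neg hvF]
      by_cases hw1 : G.Adj w1 v
      · rw [av_of_not (hcon v hvF ((S.hA v).mp hv) hw1)]
        nlinarith
      · rw [av_of_not hw1]
        nlinarith
  rw [Finset.sum_add_distrib, Finset.sum_add_distrib, S.eig_u] at h3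
  have h4 : ∑ v ∈ A, (if v ∈ F then (1 : ℝ) else 0) ≤ 3 * k + 5 := by
    rw [Finset.sum_ite_mem, Finset.sum_const, nsmul_eq_mul, mul_one]
    calc ((A ∩ F).card : ℝ) ≤ F.card := by exact_mod_cast card_le_card inter_subset_right
      _ ≤ 3 * k + 5 := by exact_mod_cast hF
  have h5 : (15 : ℝ) / 16 ≤ 1 - 1 / (8 * (k : ℝ)) := by
    have : 1 / (8 * (k : ℝ)) ≤ 1 / 16 := by
      apply one_div_le_one_div_of_le (by norm_num)
      linarith
    linarith
  have h6 : (15 : ℝ) / 16 * l ≤ (1 - 1 / (8 * (k : ℝ))) * l :=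
    mul_le_mul_of_nonneg_right h5 (by linarith)
  linarith

lemma few_good (S : Setup G k x u l A B) (hNP : NoPath G A (2 * k + 1))
    (hfree : (cTri (2 * k)).Free G ∨ (cTri (2 * k + 1)).Free G) (hl : 4 * (k : ℝ) + 6 < l)
    (hF : F G k x l A ≤ (k : ℝ) ^ 2) (T : Finset V) (hTB : T ⊆ B)
    (hT : ∀ w ∈ T, (1 - 1 / (8 * (k : ℝ))) * l ≤ ∑ v ∈ A, av G w v * x v) :
    T.card < k - 1 := by
  by_contra hcon
  push Not at hcon
  have hk := S.hk
  obtain ⟨T', hT', hcard⟩ := Finset.exists_subset_card_eq hcon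
  let e := (T'.equivFinOfCardEq hcard).symm
  let g : ℕ → V := fun i => if h : i < k - 1 then (e ⟨i, h⟩ : V) else u
  have hgi : ∀ (i : ℕ) (h : i < k - 1), g i = (e ⟨i, h⟩ : V) := fun i h => dif_pos h
  have hg : ∀ i < k - 1, g i ∈ T' := by
    intro i hi
    rw [hgi i hi]
    exact (e ⟨i, hi⟩).2
  have h0 : 0 < k - 1 := by omega
  have hginj : ∀ i < k - 1, ∀ j < k - 1, g i = g j → i = j := by
    intro i hi j hj hij
    rw [hgi i hi, hgi j hj] at hij
    have := e.injective (Subtype.ext hij)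
    simpa using this
  obtain ⟨y, hy, a, ha, z, hz, h1, h2, h3, h4⟩ :=
    S.exists_yaz hNP hl hF (g 0) (hT _ (hT' (hg 0 h0)))
  have hgood := good_contra G hk u g hginj
    (fun i hi => (S.hB _).mp (hTB (hT' (hg i hi)))) y a z ((S.hA y).mp hy) ((S.hA a).mp ha)
    ((S.hA z).mp hz) h1 h2 h3 h4
    (fun i hi j hj F hF => S.many hl (hT _ (hT' (hg i hi))) (hT _ (hT' (hg j hj))) F hF)
  rcases hfree with h | h
  · exact hgood.1 h
  · exact hgood.2 h

lemma sum_B_le (S : Setup G k x u l A B) (hNP : NoPath G A (2 * k + 1))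
    (hfree : (cTri (2 * k)).Free G ∨ (cTri (2 * k + 1)).Free G) (hl : 4 * (k : ℝ) + 6 < l)
    (hF : F G k x l A ≤ (k : ℝ) ^ 2) (hQ : Q G x A B ≤ 3 * k * l) :
    ∑ w ∈ B, x w ≤ 76 * (k : ℝ) ^ 2 := by
  have hk := S.k_ge
  have hlpos : 0 < l := by linarith
  have h1 := S.light_le hlpos hQ
  have h2 := S.badB_le hlpos hQ
  have h3 : (B.filter (fun w => ¬ x w ≤ 1 - 1 / (16 * (k : ℝ)) ∧
      ¬ 1 / (16 * (k : ℝ)) * l ≤ ∑ v ∈ B, av G w v)).card < k - 1 := by
    refine S.few_good hNP hfree hl hF _ (Finset.filter_subset _ _) ?_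
    intro w hw
    obtain ⟨hwB, hw1, hw2⟩ := Finset.mem_filter.mp hw
    exact S.good_sum hlpos hwB (not_le.mp hw1) (not_le.mp hw2)
  have h3' : ((B.filter (fun w => ¬ x w ≤ 1 - 1 / (16 * (k : ℝ)) ∧
      ¬ 1 / (16 * (k : ℝ)) * l ≤ ∑ v ∈ B, av G w v)).card : ℝ) ≤ k := by
    exact Nat.cast_le.mpr (by omega)
  have h4 : ∑ w ∈ B, x w ≤ ∑ w ∈ B, ((if x w ≤ 1 - 1 / (16 * (k : ℝ)) then x w else 0) +
      (if 1 / (16 * (k : ℝ)) * l ≤ ∑ v ∈ B, av G w v then (1 : ℝ) else 0) +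
      (if ¬ x w ≤ 1 - 1 / (16 * (k : ℝ)) ∧ ¬ 1 / (16 * (k : ℝ)) * l ≤ ∑ v ∈ B, av G w v
        then (1 : ℝ) else 0)) := by
    refine Finset.sum_le_sum fun w _ => ?_
    have hx0 := S.hx0 w
    have hx1 := S.hx1 w
    by_cases p1 : x w ≤ 1 - 1 / (16 * (k : ℝ))
    · rw [if_pos p1]
      have : (0 : ℝ) ≤ if 1 / (16 * (k : ℝ)) * l ≤ ∑ v ∈ B, av G w v then (1 : ℝ) else 0 := by
        split_ifs <;> norm_num
      have h' : (0 : ℝ) ≤ if ¬ x w ≤ 1 - 1 / (16 * (k : ℝ)) ∧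
          ¬ 1 / (16 * (k : ℝ)) * l ≤ ∑ v ∈ B, av G w v then (1 : ℝ) else 0 := by
        split_ifs <;> norm_num
      linarith
    · by_cases p2 : 1 / (16 * (k : ℝ)) * l ≤ ∑ v ∈ B, av G w v
      · rw [if_neg p1, if_pos p2, if_neg (fun h => h.2 p2)]
        linarith
      · rw [if_neg p1, if_neg p2, if_pos ⟨p1, p2⟩]
        linarith
  rw [Finset.sum_add_distrib, Finset.sum_add_distrib, ← Finset.sum_filter, ← Finset.sum_filter,
    ← Finset.sum_filter, Finset.sum_const, Finset.sum_const, nsmul_eq_mul, nsmul_eq_mul, mul_one,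
    mul_one] at h4
  nlinarith

/-- A vertex of `A` with a large entry has many neighbours in `A`. -/
lemma heavy_sum (S : Setup G k x u l A B) (hB : ∑ w ∈ B, x w ≤ 76 * (k : ℝ) ^ 2) {v : V}
    (hv : v ∈ A) : l * x v - 77 * (k : ℝ) ^ 2 ≤ ∑ w ∈ A, av G v w * x w := by
  have hk := S.k_ge
  have h1 := S.eig_A hv
  have h2 : ∑ w ∈ B, av G v w * x w ≤ ∑ w ∈ B, x w := Finset.sum_le_sum fun w _ => by
    nlinarith [av_le_one G v w, S.hx0 w]
  nlinarith

/-- Few vertices of `A` have a large entry. -/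
lemma heavy_card (S : Setup G k x u l A B) (hNP : NoPath G A (2 * k + 1))
    (hl : 616 * (k : ℝ) ^ 2 ≤ l) (hB : ∑ w ∈ B, x w ≤ 76 * (k : ℝ) ^ 2) :
    (A.filter (fun v => 1 / 2 < x v)).card ≤ 22 * k := by
  have hk := S.k_ge
  have hlpos : 0 < l := by nlinarith
  set L := A.filter (fun v => 1 / 2 < x v) with hL
  have h1 : ∀ v ∈ L, 3 / 16 * l ≤ ∑ w ∈ A, av G v w * min (x v) (x w) := by
    intro v hv
    obtain ⟨hvA, hxv⟩ := Finset.mem_filter.mp hv
    have h2 := S.heavy_sum hB hvA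
    have h3 : 1 / 2 * ∑ w ∈ A, av G v w * x w ≤ ∑ w ∈ A, av G v w * min (x v) (x w) := by
      rw [Finset.mul_sum]
      refine Finset.sum_le_sum fun w _ => ?_
      have ha := av_nonneg G v w
      have h4 : 1 / 2 * x w ≤ min (x v) (x w) := by
        refine le_min ?_ ?_
        · linarith [S.hx1 w]
        · linarith [S.hx0 w]
      nlinarith
    nlinarith
  have h2 : (L.card : ℝ) * (3 / 16 * l) ≤ 2 * (2 * (k : ℝ) - 1) * l := by
    have h3 := S.W_le hNP A (Finset.Subset.refl _)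
    rw [S.eig_u] at h3
    refine le_trans ?_ h3
    refine le_trans ?_ (Finset.sum_le_sum_of_subset_of_nonneg
      (Finset.filter_subset (fun v => 1 / 2 < x v) A) (fun v _ _ => Finset.sum_nonneg fun w _ =>
        mul_nonneg (av_nonneg G v w) (le_min (S.hx0 v) (S.hx0 w))))
    rw [← nsmul_eq_mul]
    exact Finset.card_nsmul_le_sum _ _ _ h1
  have h4 : (L.card : ℝ) ≤ 22 * k := by
    by_contra hcon
    push Not at hcon
    have : (22 * (k : ℝ)) * (3 / 16 * l) < (L.card : ℝ) * (3 / 16 * l) :=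
      mul_lt_mul_of_pos_right hcon (by linarith)
    nlinarith
  exact_mod_cast h4

end Setup

end Pool.Agent.BHTri
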