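import Pool.Agent.BHTri.Core2

set_option autoImplicit false
set_option linter.unusedSectionVars false

namespace Pool.Agent.BHTri

open Finset

variable {V : Type*} [Fintype V] [DecidableEq V]

/-- the constant bounding the defect -/
noncomputable def cst (k : ℕ) : ℝ :=
  (k : ℝ) ^ 2 + (22 * k) ^ 2 + 2 * ((22 * k) * (k * 2 ^ (22 * k)))

lemma cst_nonneg (k : ℕ) : 0 ≤ cst k := by
  unfold cst
  positivity

namespace Setup

variable {G : SimpleGraph V} {k : ℕ} {x : V → ℝ} {u : V} {l : ℝ} {A B : Finset V}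

lemma F_formula (S : Setup G k x u l A B) (L D : Finset V)
    (hs : ∀ f : V → ℝ, ∑ v ∈ A, f v = ∑ v ∈ L, f v + ∑ v ∈ D, f v) :
    F G k x l A = 2 * ((k : ℝ) - 1) * ∑ v ∈ L, x v
      - ∑ v ∈ L, ∑ w ∈ L, av G v w * (x v + x w - 1)
      + 2 * ∑ w ∈ D, ((k : ℝ) - 1 - ∑ v ∈ L, av G w v) * x w
      + 2 * ∑ v ∈ L, (∑ w ∈ D, av G v w) * (1 - x v)
      + ∑ v ∈ D, ∑ w ∈ D, av G v w * (1 - x v - x w) := by
  have hl : l = ∑ v ∈ L, x v + ∑ v ∈ D, x v := by rw [← hs, S.eig_u]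
  have e1 : ∑ v ∈ A, ∑ w ∈ A, av G v w * (x v + x w - 1) =
      (∑ v ∈ L, ∑ w ∈ L, av G v w * (x v + x w - 1) +
        ∑ v ∈ L, ∑ w ∈ D, av G v w * (x v + x w - 1)) +
      (∑ v ∈ D, ∑ w ∈ L, av G v w * (x v + x w - 1) +
        ∑ v ∈ D, ∑ w ∈ D, av G v w * (x v + x w - 1)) := by
    rw [hs]
    congr 1
    · rw [← Finset.sum_add_distrib]
      exact Finset.sum_congr rfl fun v _ => hs _
    · rw [← Finset.sum_add_distrib]
      exact Finset.sum_congr rfl fun v _ => hs _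
  have e2 : ∑ v ∈ D, ∑ w ∈ L, av G v w * (x v + x w - 1) =
      ∑ v ∈ L, ∑ w ∈ D, av G v w * (x v + x w - 1) := by
    rw [Finset.sum_comm]
    refine Finset.sum_congr rfl fun v _ => Finset.sum_congr rfl fun w _ => ?_
    rw [av_symm]
    ring
  have e3 : ∑ v ∈ L, ∑ w ∈ D, av G v w * (x v + x w - 1) =
      ∑ w ∈ D, (∑ v ∈ L, av G w v) * x w - ∑ v ∈ L, (∑ w ∈ D, av G v w) * (1 - x v) := by
    have : ∑ w ∈ D, (∑ v ∈ L, av G w v) * x w = ∑ v ∈ L, ∑ w ∈ D, av G v w * x w := by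
      rw [Finset.sum_comm (s := L)]
      refine Finset.sum_congr rfl fun w _ => ?_
      rw [Finset.sum_mul]
      exact Finset.sum_congr rfl fun v _ => by rw [av_symm]
    rw [this, ← Finset.sum_sub_distrib]
    refine Finset.sum_congr rfl fun v _ => ?_
    rw [Finset.sum_mul, ← Finset.sum_sub_distrib]
    exact Finset.sum_congr rfl fun w _ => by ring
  have e4 : ∑ w ∈ D, ((k : ℝ) - 1 - ∑ v ∈ L, av G w v) * x w =
      ((k : ℝ) - 1) * ∑ w ∈ D, x w - ∑ w ∈ D, (∑ v ∈ L, av G w v) * x w := by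
    rw [Finset.mul_sum, ← Finset.sum_sub_distrib]
    exact Finset.sum_congr rfl fun w _ => by ring
  have e5 : ∑ v ∈ D, ∑ w ∈ D, av G v w * (1 - x v - x w) =
      - ∑ v ∈ D, ∑ w ∈ D, av G v w * (x v + x w - 1) := by
    rw [← Finset.sum_neg_distrib]
    refine Finset.sum_congr rfl fun v _ => ?_
    rw [← Finset.sum_neg_distrib]
    exact Finset.sum_congr rfl fun w _ => by ring
  have e6 : 2 * ((k : ℝ) - 1) * l =
      2 * ((k : ℝ) - 1) * ∑ v ∈ L, x v + 2 * ((k : ℝ) - 1) * ∑ v ∈ D, x v := by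
    rw [← mul_add, ← hl]
  unfold F
  rw [e1, e2, e3, e4, e5, e6]
  ring

omit [Fintype V] in
lemma count_heavy (hNP : NoPath G A (2 * k + 1)) {L D : Finset V} (hLA : L ⊆ A) (hDA : D ⊆ A)
    (hLD : Disjoint L D) [DecidableRel G.Adj] :
    (D.filter (fun w => k ≤ (L.filter (fun v => G.Adj w v)).card)).card ≤ k * 2 ^ L.card := by
  have h1 : D.filter (fun w => k ≤ (L.filter (fun v => G.Adj w v)).card) ⊆
      (L.powersetCard k).biUnion (fun T => D.filter (fun w => ∀ t ∈ T, G.Adj t w)) := by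
    intro w hw
    obtain ⟨hwD, hw2⟩ := Finset.mem_filter.mp hw
    obtain ⟨T, hT, hcard⟩ := Finset.exists_subset_card_eq hw2
    refine Finset.mem_biUnion.mpr ⟨T, Finset.mem_powersetCard.mpr
      ⟨hT.trans (Finset.filter_subset _ _), hcard⟩, Finset.mem_filter.mpr ⟨hwD, fun t ht => ?_⟩⟩
    exact (Finset.mem_filter.mp (hT ht)).2.symm
  refine (Finset.card_le_card h1).trans ?_
  refine (Finset.card_biUnion_le_card_mul _ _ k ?_).trans ?_
  · intro T hT
    obtain ⟨hTL, hTk⟩ := Finset.mem_powersetCard.mp hT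
    refine card_le_of_complete G A hNP T _ (hTL.trans hLA)
      ((Finset.filter_subset _ _).trans hDA) ?_ hTk ?_
    · exact Finset.disjoint_of_subset_left hTL
        (Finset.disjoint_of_subset_right (Finset.filter_subset _ _) hLD)
    · intro t ht r hr
      exact (Finset.mem_filter.mp hr).2 t ht
  · rw [mul_comm]
    refine Nat.mul_le_mul_left _ ?_
    rw [← Finset.card_powerset]
    refine Finset.card_le_card fun T hT => ?_
    exact Finset.mem_powerset.mpr (Finset.mem_powersetCard.mp hT).1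

omit [Fintype V] [DecidableEq V] in
lemma sum_av_eq_card (L : Finset V) (w : V) [DecidableRel G.Adj] :
    ∑ v ∈ L, av G w v = ((L.filter (fun v => G.Adj w v)).card : ℝ) := by
  rw [Finset.card_filter]
  push_cast
  refine Finset.sum_congr rfl fun v _ => ?_
  unfold av
  by_cases h : G.Adj w v <;> simp [h]

/-- The standing data of the second part. -/
structure Split (G : SimpleGraph V) (k : ℕ) (x : V → ℝ) (l : ℝ) (A L D : Finset V) : Prop where
  hs : ∀ f : V → ℝ, ∑ v ∈ A, f v = ∑ v ∈ L, f v + ∑ v ∈ D, f v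
  hLA : L ⊆ A
  hDA : D ⊆ A
  hLD : Disjoint L D
  hxL : ∀ v ∈ L, 1 / 2 < x v
  hxD : ∀ v ∈ D, x v ≤ 1 / 2
  hcard : L.card ≤ 22 * k

/-- the bound for the defect -/
lemma defect_le (S : Setup G k x u l A B) (hNP : NoPath G A (2 * k + 1))
    (hF : F G k x l A ≤ (k : ℝ) ^ 2) {L D : Finset V} (P : Split G k x l A L D) :
    2 * ∑ w ∈ D, max ((k : ℝ) - 1 - ∑ v ∈ L, av G w v) 0 * x w
      + 2 * ∑ v ∈ L, (∑ w ∈ D, av G v w) * (1 - x v) ≤ cst k := by
  classical
  have hk := S.k_ge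
  have hform := S.F_formula L D P.hs
  have h1 : 0 ≤ 2 * ((k : ℝ) - 1) * ∑ v ∈ L, x v :=
    mul_nonneg (by linarith) (Finset.sum_nonneg fun v _ => S.hx0 v)
  have h2 : ∑ v ∈ L, ∑ w ∈ L, av G v w * (x v + x w - 1) ≤ (L.card : ℝ) ^ 2 := by
    calc ∑ v ∈ L, ∑ w ∈ L, av G v w * (x v + x w - 1) ≤ ∑ v ∈ L, ∑ w ∈ L, (1 : ℝ) := by
          refine Finset.sum_le_sum fun v _ => Finset.sum_le_sum fun w _ => ?_
          nlinarith [av_nonneg G v w, av_le_one G v w, S.hx1 v, S.hx1 w]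
      _ = (L.card : ℝ) ^ 2 := by simp [sq]
  have h3 : 0 ≤ ∑ v ∈ D, ∑ w ∈ D, av G v w * (1 - x v - x w) := by
    refine Finset.sum_nonneg fun v hv => Finset.sum_nonneg fun w hw => ?_
    exact mul_nonneg (av_nonneg G v w) (by linarith [P.hxD v hv, P.hxD w hw])
  have h4 := count_heavy hNP P.hLA P.hDA P.hLD
  set H := D.filter (fun w => k ≤ (L.filter (fun v => G.Adj w v)).card) with hH
  have h5 : ∑ w ∈ D, max ((k : ℝ) - 1 - ∑ v ∈ L, av G w v) 0 * x w ≤
      ∑ w ∈ D, ((k : ℝ) - 1 - ∑ v ∈ L, av G w v) * x w + (H.card : ℝ) * L.card := by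
    have h6 : ∑ w ∈ D, max ((k : ℝ) - 1 - ∑ v ∈ L, av G w v) 0 * x w ≤
        ∑ w ∈ D, (((k : ℝ) - 1 - ∑ v ∈ L, av G w v) * x w +
          if k ≤ (L.filter (fun v => G.Adj w v)).card then (L.card : ℝ) else 0) := by
      refine Finset.sum_le_sum fun w _ => ?_
      rw [sum_av_eq_card]
      have hx0 := S.hx0 w
      have hx1 := S.hx1 w
      have hc1 : ((L.filter (fun v => G.Adj w v)).card : ℝ) ≤ L.card := by
        exact_mod_cast Finset.card_le_card (Finset.filter_subset _ _)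
      by_cases hc : k ≤ (L.filter (fun v => G.Adj w v)).card
      · rw [if_pos hc]
        have hc' : (k : ℝ) ≤ ((L.filter (fun v => G.Adj w v)).card : ℝ) := by exact_mod_cast hc
        rw [max_eq_right (by linarith)]
        nlinarith
      · rw [if_neg hc]
        have hc' : (((L.filter (fun v => G.Adj w v)).card : ℝ)) + 1 ≤ (k : ℝ) := by
          exact_mod_cast (by omega : (L.filter (fun v => G.Adj w v)).card + 1 ≤ k)
        rw [max_eq_left (by linarith)]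
        linarith
    rw [Finset.sum_add_distrib, ← Finset.sum_filter, Finset.sum_const, nsmul_eq_mul] at h6
    exact h6
  have h7 : (L.card : ℝ) ≤ 22 * k := by exact_mod_cast P.hcard
  have h8 : (H.card : ℝ) ≤ k * 2 ^ (22 * k) := by
    have : H.card ≤ k * 2 ^ (22 * k) :=
      h4.trans (Nat.mul_le_mul_left _ (Nat.pow_le_pow_right (by norm_num) P.hcard))
    exact_mod_cast this
  have h9 : (H.card : ℝ) * L.card ≤ (22 * k) * (k * 2 ^ (22 * k)) := by
    rw [mul_comm]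
    exact mul_le_mul h7 h8 (by positivity) (by positivity)
  have h10 : (L.card : ℝ) ^ 2 ≤ (22 * k) ^ 2 := by
    exact pow_le_pow_left₀ (by positivity) h7 2
  unfold cst
  nlinarith

lemma dD_ge (S : Setup G k x u l A B) (hl : 616 * (k : ℝ) ^ 2 ≤ l)
    (hB : ∑ w ∈ B, x w ≤ 76 * (k : ℝ) ^ 2) {L D : Finset V} (P : Split G k x l A L D) {v : V}
    (hv : v ∈ L) : l / 4 ≤ ∑ w ∈ D, av G v w := by
  have hk := S.k_ge
  have h1 := S.heavy_sum hB (P.hLA hv)
  rw [P.hs] at h1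
  have h2 : ∑ w ∈ L, av G v w * x w ≤ L.card := by
    calc ∑ w ∈ L, av G v w * x w ≤ ∑ w ∈ L, (1 : ℝ) := by
          refine Finset.sum_le_sum fun w _ => ?_
          nlinarith [av_nonneg G v w, av_le_one G v w, S.hx1 w, S.hx0 w]
      _ = L.card := by simp
  have h3 : ∑ w ∈ D, av G v w * x w ≤ (∑ w ∈ D, av G v w) / 2 := by
    rw [Finset.sum_div]
    refine Finset.sum_le_sum fun w hw => ?_
    nlinarith [av_nonneg G v w, P.hxD w hw]
  have h4 : (L.card : ℝ) ≤ 22 * k := by exact_mod_cast P.hcard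
  have h5 := P.hxL v hv
  nlinarith

/-- Heavy vertices have entries very close to one. -/
lemma eps_le (S : Setup G k x u l A B) (hNP : NoPath G A (2 * k + 1))
    (hF : F G k x l A ≤ (k : ℝ) ^ 2) (hl : 616 * (k : ℝ) ^ 2 ≤ l)
    (hB : ∑ w ∈ B, x w ≤ 76 * (k : ℝ) ^ 2) {L D : Finset V} (P : Split G k x l A L D) {v : V}
    (hv : v ∈ L) : l * (1 - x v) ≤ 2 * cst k := by
  have h1 := S.defect_le hNP hF P
  have h2 : 0 ≤ ∑ w ∈ D, max ((k : ℝ) - 1 - ∑ v ∈ L, av G w v) 0 * x w :=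
    Finset.sum_nonneg fun w _ => mul_nonneg (le_max_right _ _) (S.hx0 w)
  have h3 : (∑ w ∈ D, av G v w) * (1 - x v) ≤ ∑ v ∈ L, (∑ w ∈ D, av G v w) * (1 - x v) :=
    Finset.single_le_sum (f := fun v => (∑ w ∈ D, av G v w) * (1 - x v))
      (fun w _ => mul_nonneg (Finset.sum_nonneg fun z _ => av_nonneg G w z)
        (by linarith [S.hx1 w])) hv
  have h4 := S.dD_ge hl hB P hv
  have h5 : l / 4 * (1 - x v) ≤ (∑ w ∈ D, av G v w) * (1 - x v) :=
    mul_le_mul_of_nonneg_right h4 (by linarith [S.hx1 v])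
  linarith

/-- Heavy vertices are adjacent to almost all of `A`. -/
lemma missing_le (S : Setup G k x u l A B) (hNP : NoPath G A (2 * k + 1))
    (hF : F G k x l A ≤ (k : ℝ) ^ 2) (hl : 616 * (k : ℝ) ^ 2 ≤ l)
    (hB : ∑ w ∈ B, x w ≤ 76 * (k : ℝ) ^ 2) {L D : Finset V} (P : Split G k x l A L D) {v : V}
    (hv : v ∈ L) : ∑ w ∈ A, (1 - av G v w) * x w ≤ 2 * cst k + 77 * (k : ℝ) ^ 2 := by
  have h1 := S.eps_le hNP hF hl hB P hv
  have h2 := S.heavy_sum hB (P.hLA hv)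
  have h3 : ∑ w ∈ A, (1 - av G v w) * x w = l - ∑ w ∈ A, av G v w * x w := by
    rw [← S.eig_u, ← Finset.sum_sub_distrib]
    exact Finset.sum_congr rfl fun w _ => by ring
  rw [h3]
  linarith

lemma card_L_lt (S : Setup G k x u l A B) (hNP : NoPath G A (2 * k + 1))
    (hF : F G k x l A ≤ (k : ℝ) ^ 2) (hl : 616 * (k : ℝ) ^ 2 ≤ l)
    (hl2 : k * (2 * cst k + 77 * (k : ℝ) ^ 2) + k < l)
    (hB : ∑ w ∈ B, x w ≤ 76 * (k : ℝ) ^ 2) {L D : Finset V} (P : Split G k x l A L D) :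
    L.card < k := by
  classical
  by_contra hcon
  push Not at hcon
  obtain ⟨T, hTL, hTk⟩ := Finset.exists_subset_card_eq hcon
  set R := A.filter (fun w => ∀ t ∈ T, G.Adj t w) with hR
  set R' := A.filter (fun w => ¬ ∀ t ∈ T, G.Adj t w) with hR'
  have h1 : R.card ≤ k := by
    refine card_le_of_complete G A hNP T R (hTL.trans P.hLA) (Finset.filter_subset _ _) ?_ hTk
      (fun t ht r hr => (Finset.mem_filter.mp hr).2 t ht)
    rw [Finset.disjoint_left]
    intro t ht htR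
    exact G.loopless.irrefl t ((Finset.mem_filter.mp htR).2 t ht)
  have h2 : ∑ w ∈ R', x w ≤ k * (2 * cst k + 77 * (k : ℝ) ^ 2) := by
    calc ∑ w ∈ R', x w ≤ ∑ w ∈ R', ∑ t ∈ T, (1 - av G t w) * x w := by
          refine Finset.sum_le_sum fun w hw => ?_
          have hw' := (Finset.mem_filter.mp hw).2
          push Not at hw'
          obtain ⟨t, ht, htw⟩ := hw'
          refine le_trans (le_of_eq ?_) (Finset.single_le_sum
            (f := fun t => (1 - av G t w) * x w) (fun t _ => mul_nonneg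
              (by linarith [av_le_one G t w]) (S.hx0 w)) ht)
          simp only [av_of_not htw]
          ring
      _ ≤ ∑ w ∈ A, ∑ t ∈ T, (1 - av G t w) * x w :=
          Finset.sum_le_sum_of_subset_of_nonneg (Finset.filter_subset _ _)
            (fun w _ _ => Finset.sum_nonneg fun t _ => mul_nonneg
              (by linarith [av_le_one G t w]) (S.hx0 w))
      _ = ∑ t ∈ T, ∑ w ∈ A, (1 - av G t w) * x w := Finset.sum_comm
      _ ≤ ∑ t ∈ T, (2 * cst k + 77 * (k : ℝ) ^ 2) :=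
          Finset.sum_le_sum fun t ht => S.missing_le hNP hF hl hB P (hTL ht)
      _ = k * (2 * cst k + 77 * (k : ℝ) ^ 2) := by
          rw [Finset.sum_const, nsmul_eq_mul, hTk]
  have h3 : ∑ w ∈ R, x w ≤ R.card := by
    calc ∑ w ∈ R, x w ≤ ∑ w ∈ R, (1 : ℝ) := Finset.sum_le_sum fun w _ => S.hx1 w
      _ = R.card := by simp
  have h4 : ∑ w ∈ R, x w + ∑ w ∈ R', x w = l := by
    rw [← S.eig_u]
    exact Finset.sum_filter_add_sum_filter_not A _ x
  have h5 : (R.card : ℝ) ≤ k := by exact_mod_cast h1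
  linarith

lemma card_L_eq (S : Setup G k x u l A B) (hNP : NoPath G A (2 * k + 1))
    (hF : F G k x l A ≤ (k : ℝ) ^ 2) (hl : 616 * (k : ℝ) ^ 2 ≤ l)
    (hl2 : k * (2 * cst k + 77 * (k : ℝ) ^ 2) + k < l)
    (hB : ∑ w ∈ B, x w ≤ 76 * (k : ℝ) ^ 2) {L D : Finset V} (P : Split G k x l A L D) :
    L.card = k - 1 := by
  have h0 := S.card_L_lt hNP hF hl hl2 hB P
  by_contra hcon
  have h1 : L.card + 2 ≤ k := by omega
  have h1' : (L.card : ℝ) + 2 ≤ k := by exact_mod_cast h1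
  have hk := S.k_ge
  have hc := cst_nonneg k
  have h2 := S.defect_le hNP hF P
  have h3 : 0 ≤ ∑ v ∈ L, (∑ w ∈ D, av G v w) * (1 - x v) :=
    Finset.sum_nonneg fun v _ => mul_nonneg (Finset.sum_nonneg fun z _ => av_nonneg G v z)
        (by linarith [S.hx1 v])
  have h4 : ∑ w ∈ D, x w ≤ ∑ w ∈ D, max ((k : ℝ) - 1 - ∑ v ∈ L, av G w v) 0 * x w := by
    refine Finset.sum_le_sum fun w _ => ?_
    have h5 : ∑ v ∈ L, av G w v ≤ L.card := by
      calc ∑ v ∈ L, av G w v ≤ ∑ v ∈ L, (1 : ℝ) := Finset.sum_le_sum fun v _ => av_le_one G w v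
        _ = L.card := by simp
    have h6 : (1 : ℝ) ≤ max ((k : ℝ) - 1 - ∑ v ∈ L, av G w v) 0 :=
      le_trans (by linarith) (le_max_left _ _)
    nlinarith [S.hx0 w]
  have h7 : ∑ w ∈ L, x w ≤ L.card := by
    calc ∑ w ∈ L, x w ≤ ∑ w ∈ L, (1 : ℝ) := Finset.sum_le_sum fun w _ => S.hx1 w
      _ = L.card := by simp
  have h8 : ∑ w ∈ L, x w + ∑ w ∈ D, x w = l := by rw [← P.hs, S.eig_u]
  have h9 : cst k ≤ k * (2 * cst k) := by nlinarith
  nlinarith

end Setup

end Pool.Agent.BHTri
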