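import Pool.Agent.BHTri.Core3

set_option autoImplicit false
set_option linter.unusedSectionVars false

namespace Pool.Agent.BHTri

open Finset

variable {V : Type*} [Fintype V] [DecidableEq V]

namespace Setup

variable {G : SimpleGraph V} {k : ℕ} {x : V → ℝ} {u : V} {l : ℝ} {A B : Finset V}

lemma F_formula2 (S : Setup G k x u l A B) {L D : Finset V} (P : Split G k x l A L D)
    (hLk : L.card = k - 1) :
    F G k x l A = (k : ℝ) * (k - 1)
      + ∑ v ∈ L, ∑ w ∈ L.erase v, (1 - av G v w)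
      + ∑ v ∈ L, (2 * (∑ w ∈ L, av G v w) + 2 * (∑ w ∈ D, av G v w) - 2 * ((k : ℝ) - 1)) *
          (1 - x v)
      + 2 * ∑ w ∈ D, (∑ v ∈ L, (1 - av G w v)) * x w
      + ∑ v ∈ D, ∑ w ∈ D, av G v w * (1 - x v - x w) := by
  have hk := S.hk
  have hLc : (L.card : ℝ) = (k : ℝ) - 1 := by
    rw [hLk, Nat.cast_sub (by omega)]
    simp
  have h0 := S.F_formula L D P.hs
  have e1 : ∑ v ∈ L, ∑ w ∈ L, av G v w * (x v + x w - 1) =
      ∑ v ∈ L, ∑ w ∈ L, av G v w - 2 * ∑ v ∈ L, (∑ w ∈ L, av G v w) * (1 - x v) := by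
    have e2 : ∑ v ∈ L, (∑ w ∈ L, av G v w) * (1 - x v) =
        ∑ v ∈ L, ∑ w ∈ L, av G v w * (1 - x v) :=
      Finset.sum_congr rfl fun v _ => by rw [Finset.sum_mul]
    have e3 : ∑ v ∈ L, ∑ w ∈ L, av G v w * (1 - x w) =
        ∑ v ∈ L, ∑ w ∈ L, av G v w * (1 - x v) := by
      rw [Finset.sum_comm]
      exact Finset.sum_congr rfl fun v _ => Finset.sum_congr rfl fun w _ => by rw [av_symm]
    have e4 : ∑ v ∈ L, ∑ w ∈ L, av G v w * (x v + x w - 1) =
        ∑ v ∈ L, ∑ w ∈ L, av G v w - ∑ v ∈ L, ∑ w ∈ L, av G v w * (1 - x v) -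
          ∑ v ∈ L, ∑ w ∈ L, av G v w * (1 - x w) := by
      simp only [← Finset.sum_sub_distrib]
      exact Finset.sum_congr rfl fun v _ => Finset.sum_congr rfl fun w _ => by ring
    rw [e4, e3, e2]
    ring
  have e5 : ∑ v ∈ L, ∑ w ∈ L.erase v, (1 - av G v w) =
      ((k : ℝ) - 1) * (k - 2) - ∑ v ∈ L, ∑ w ∈ L, av G v w := by
    have : ∀ v ∈ L, ∑ w ∈ L.erase v, (1 - av G v w) = ((k : ℝ) - 2) - ∑ w ∈ L, av G v w := by
      intro v hv
      have h1 := Finset.sum_erase_add L (fun w => 1 - av G v w) hv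
      simp only [av_self, Finset.sum_sub_distrib, Finset.sum_const, nsmul_eq_mul, mul_one] at h1
      rw [hLc] at h1
      rw [Finset.sum_sub_distrib, Finset.sum_const, nsmul_eq_mul, mul_one]
      linarith
    rw [Finset.sum_congr rfl this, Finset.sum_sub_distrib, Finset.sum_const, nsmul_eq_mul, hLc]
  have e6 : ∑ v ∈ L, x v = ((k : ℝ) - 1) - ∑ v ∈ L, (1 - x v) := by
    rw [Finset.sum_sub_distrib, Finset.sum_const, nsmul_eq_mul, hLc]
    ring
  have e7 : ∑ w ∈ D, (∑ v ∈ L, (1 - av G w v)) * x w =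
      ∑ w ∈ D, ((k : ℝ) - 1 - ∑ v ∈ L, av G w v) * x w := by
    refine Finset.sum_congr rfl fun w _ => ?_
    rw [Finset.sum_sub_distrib, Finset.sum_const, nsmul_eq_mul, hLc, mul_one]
  have e8 : ∑ v ∈ L, (2 * (∑ w ∈ L, av G v w) + 2 * (∑ w ∈ D, av G v w) - 2 * ((k : ℝ) - 1)) *
      (1 - x v) = 2 * ∑ v ∈ L, (∑ w ∈ L, av G v w) * (1 - x v) +
        2 * ∑ v ∈ L, (∑ w ∈ D, av G v w) * (1 - x v) - 2 * ((k : ℝ) - 1) *
          ∑ v ∈ L, (1 - x v) := by
    rw [Finset.mul_sum, Finset.mul_sum, Finset.mul_sum, ← Finset.sum_add_distrib,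
      ← Finset.sum_sub_distrib]
    exact Finset.sum_congr rfl fun v _ => by ring
  rw [h0, e1, e5, e7, e8, e6]
  ring

lemma x_pos_A (S : Setup G k x u l A B) (hl : 0 < l) {v : V} (hv : v ∈ A) : 0 < x v := by
  have h1 := S.eig_A hv
  have h2 : 0 ≤ ∑ w ∈ A, av G v w * x w :=
    Finset.sum_nonneg fun w _ => mul_nonneg (av_nonneg G v w) (S.hx0 w)
  have h3 : 0 ≤ ∑ w ∈ B, av G v w * x w :=
    Finset.sum_nonneg fun w _ => mul_nonneg (av_nonneg G v w) (S.hx0 w)
  by_contra hcon
  have h4 : x v = 0 := le_antisymm (not_lt.mp hcon) (S.hx0 v)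
  rw [h4] at h1
  linarith

omit [Fintype V] [DecidableEq V] in
lemma adj_of_one_sub {v w : V} (h : 1 - av G v w = 0) : G.Adj v w := by
  by_contra hcon
  rw [av_of_not hcon] at h
  norm_num at h

/-- The structure of the graphs with small defect. -/
theorem core (S : Setup G k x u l A B) (hNP : NoPath G A (2 * k + 1))
    (hfree : (cTri (2 * k)).Free G ∨ (cTri (2 * k + 1)).Free G)
    (hiso : ∀ v, ∃ w, G.Adj v w)
    (hl : 616 * (k : ℝ) ^ 2 ≤ l) (hl2 : k * (2 * cst k + 77 * (k : ℝ) ^ 2) + k < l)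
    (hFQ : F G k x l A + Q G x A B ≤ (k : ℝ) * (k - 1)) :
    F G k x l A + Q G x A B = (k : ℝ) * (k - 1) ∧
      ∃ C : Finset V, C.card = k ∧ (∀ v ∈ C, ∀ w, v ≠ w → G.Adj v w) ∧
        (∀ v ∉ C, ∀ w ∉ C, ¬ G.Adj v w) := by
  have hk := S.k_ge
  have hkk := S.hk
  have hlpos : 0 < l := by nlinarith
  have hQ0 := S.Q_nonneg
  have hF0 : F G k x l A ≤ (k : ℝ) * (k - 1) := by linarith
  have hF : F G k x l A ≤ (k : ℝ) ^ 2 := by nlinarith
  have hQ := S.Q_le hNP (by nlinarith) (by nlinarith)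
  have hB := S.sum_B_le hNP hfree (by nlinarith) hF hQ
  -- the two parts
  set L := A.filter (fun v => 1 / 2 < x v) with hLdef
  set D := A.filter (fun v => ¬ 1 / 2 < x v) with hDdef
  have P : Split G k x l A L D :=
    { hs := fun f => (Finset.sum_filter_add_sum_filter_not A _ f).symm
      hLA := Finset.filter_subset _ _
      hDA := Finset.filter_subset _ _
      hLD := Finset.disjoint_filter_filter_not A A _
      hxL := fun v hv => (Finset.mem_filter.mp hv).2
      hxD := fun v hv => not_lt.mp (Finset.mem_filter.mp hv).2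
      hcard := S.heavy_card hNP hl hB }
  have hAmem : ∀ v, v ∈ A ↔ v ∈ L ∨ v ∈ D := by
    intro v
    constructor
    · intro hv
      by_cases h : 1 / 2 < x v
      · exact Or.inl (Finset.mem_filter.mpr ⟨hv, h⟩)
      · exact Or.inr (Finset.mem_filter.mpr ⟨hv, h⟩)
    · rintro (hv | hv)
      · exact P.hLA hv
      · exact P.hDA hv
  clear_value L D
  have hLk := S.card_L_eq hNP hF hl hl2 hB P
  have hLc : (L.card : ℝ) = (k : ℝ) - 1 := by
    rw [hLk, Nat.cast_sub (by omega)]
    simp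
  have hform := S.F_formula2 P hLk
  have hco : ∀ v ∈ L, 0 < 2 * (∑ w ∈ L, av G v w) + 2 * (∑ w ∈ D, av G v w) -
      2 * ((k : ℝ) - 1) := by
    intro v hv
    have h1 := S.dD_ge hl hB P hv
    have h2 : 0 ≤ ∑ w ∈ L, av G v w := Finset.sum_nonneg fun w _ => av_nonneg G v w
    nlinarith
  have n1 : ∀ v ∈ L, 0 ≤ ∑ w ∈ L.erase v, (1 - av G v w) := fun v _ =>
    Finset.sum_nonneg fun w _ => by linarith [av_le_one G v w]
  have n2 : ∀ v ∈ L, 0 ≤ (2 * (∑ w ∈ L, av G v w) + 2 * (∑ w ∈ D, av G v w) -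
      2 * ((k : ℝ) - 1)) * (1 - x v) := fun v hv =>
    mul_nonneg (hco v hv).le (by linarith [S.hx1 v])
  have n3 : ∀ w ∈ D, 0 ≤ (∑ v ∈ L, (1 - av G w v)) * x w := fun w _ =>
    mul_nonneg (Finset.sum_nonneg fun v _ => by linarith [av_le_one G w v]) (S.hx0 w)
  have n4 : ∀ v ∈ D, 0 ≤ ∑ w ∈ D, av G v w * (1 - x v - x w) := fun v hv =>
    Finset.sum_nonneg fun w hw => mul_nonneg (av_nonneg G v w)
      (by linarith [P.hxD v hv, P.hxD w hw])
  have m1 := Finset.sum_nonneg n1
  have m2 := Finset.sum_nonneg n2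
  have m3 := Finset.sum_nonneg n3
  have m4 := Finset.sum_nonneg n4
  have z1 : ∑ v ∈ L, ∑ w ∈ L.erase v, (1 - av G v w) = 0 := by linarith
  have z2 : ∑ v ∈ L, (2 * (∑ w ∈ L, av G v w) + 2 * (∑ w ∈ D, av G v w) -
      2 * ((k : ℝ) - 1)) * (1 - x v) = 0 := by linarith
  have z3 : ∑ w ∈ D, (∑ v ∈ L, (1 - av G w v)) * x w = 0 := by linarith
  have z4 : ∑ v ∈ D, ∑ w ∈ D, av G v w * (1 - x v - x w) = 0 := by linarith
  have z5 : Q G x A B = 0 := by linarith
  have hval : F G k x l A + Q G x A B = (k : ℝ) * (k - 1) := by linarith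
  refine ⟨hval, ?_⟩
  -- consequences
  have cLL : ∀ v ∈ L, ∀ w ∈ L, v ≠ w → G.Adj v w := by
    intro v hv w hw hvw
    have h1 := (Finset.sum_eq_zero_iff_of_nonneg n1).mp z1 v hv
    have h2 := (Finset.sum_eq_zero_iff_of_nonneg
      (fun w _ => by linarith [av_le_one G v w])).mp h1 w (Finset.mem_erase.mpr ⟨hvw.symm, hw⟩)
    exact adj_of_one_sub h2
  have cDL : ∀ w ∈ D, ∀ v ∈ L, G.Adj w v := by
    intro w hw v hv
    have h1 := (Finset.sum_eq_zero_iff_of_nonneg n3).mp z3 w hw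
    have hx := S.x_pos_A hlpos (P.hDA hw)
    have h2 : ∑ v ∈ L, (1 - av G w v) = 0 := by
      rcases mul_eq_zero.mp h1 with h | h
      · exact h
      · exact absurd h hx.ne'
    have h3 := (Finset.sum_eq_zero_iff_of_nonneg
      (fun v _ => by linarith [av_le_one G w v])).mp h2 v hv
    exact adj_of_one_sub h3
  have cDD : ∀ v ∈ D, ∀ w ∈ D, ¬ G.Adj v w := by
    intro v hv w hw hvw
    have h1 := (Finset.sum_eq_zero_iff_of_nonneg n4).mp z4 v hv
    have h2 := (Finset.sum_eq_zero_iff_of_nonneg (fun w hw => mul_nonneg (av_nonneg G v w)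
      (by linarith [P.hxD v hv, P.hxD w hw]))).mp h1 w hw
    rw [av_of_adj hvw, one_mul] at h2
    have hxv : x v = 1 / 2 := by linarith [P.hxD v hv, P.hxD w hw]
    -- neighbours of v in D
    classical
    set R := D.filter (fun w => G.Adj v w) with hR
    have hvL : v ∉ L := fun h => Finset.disjoint_left.mp P.hLD h hv
    have hRk : R.card ≤ k := by
      refine card_le_of_complete G A hNP (insert v L) R
        (Finset.insert_subset (P.hDA hv) P.hLA)
        ((Finset.filter_subset _ _).trans P.hDA) ?_ ?_ ?_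
      · rw [Finset.disjoint_left]
        intro t ht htR
        obtain ⟨htD, htv⟩ := Finset.mem_filter.mp htR
        rcases Finset.mem_insert.mp ht with h | h
        · rw [h] at htv
          exact G.loopless.irrefl v htv
        · exact Finset.disjoint_left.mp P.hLD h htD
      · rw [Finset.card_insert_of_notMem hvL, hLk]
        omega
      · intro t ht r hr
        obtain ⟨hrD, hrv⟩ := Finset.mem_filter.mp hr
        rcases Finset.mem_insert.mp ht with h | h
        · rw [h]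
          exact hrv
        · exact (cDL r hrD t h).symm
    have h3 := S.heavy_sum hB (P.hDA hv)
    rw [P.hs, hxv] at h3
    have h4 : ∑ w ∈ L, av G v w * x w ≤ L.card := by
      calc ∑ w ∈ L, av G v w * x w ≤ ∑ w ∈ L, (1 : ℝ) := by
            refine Finset.sum_le_sum fun w _ => ?_
            nlinarith [av_nonneg G v w, av_le_one G v w, S.hx1 w, S.hx0 w]
        _ = L.card := by simp
    have h5 : ∑ w ∈ D, av G v w * x w ≤ R.card := by
      calc ∑ w ∈ D, av G v w * x w ≤ ∑ w ∈ D, (if G.Adj v w then (1 : ℝ) else 0) := by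
            refine Finset.sum_le_sum fun w _ => ?_
            by_cases h : G.Adj v w
            · rw [if_pos h, av_of_adj h]
              linarith [S.hx1 w]
            · rw [if_neg h, av_of_not h]
              linarith
        _ = R.card := by rw [← Finset.sum_filter]; simp [hR]
    have h6 : (R.card : ℝ) ≤ k := by exact_mod_cast hRk
    nlinarith
  -- the outside
  have q1 : 0 ≤ ∑ v ∈ A, ∑ w ∈ B, av G v w * (1 - x w) :=
    Finset.sum_nonneg fun v _ => Finset.sum_nonneg fun w _ =>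
      mul_nonneg (av_nonneg G v w) (by linarith [S.hx1 w])
  have q2 : 0 ≤ ∑ v ∈ B, ∑ w ∈ B, av G v w :=
    Finset.sum_nonneg fun v _ => Finset.sum_nonneg fun w _ => av_nonneg G v w
  have y1 : ∑ v ∈ A, ∑ w ∈ B, av G v w * (1 - x w) = 0 := by
    unfold Q at z5
    linarith
  have y2 : ∑ v ∈ B, ∑ w ∈ B, av G v w = 0 := by
    unfold Q at z5
    linarith
  have cBB : ∀ v ∈ B, ∀ w ∈ B, ¬ G.Adj v w := by
    intro v hv w hw hvw
    have h1 := (Finset.sum_eq_zero_iff_of_nonneg (fun v _ => Finset.sum_nonneg fun w _ =>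
      av_nonneg G v w)).mp y2 v hv
    have h2 := (Finset.sum_eq_zero_iff_of_nonneg (fun w _ => av_nonneg G v w)).mp h1 w hw
    rw [av_of_adj hvw] at h2
    norm_num at h2
  have cBempty : ∀ w, w ∉ B := by
    intro w hw
    obtain ⟨v, hwv⟩ := hiso w
    have hvA : v ∈ A := by
      by_contra hvA
      by_cases hvu : v = u
      · rw [hvu] at hwv
        exact ((S.hB w).mp hw).2 hwv.symm
      · exact cBB w hw v ((S.hB v).mpr ⟨hvu, fun h => hvA ((S.hA v).mpr h)⟩) hwv
    have h1 := (Finset.sum_eq_zero_iff_of_nonneg (fun v _ => Finset.sum_nonneg fun w _ =>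
      mul_nonneg (av_nonneg G v w) (by linarith [S.hx1 w]))).mp y1 v hvA
    have h2 := (Finset.sum_eq_zero_iff_of_nonneg (fun w _ =>
      mul_nonneg (av_nonneg G v w) (by linarith [S.hx1 w]))).mp h1 w hw
    rw [av_of_adj hwv.symm, one_mul] at h2
    have hxw : x w = 1 := by linarith
    have h3 := S.eig_B hw
    have h4 : ∑ v ∈ B, av G w v * x v = 0 := by
      refine Finset.sum_eq_zero fun v hv => ?_
      rw [av_of_not (cBB w hw v hv), zero_mul]
    have h5 : ∑ v ∈ A, (1 - av G w v) * x v = 0 := by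
      have : ∑ v ∈ A, (1 - av G w v) * x v = ∑ v ∈ A, x v - ∑ v ∈ A, av G w v * x v := by
        rw [← Finset.sum_sub_distrib]
        exact Finset.sum_congr rfl fun v _ => by ring
      rw [this, S.eig_u]
      rw [hxw, h4] at h3
      linarith
    have h6 : ∀ v ∈ A, G.Adj w v := by
      intro v hv
      have h7 := (Finset.sum_eq_zero_iff_of_nonneg (fun v _ =>
        mul_nonneg (by linarith [av_le_one G w v]) (S.hx0 v))).mp h5 v hv
      rcases mul_eq_zero.mp h7 with h | h
      · exact adj_of_one_sub h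
      · exact absurd h (S.x_pos_A hlpos hv).ne'
    have hDc : k + 1 ≤ D.card := by
      have h8 : ∑ w ∈ L, x w ≤ L.card := by
        calc ∑ w ∈ L, x w ≤ ∑ w ∈ L, (1 : ℝ) := Finset.sum_le_sum fun w _ => S.hx1 w
          _ = L.card := by simp
      have h9 : ∑ w ∈ D, x w ≤ D.card := by
        calc ∑ w ∈ D, x w ≤ ∑ w ∈ D, (1 : ℝ) := Finset.sum_le_sum fun w _ => S.hx1 w
          _ = D.card := by simp
      have h10 : ∑ w ∈ L, x w + ∑ w ∈ D, x w = l := by rw [← P.hs, S.eig_u]
      have h11 : (k : ℝ) + 1 ≤ D.card := by nlinarith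
      exact_mod_cast h11
    have huA : u ∉ A := fun h => G.loopless.irrefl u ((S.hA u).mp h)
    have hwA : w ∉ A := fun h => ((S.hB w).mp hw).2 ((S.hA w).mp h)
    have hlast := last_contra G hkk u w L D hLk hDc ((S.hB w).mp hw).1.symm
      ⟨fun h => huA (P.hLA h), fun h => huA (P.hDA h)⟩
      ⟨fun h => hwA (P.hLA h), fun h => hwA (P.hDA h)⟩ P.hLD
      (fun v hv => (S.hA v).mp ((hAmem v).mpr (Finset.mem_union.mp hv)))
      (fun v hv => h6 v ((hAmem v).mpr (Finset.mem_union.mp hv)))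
      (fun v hv d hd => (cDL d hd v hv).symm)
    rcases hfree with h | h
    · exact hlast.1 h
    · exact hlast.2 h
  have huA : u ∉ A := fun h => G.loopless.irrefl u ((S.hA u).mp h)
  have huL : u ∉ L := fun h => huA (P.hLA h)
  have hall : ∀ v, v = u ∨ v ∈ A := by
    intro v
    by_contra hcon
    push Not at hcon
    exact cBempty v ((S.hB v).mpr ⟨hcon.1, fun h => hcon.2 ((S.hA v).mpr h)⟩)
  refine ⟨insert u L, ?_, ?_, ?_⟩
  · rw [Finset.card_insert_of_notMem huL, hLk]
    omega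
  · intro v hv w hvw
    rcases Finset.mem_insert.mp hv with h | h
    · rw [h]
      rcases hall w with h' | h'
      · exact absurd (h.trans h'.symm) hvw
      · exact (S.hA w).mp h'
    · rcases hall w with h' | h'
      · rw [h']
        exact ((S.hA v).mp (P.hLA h)).symm
      · rcases (hAmem w).mp h' with h'' | h''
        · exact cLL v h w h'' hvw
        · exact (cDL w h'' v h).symm
  · intro v hv w hw
    have hD : ∀ v, v ∉ insert u L → v ∈ D := by
      intro v hv
      rcases hall v with h | h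
      · exact absurd (Finset.mem_insert.mpr (Or.inl h)) hv
      · rcases (hAmem v).mp h with h' | h'
        · exact absurd (Finset.mem_insert.mpr (Or.inr h')) hv
        · exact h'
    exact cDD v (hD v hv) w (hD w hw)

end Setup

end Pool.Agent.BHTri
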