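import Pool.Agent.BHTri.Core4

set_option autoImplicit false
set_option linter.unusedSectionVars false

namespace Pool.Agent.BHTri

open Finset

variable {V : Type*} [Fintype V] [DecidableEq V]

namespace Setup

variable {G : SimpleGraph V} {k : ℕ} {x : V → ℝ} {u : V} {l : ℝ} {A B : Finset V}

/-- All the defects are small. -/
structure Small (G : SimpleGraph V) (k : ℕ) (x : V → ℝ) (A B L D : Finset V) : Prop where
  t1 : ∑ v ∈ L, ∑ w ∈ L.erase v, (1 - av G v w) ≤ k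
  t2 : ∑ v ∈ L, (2 * (∑ w ∈ L, av G v w) + 2 * (∑ w ∈ D, av G v w) - 2 * ((k : ℝ) - 1)) *
    (1 - x v) ≤ k
  t3 : 2 * ∑ w ∈ D, (∑ v ∈ L, (1 - av G w v)) * x w ≤ k
  t4 : ∑ v ∈ D, ∑ w ∈ D, av G v w * (1 - x v - x w) ≤ k
  t5 : Q G x A B ≤ k

lemma coef_pos (S : Setup G k x u l A B) (hl : 616 * (k : ℝ) ^ 2 ≤ l)
    (hB : ∑ w ∈ B, x w ≤ 76 * (k : ℝ) ^ 2) {L D : Finset V} (P : Split G k x l A L D) :
    ∀ v ∈ L, 0 < 2 * (∑ w ∈ L, av G v w) + 2 * (∑ w ∈ D, av G v w) - 2 * ((k : ℝ) - 1) := by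
  intro v hv
  have hk := S.k_ge
  have h1 := S.dD_ge hl hB P hv
  have h2 : 0 ≤ ∑ w ∈ L, av G v w := Finset.sum_nonneg fun w _ => av_nonneg G v w
  nlinarith

lemma small (S : Setup G k x u l A B) (hl : 616 * (k : ℝ) ^ 2 ≤ l)
    (hB : ∑ w ∈ B, x w ≤ 76 * (k : ℝ) ^ 2) {L D : Finset V} (P : Split G k x l A L D)
    (hLk : L.card = k - 1) (hFQ : F G k x l A + Q G x A B ≤ (k : ℝ) * (k - 1) + k) :
    Small G k x A B L D ∧ (k : ℝ) * (k - 1) ≤ F G k x l A := by
  have hform := S.F_formula2 P hLk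
  have hco := S.coef_pos hl hB P
  have m1 : 0 ≤ ∑ v ∈ L, ∑ w ∈ L.erase v, (1 - av G v w) := Finset.sum_nonneg fun v _ =>
    Finset.sum_nonneg fun w _ => by linarith [av_le_one G v w]
  have m2 : 0 ≤ ∑ v ∈ L, (2 * (∑ w ∈ L, av G v w) + 2 * (∑ w ∈ D, av G v w) -
      2 * ((k : ℝ) - 1)) * (1 - x v) := Finset.sum_nonneg fun v hv =>
    mul_nonneg (hco v hv).le (by linarith [S.hx1 v])
  have m3 : 0 ≤ ∑ w ∈ D, (∑ v ∈ L, (1 - av G w v)) * x w := Finset.sum_nonneg fun w _ =>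
    mul_nonneg (Finset.sum_nonneg fun v _ => by linarith [av_le_one G w v]) (S.hx0 w)
  have m4 : 0 ≤ ∑ v ∈ D, ∑ w ∈ D, av G v w * (1 - x v - x w) := Finset.sum_nonneg fun v hv =>
    Finset.sum_nonneg fun w hw => mul_nonneg (av_nonneg G v w)
      (by linarith [P.hxD v hv, P.hxD w hw])
  have m5 := S.Q_nonneg
  exact ⟨⟨by linarith, by linarith, by linarith, by linarith, by linarith⟩, by linarith⟩

/-- The vertices of `D` which miss a vertex of `L` have small weight. -/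
lemma incomplete_le (S : Setup G k x u l A B) {L D : Finset V} (T : Small G k x A B L D)
    [DecidablePred fun w => ∀ v ∈ L, G.Adj w v] :
    ∑ w ∈ D.filter (fun w => ¬ ∀ v ∈ L, G.Adj w v), x w ≤ k / 2 := by
  have h1 : ∑ w ∈ D.filter (fun w => ¬ ∀ v ∈ L, G.Adj w v), x w ≤
      ∑ w ∈ D, (∑ v ∈ L, (1 - av G w v)) * x w := by
    refine le_trans (Finset.sum_le_sum (g := fun w => (∑ v ∈ L, (1 - av G w v)) * x w) ?_)
      (Finset.sum_le_sum_of_subset_of_nonneg (Finset.filter_subset _ _) ?_)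
    · intro w hw
      have hw' := (Finset.mem_filter.mp hw).2
      push Not at hw'
      obtain ⟨v, hv, hwv⟩ := hw'
      have h2 : (1 : ℝ) ≤ ∑ v ∈ L, (1 - av G w v) := by
        refine le_trans (le_of_eq ?_) (Finset.single_le_sum (f := fun v => 1 - av G w v)
          (fun v _ => by linarith [av_le_one G w v]) hv)
        simp only [av_of_not hwv]
        ring
      nlinarith [S.hx0 w]
    · intro w _ _
      exact mul_nonneg (Finset.sum_nonneg fun v _ => by linarith [av_le_one G w v]) (S.hx0 w)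
  have h3 := T.t3
  linarith

/-- Sum over the neighbours in `D` of a vertex. -/
lemma sum_D_le (S : Setup G k x u l A B) {L D : Finset V} (T : Small G k x A B L D) (w : V)
    [DecidablePred fun w => ∀ v ∈ L, G.Adj w v] [DecidableRel G.Adj] :
    ∑ v ∈ D, av G w v * x v ≤
      (((D.filter (fun w => ∀ v ∈ L, G.Adj w v)).filter (fun v => G.Adj w v)).card : ℝ) + k / 2 := by
  have h1 := S.incomplete_le T
  rw [← Finset.sum_filter_add_sum_filter_not D (fun w => ∀ v ∈ L, G.Adj w v)]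
  refine add_le_add ?_ (le_trans (Finset.sum_le_sum fun v _ => ?_) h1)
  · rw [Finset.card_filter]
    push_cast
    refine Finset.sum_le_sum fun v _ => ?_
    by_cases h : G.Adj w v
    · rw [if_pos h, av_of_adj h]
      linarith [S.hx1 v]
    · rw [if_neg h, av_of_not h]
      linarith
  · nlinarith [av_le_one G w v, S.hx0 v, av_nonneg G w v]

lemma sum_L_le (S : Setup G k x u l A B) (L : Finset V) (w : V) :
    ∑ v ∈ L, av G w v * x v ≤ L.card := by
  calc ∑ v ∈ L, av G w v * x v ≤ ∑ v ∈ L, (1 : ℝ) := by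
        refine Finset.sum_le_sum fun v _ => ?_
        nlinarith [av_nonneg G w v, av_le_one G w v, S.hx1 v, S.hx0 v]
    _ = L.card := by simp

/-- (a) the entries in `D` -/
lemma xD_le (S : Setup G k x u l A B) (hNP : NoPath G A (2 * k + 1))
    (hB : ∑ w ∈ B, x w ≤ 76 * (k : ℝ) ^ 2) {L D : Finset V} (P : Split G k x l A L D)
    (hLk : L.card = k - 1) (T : Small G k x A B L D) {w : V} (hw : w ∈ D) :
    l * x w ≤ 80 * (k : ℝ) ^ 2 := by
  classical
  have hk := S.k_ge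
  have hkk := S.hk
  have hLc : (L.card : ℝ) = (k : ℝ) - 1 := by
    rw [hLk, Nat.cast_sub (by omega)]
    simp
  have h1 := S.heavy_sum hB (P.hDA hw)
  rw [P.hs] at h1
  have h2 := S.sum_L_le L w
  have h3 := S.sum_D_le T w
  have hwL : w ∉ L := fun h => Finset.disjoint_left.mp P.hLD h hw
  have h4 : ((D.filter (fun w => ∀ v ∈ L, G.Adj w v)).filter (fun v => G.Adj w v)).card ≤ k := by
    refine card_le_of_complete G A hNP (insert w L) _
      (Finset.insert_subset (P.hDA hw) P.hLA)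
      ((Finset.filter_subset _ _).trans ((Finset.filter_subset _ _).trans P.hDA)) ?_ ?_ ?_
    · rw [Finset.disjoint_left]
      intro t ht htR
      obtain ⟨htD, htv⟩ := Finset.mem_filter.mp htR
      rcases Finset.mem_insert.mp ht with h | h
      · rw [h] at htv
        exact G.loopless.irrefl w htv
      · exact Finset.disjoint_left.mp P.hLD h (Finset.mem_filter.mp htD).1
    · rw [Finset.card_insert_of_notMem hwL, hLk]
      omega
    · intro t ht r hr
      obtain ⟨hrD, hrv⟩ := Finset.mem_filter.mp hr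
      rcases Finset.mem_insert.mp ht with h | h
      · rw [h]
        exact hrv
      · exact ((Finset.mem_filter.mp hrD).2 t h).symm
  have h5 : (((D.filter (fun w => ∀ v ∈ L, G.Adj w v)).filter
      (fun v => G.Adj w v)).card : ℝ) ≤ k := by exact_mod_cast h4
  nlinarith

/-- (b) the entries in `B` are not large -/
lemma xB_half (S : Setup G k x u l A B)
    (hfree : (cTri (2 * k)).Free G ∨ (cTri (2 * k + 1)).Free G)
    (hl : 616 * (k : ℝ) ^ 2 ≤ l)
    (hB : ∑ w ∈ B, x w ≤ 76 * (k : ℝ) ^ 2) {L D : Finset V} (P : Split G k x l A L D)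
    (hLk : L.card = k - 1) (T : Small G k x A B L D) {w : V} (hw : w ∈ B) : x w ≤ 1 / 2 := by
  classical
  by_contra hcon
  push Not at hcon
  have hk := S.k_ge
  have hkk := S.hk
  have hlpos : 0 < l := by nlinarith
  have hLc : (L.card : ℝ) = (k : ℝ) - 1 := by
    rw [hLk, Nat.cast_sub (by omega)]
    simp
  have h1 := S.eig_B hw
  rw [P.hs] at h1
  have h2 := S.sum_L_le L w
  have h3 := S.sum_D_le T w
  have h4 : ∑ v ∈ B, av G w v * x v ≤ ∑ v ∈ B, x v := Finset.sum_le_sum fun v _ => by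
    nlinarith [av_le_one G w v, S.hx0 v]
  have h5 : l * (1 / 2) < l * x w := mul_lt_mul_of_pos_left hcon hlpos
  have h6 : (k : ℝ) + 1 ≤ (((D.filter (fun w => ∀ v ∈ L, G.Adj w v)).filter
      (fun v => G.Adj w v)).card : ℝ) := by nlinarith
  have h7 : k + 1 ≤ ((D.filter (fun w => ∀ v ∈ L, G.Adj w v)).filter
      (fun v => G.Adj w v)).card := by exact_mod_cast h6
  set R := (D.filter (fun w => ∀ v ∈ L, G.Adj w v)).filter (fun v => G.Adj w v) with hR
  have hRD : R ⊆ D := (Finset.filter_subset _ _).trans (Finset.filter_subset _ _)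
  have huA : u ∉ A := fun h => G.loopless.irrefl u ((S.hA u).mp h)
  have hwA : w ∉ A := fun h => ((S.hB w).mp hw).2 ((S.hA w).mp h)
  have hlast := last_contra2 G hkk u w L R hLk h7 ((S.hB w).mp hw).1.symm
      ⟨fun h => huA (P.hLA h), fun h => huA (P.hDA (hRD h))⟩
      ⟨fun h => hwA (P.hLA h), fun h => hwA (P.hDA (hRD h))⟩
      (Finset.disjoint_of_subset_right hRD P.hLD)
      (fun v hv => by
        rcases Finset.mem_union.mp hv with h | h
        · exact (S.hA v).mp (P.hLA h)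
        · exact (S.hA v).mp (P.hDA (hRD h)))
      (fun v hv => (Finset.mem_filter.mp hv).2)
      (fun v hv d hd => ((Finset.mem_filter.mp (Finset.mem_filter.mp hd).1).2 v hv).symm)
  rcases hfree with h | h
  · exact hlast.1 h
  · exact hlast.2 h

/-- The numbers of edges which meet `B`. -/
lemma edges_B (S : Setup G k x u l A B) {L D : Finset V} (T : Small G k x A B L D)
    (hxB : ∀ w ∈ B, x w ≤ 1 / 2) :
    ∑ v ∈ A, ∑ w ∈ B, av G v w ≤ k ∧ ∑ v ∈ B, ∑ w ∈ B, av G v w ≤ k := by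
  have h1 := T.t5
  unfold Q at h1
  have h2 : 0 ≤ ∑ v ∈ B, ∑ w ∈ B, av G v w :=
    Finset.sum_nonneg fun v _ => Finset.sum_nonneg fun w _ => av_nonneg G v w
  have h4 : 0 ≤ ∑ v ∈ A, ∑ w ∈ B, av G v w :=
    Finset.sum_nonneg fun v _ => Finset.sum_nonneg fun w _ => av_nonneg G v w
  have h3 : ∑ v ∈ A, ∑ w ∈ B, av G v w ≤ 2 * ∑ v ∈ A, ∑ w ∈ B, av G v w * (1 - x w) := by
    rw [Finset.mul_sum]
    refine Finset.sum_le_sum fun v _ => ?_
    rw [Finset.mul_sum]
    refine Finset.sum_le_sum fun w hw => ?_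
    nlinarith [hxB w hw, av_nonneg G v w]
  exact ⟨by linarith, by linarith⟩

lemma dA_le (S : Setup G k x u l A B) {w : V} (hw : w ∈ B) :
    ∑ v ∈ A, av G w v ≤ ∑ v ∈ A, ∑ w ∈ B, av G v w := by
  rw [Finset.sum_comm]
  refine le_trans (le_of_eq ?_) (Finset.single_le_sum (f := fun w => ∑ v ∈ A, av G v w)
    (fun w _ => Finset.sum_nonneg fun v _ => av_nonneg G v w) hw)
  exact Finset.sum_congr rfl fun v _ => av_symm G w v

/-- (b) the entries in `B` -/
lemma xB_le (S : Setup G k x u l A B) (hB : ∑ w ∈ B, x w ≤ 76 * (k : ℝ) ^ 2) {L D : Finset V}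
    (T : Small G k x A B L D)
    (hxB : ∀ w ∈ B, x w ≤ 1 / 2) {w : V} (hw : w ∈ B) : l * x w ≤ 80 * (k : ℝ) ^ 2 := by
  have hk := S.k_ge
  have h1 := S.eig_B hw
  have h2 : ∑ v ∈ A, av G w v * x v ≤ ∑ v ∈ A, av G w v := Finset.sum_le_sum fun v _ => by
    nlinarith [av_nonneg G w v, S.hx1 v]
  have h3 : ∑ v ∈ B, av G w v * x v ≤ ∑ v ∈ B, x v := Finset.sum_le_sum fun v _ => by
    nlinarith [av_le_one G w v, S.hx0 v]
  have h4 := S.dA_le hw
  have h5 := (S.edges_B T hxB).1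
  nlinarith

/-- (c) the edges inside `D` -/
lemma edges_D (S : Setup G k x u l A B) {L D : Finset V} (T : Small G k x A B L D)
    (hxD : ∀ w ∈ D, x w ≤ 1 / 4) : ∑ v ∈ D, ∑ w ∈ D, av G v w ≤ 2 * k := by
  have h1 := T.t4
  have h2 : ∑ v ∈ D, ∑ w ∈ D, av G v w ≤
      2 * ∑ v ∈ D, ∑ w ∈ D, av G v w * (1 - x v - x w) := by
    rw [Finset.mul_sum]
    refine Finset.sum_le_sum fun v hv => ?_
    rw [Finset.mul_sum]
    refine Finset.sum_le_sum fun w hw => ?_
    nlinarith [hxD w hw, hxD v hv, av_nonneg G v w]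
  linarith

/-- (d) degrees of heavy vertices -/
lemma dD_big (S : Setup G k x u l A B) (hl : 616 * (k : ℝ) ^ 2 ≤ l)
    (hB : ∑ w ∈ B, x w ≤ 76 * (k : ℝ) ^ 2) {L D : Finset V} (P : Split G k x l A L D)
    (hLk : L.card = k - 1) (hxD : ∀ w ∈ D, l * x w ≤ 80 * (k : ℝ) ^ 2) {v : V} (hv : v ∈ L) :
    l ^ 2 ≤ 320 * (k : ℝ) ^ 2 * ∑ w ∈ D, av G v w := by
  have hk := S.k_ge
  have hkk := S.hk
  have hlpos : 0 < l := by nlinarith
  have hLc : (L.card : ℝ) = (k : ℝ) - 1 := by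
    rw [hLk, Nat.cast_sub (by omega)]
    simp
  have h1 := S.heavy_sum hB (P.hLA hv)
  rw [P.hs] at h1
  have h2 := S.sum_L_le L v
  have h3 : l * ∑ w ∈ D, av G v w * x w ≤ 80 * (k : ℝ) ^ 2 * ∑ w ∈ D, av G v w := by
    rw [Finset.mul_sum, Finset.mul_sum]
    refine Finset.sum_le_sum fun w hw => ?_
    nlinarith [hxD w hw, av_nonneg G v w]
  have h4 : l / 4 ≤ ∑ w ∈ D, av G v w * x w := by
    have := P.hxL v hv
    nlinarith
  nlinarith

lemma eps_small (S : Setup G k x u l A B) (hl : 2000 * (k : ℝ) ^ 4 ≤ l)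
    (hB : ∑ w ∈ B, x w ≤ 76 * (k : ℝ) ^ 2) {L D : Finset V} (P : Split G k x l A L D)
    (hLk : L.card = k - 1) (T : Small G k x A B L D)
    (hxD : ∀ w ∈ D, l * x w ≤ 80 * (k : ℝ) ^ 2) {v : V} (hv : v ∈ L) :
    l ^ 2 * (1 - x v) ≤ 320 * (k : ℝ) ^ 3 := by
  have hk := S.k_ge
  have hk2 : (4 : ℝ) ≤ (k : ℝ) ^ 2 := by nlinarith
  have hl1 : 616 * (k : ℝ) ^ 2 ≤ l := by nlinarith
  have hlpos : 0 < l := by nlinarith
  have h1 := S.dD_big hl1 hB P hLk hxD hv
  have h2 : (2 * (∑ w ∈ L, av G v w) + 2 * (∑ w ∈ D, av G v w) - 2 * ((k : ℝ) - 1)) *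
      (1 - x v) ≤ k := by
    refine le_trans ?_ T.t2
    exact Finset.single_le_sum (f := fun v => (2 * (∑ w ∈ L, av G v w) +
      2 * (∑ w ∈ D, av G v w) - 2 * ((k : ℝ) - 1)) * (1 - x v))
      (fun w hw => mul_nonneg (S.coef_pos hl1 hB P w hw).le (by linarith [S.hx1 w])) hv
  have h3 : 0 ≤ ∑ w ∈ L, av G v w := Finset.sum_nonneg fun w _ => av_nonneg G v w
  have h4 : 2 * (k : ℝ) ≤ ∑ w ∈ D, av G v w := by
    have h5 : 320 * (k : ℝ) ^ 2 * (2 * k) ≤ l ^ 2 := by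
      have : 640 * (k : ℝ) ^ 3 ≤ 616 * k ^ 2 * (2000 * k ^ 4) := by
        have h6 : (k : ℝ) ^ 3 ≤ k ^ 6 := pow_le_pow_right₀ (by linarith) (by norm_num)
        nlinarith
      nlinarith
    have h7 : 320 * (k : ℝ) ^ 2 * (2 * k) ≤ 320 * (k : ℝ) ^ 2 * ∑ w ∈ D, av G v w := h5.trans h1
    exact le_of_mul_le_mul_left h7 (by nlinarith)
  have hx := S.hx1 v
  have h8 : (∑ w ∈ D, av G v w) * (1 - x v) ≤ k := by
    refine le_trans (mul_le_mul_of_nonneg_right ?_ (by linarith)) h2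
    linarith
  have h9 : l ^ 2 * (1 - x v) ≤ 320 * (k : ℝ) ^ 2 * (∑ w ∈ D, av G v w) * (1 - x v) :=
    mul_le_mul_of_nonneg_right h1 (by linarith)
  nlinarith

/-- (d) the number of non-neighbours -/
lemma missing_count (S : Setup G k x u l A B) (hl : 2000 * (k : ℝ) ^ 4 ≤ l) {L D : Finset V}
    (P : Split G k x l A L D) (T : Small G k x A B L D)
    (hxB : ∀ w ∈ B, x w ≤ 1 / 2) (hxB' : ∀ w ∈ B, l * x w ≤ 80 * (k : ℝ) ^ 2) {v : V}
    (hv : v ∈ L) (he : l ^ 2 * (1 - x v) ≤ 320 * (k : ℝ) ^ 3) :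
    ∑ w ∈ D, (1 - av G v w) ≤ 720 * (k : ℝ) ^ 3 := by
  have hk := S.k_ge
  have hk2 : (4 : ℝ) ≤ (k : ℝ) ^ 2 := by nlinarith
  have hl1 : 616 * (k : ℝ) ^ 2 ≤ l := by nlinarith
  have hlpos : 1 < l := by nlinarith
  have h1 := S.eig_A (P.hLA hv)
  have h2 : ∑ w ∈ A, (1 - av G v w) * x w = l * (1 - x v) + 1 + ∑ w ∈ B, av G v w * x w := by
    have : ∑ w ∈ A, (1 - av G v w) * x w = ∑ w ∈ A, x w - ∑ w ∈ A, av G v w * x w := by
      rw [← Finset.sum_sub_distrib]
      exact Finset.sum_congr rfl fun w _ => by ring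
    rw [this, S.eig_u]
    linarith
  rw [P.hs] at h2
  have h3 : x v ≤ ∑ w ∈ L, (1 - av G v w) * x w := by
    refine le_trans (le_of_eq ?_) (Finset.single_le_sum (f := fun w => (1 - av G v w) * x w)
      (fun w _ => mul_nonneg (by linarith [av_le_one G v w]) (S.hx0 w)) hv)
    simp only [av_self]
    ring
  have h4 : ∑ w ∈ D, (1 - av G v w) ≤ l * ∑ w ∈ D, (1 - av G v w) * x w := by
    rw [Finset.mul_sum]
    refine Finset.sum_le_sum fun w hw => ?_
    have h5 := S.eig_A (P.hDA hw)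
    have h6 : 0 ≤ ∑ z ∈ A, av G w z * x z :=
      Finset.sum_nonneg fun z _ => mul_nonneg (av_nonneg G w z) (S.hx0 z)
    have h7 : 0 ≤ ∑ z ∈ B, av G w z * x z :=
      Finset.sum_nonneg fun z _ => mul_nonneg (av_nonneg G w z) (S.hx0 z)
    have h8 : 1 ≤ l * x w := by linarith
    nlinarith [av_le_one G v w]
  have h9 : l * ∑ w ∈ B, av G v w * x w ≤ 80 * (k : ℝ) ^ 2 * k := by
    have h10 : l * ∑ w ∈ B, av G v w * x w ≤ 80 * (k : ℝ) ^ 2 * ∑ w ∈ B, av G v w := by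
      rw [Finset.mul_sum, Finset.mul_sum]
      refine Finset.sum_le_sum fun w hw => ?_
      nlinarith [hxB' w hw, av_nonneg G v w]
    have h11 : ∑ w ∈ B, av G v w ≤ k := by
      refine le_trans ?_ (S.edges_B T hxB).1
      exact Finset.single_le_sum (f := fun v => ∑ w ∈ B, av G v w)
        (fun v _ => Finset.sum_nonneg fun w _ => av_nonneg G v w) (P.hLA hv)
    nlinarith
  have h12 : l * (1 - x v) ≤ l ^ 2 * (1 - x v) := by
    have := S.hx1 v
    refine mul_le_mul_of_nonneg_right ?_ (by linarith)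
    nlinarith
  have h13 : ∑ w ∈ D, (1 - av G v w) * x w ≤
      l * (1 - x v) + (1 - x v) + ∑ w ∈ B, av G v w * x w := by linarith
  have h14 : l * ∑ w ∈ D, (1 - av G v w) * x w ≤
      l * (l * (1 - x v) + (1 - x v) + ∑ w ∈ B, av G v w * x w) :=
    mul_le_mul_of_nonneg_left h13 (by linarith)
  nlinarith

end Setup

end Pool.Agent.BHTri
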