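import Pool.Agent.BHTri.Defs

set_option autoImplicit false

/-!
# The extremal graph
-/

namespace Pool.Agent.BHTri

variable {V : Type*}

namespace Ext_

/-- eigenvalues are at most the largest eigenvalue -/
theorem le_lam [Fintype V] (G : SimpleGraph V) (μ : ℝ) (x : V → ℝ) (hx : x ≠ 0)
    (h : ∀ v, ∑ w, av G v w * x w = μ * x v) : μ ≤ lam G := by
  classical
  unfold lam
  apply le_csSup
  · refine ⟨(Fintype.card V : ℝ), ?_⟩
    rintro ν ⟨y, hy, hν⟩
    obtain ⟨v₀, hv₀⟩ : ∃ v, y v ≠ 0 := by
      by_contra hcon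
      push Not at hcon
      exact hy (funext hcon)
    obtain ⟨v, -, hv⟩ := Finset.exists_max_image Finset.univ (fun v => |y v|)
      ⟨v₀, Finset.mem_univ v₀⟩
    have hpos : 0 < |y v| := lt_of_lt_of_le (abs_pos.mpr hv₀) (hv v₀ (Finset.mem_univ _))
    have h1 : ν * y v = ∑ w, (if G.Adj v w then y w else 0) := by
      have h2 := congrFun hν v
      rw [Pi.smul_apply, smul_eq_mul] at h2
      rw [← h2]
      simp only [Matrix.mulVec, dotProduct, SimpleGraph.adjMatrix_apply, ite_mul, one_mul,
        zero_mul]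
    have h3 : |ν| * |y v| ≤ Fintype.card V * |y v| := by
      rw [← abs_mul, h1]
      calc |∑ w, (if G.Adj v w then y w else 0)| ≤ ∑ w, |if G.Adj v w then y w else 0| :=
            Finset.abs_sum_le_sum_abs _ _
        _ ≤ ∑ w : V, |y v| := by
            refine Finset.sum_le_sum fun w _ => ?_
            split_ifs
            · exact hv w (Finset.mem_univ w)
            · rw [abs_zero]
              exact abs_nonneg _
        _ = Fintype.card V * |y v| := by
            rw [Finset.sum_const, Finset.card_univ, nsmul_eq_mul]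
    exact (le_abs_self ν).trans (le_of_mul_le_mul_right h3 hpos)
  · refine ⟨x, hx, ?_⟩
    funext v
    rw [Pi.smul_apply, smul_eq_mul, ← h v]
    simp only [Matrix.mulVec, dotProduct, SimpleGraph.adjMatrix_apply, av]

theorem sum_ne (k : ℕ) (i : Fin k) (c : ℝ) :
    ∑ j : Fin k, (if i ≠ j then c else 0) = ((k : ℝ) - 1) * c := by
  have h : ∀ j : Fin k, (if i ≠ j then c else 0) = c - if i = j then c else 0 := by
    intro j
    by_cases hij : i = j <;> simp [hij]
  simp only [h, Finset.sum_sub_distrib, Finset.sum_const, Finset.card_univ, Fintype.card_fin,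
    nsmul_eq_mul, Finset.sum_ite_eq, Finset.mem_univ, if_true]
  ring

open scoped Classical in
/-- row sums for the join -/
theorem row_left (k t : ℕ) (i : Fin k) (a b : ℝ) :
    ∑ s : Fin k ⊕ Fin t, (if (joinKI k t).Adj (Sum.inl i) s then Sum.elim (fun _ => a)
      (fun _ => b) s else 0) = ((k : ℝ) - 1) * a + t * b := by
  rw [Fintype.sum_sum_type, ← sum_ne k i a]
  congr 1
  · refine Finset.sum_congr rfl fun j _ => ?_
    by_cases hij : i = j <;> simp [joinKI, hij]
  · simp [joinKI]

open scoped Classical in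
theorem row_right (k t : ℕ) (i : Fin t) (a b : ℝ) :
    ∑ s : Fin k ⊕ Fin t, (if (joinKI k t).Adj (Sum.inr i) s then Sum.elim (fun _ => a)
      (fun _ => b) s else 0) = k * a := by
  rw [Fintype.sum_sum_type]
  simp [joinKI]

end Ext_

/-- counting edges -/
theorem two_mul_edges [Fintype V] (G : SimpleGraph V) :
    2 * (G.edgeSet.ncard : ℝ) = ∑ v, ∑ w, av G v w := by
  classical
  have h1 := G.sum_degrees_eq_twice_card_edges
  have h2 : G.edgeSet.ncard = G.edgeFinset.card := by
    rw [Set.ncard_eq_toFinset_card', SimpleGraph.edgeFinset]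
  have h3 : ∀ v, ∑ w, av G v w = (G.degree v : ℝ) := by
    intro v
    simp only [av, Finset.sum_boole]
    rw [← SimpleGraph.card_neighborFinset_eq_degree]
    congr 2
    ext w
    simp
  simp only [h3]
  rw [h2]
  exact_mod_cast h1.symm

/-- recognising the join -/
theorem iso_of_structure [Fintype V] [DecidableEq V] (G : SimpleGraph V) {k : ℕ} (C : Finset V)
    (hC : C.card = k) (h1 : ∀ v ∈ C, ∀ w, v ≠ w → G.Adj v w)
    (h2 : ∀ v ∉ C, ∀ w ∉ C, ¬ G.Adj v w) :
    ∃ t : ℕ, G.edgeSet.ncard = k.choose 2 + k * t ∧ Nonempty (G ≃g joinKI k t) := by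
  classical
  set t := Fintype.card {x // x ∉ C} with ht
  have hadj : ∀ v w, G.Adj v w ↔ v ≠ w ∧ (v ∈ C ∨ w ∈ C) := by
    intro v w
    constructor
    · intro h
      refine ⟨h.ne, ?_⟩
      by_contra hcon
      push Not at hcon
      exact h2 v hcon.1 w hcon.2 h
    · rintro ⟨hne, h | h⟩
      · exact h1 v h w hne
      · exact (h1 w h v hne.symm).symm
  let eC : {x // x ∈ C} ≃ Fin k := Fintype.equivFinOfCardEq (by rw [Fintype.card_coe, hC])
  let eD : {x // x ∉ C} ≃ Fin t := Fintype.equivFinOfCardEq rfl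
  let e : V ≃ Fin k ⊕ Fin t :=
    (Equiv.sumCompl (fun x => x ∈ C)).symm.trans (Equiv.sumCongr eC eD)
  have he : ∀ v, (e v).isLeft = true ↔ v ∈ C := by
    intro v
    by_cases hv : v ∈ C
    · have h3 : e v = Sum.inl (eC ⟨v, hv⟩) := by
        show Equiv.sumCongr eC eD ((Equiv.sumCompl (fun x => x ∈ C)).symm v) = _
        rw [Equiv.sumCompl_symm_apply_of_pos hv]
        rfl
      rw [h3]
      simp [hv]
    · have h3 : e v = Sum.inr (eD ⟨v, hv⟩) := by
        show Equiv.sumCongr eC eD ((Equiv.sumCompl (fun x => x ∈ C)).symm v) = _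
        rw [Equiv.sumCompl_symm_apply_of_neg hv]
        rfl
      rw [h3]
      simp [hv]
  have hiso : G ≃g joinKI k t :=
    { toEquiv := e
      map_rel_iff' := by
        intro v w
        rw [hadj]
        show (e v ≠ e w ∧ ((e v).isLeft = true ∨ (e w).isLeft = true)) ↔ _
        rw [he, he, e.injective.ne_iff] }
  refine ⟨t, ?_, ⟨hiso⟩⟩
  have h3 : ∀ v, ∑ w, av G v w =
      ∑ s : Fin k ⊕ Fin t, (if (joinKI k t).Adj (hiso v) s then
        Sum.elim (fun _ => (1 : ℝ)) (fun _ => 1) s else 0) := by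
    intro v
    refine Fintype.sum_equiv hiso.toEquiv _ _ fun w => ?_
    have h4 : Sum.elim (fun _ : Fin k => (1 : ℝ)) (fun _ : Fin t => 1) (hiso.toEquiv w) = 1 := by
      cases hiso.toEquiv w <;> rfl
    rw [h4]
    unfold av
    have h5 : (joinKI k t).Adj (hiso v) (hiso.toEquiv w) ↔ G.Adj v w := hiso.map_rel_iff
    simp only [h5]
  have h6 := two_mul_edges G
  simp only [h3] at h6
  have h8 : ∑ v, (∑ s : Fin k ⊕ Fin t, (if (joinKI k t).Adj (hiso v) s then
      Sum.elim (fun _ => (1 : ℝ)) (fun _ => 1) s else 0)) =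
      ∑ a, (∑ s : Fin k ⊕ Fin t, (if (joinKI k t).Adj a s then
      Sum.elim (fun _ => (1 : ℝ)) (fun _ => 1) s else 0)) :=
    Fintype.sum_equiv hiso.toEquiv _ _ (fun v => rfl)
  rw [h8, Fintype.sum_sum_type] at h6
  simp only [Ext_.row_left, Ext_.row_right, Finset.sum_const, Finset.card_univ,
    Fintype.card_fin, nsmul_eq_mul, mul_one] at h6
  have h7 : (G.edgeSet.ncard : ℝ) = ((k.choose 2 + k * t : ℕ) : ℝ) := by
    push_cast
    rw [Nat.cast_choose_two]
    linarith
  exact_mod_cast h7

/-- the lower bound for the join -/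
theorem lam_joinKI_le [Fintype V] (G : SimpleGraph V) {k t : ℕ} (hk : 1 ≤ k)
    (e : G ≃g joinKI k t) :
    ((k : ℝ) - 1 + Real.sqrt (((k : ℝ) - 1) ^ 2 + 4 * k * t)) / 2 ≤ lam G := by
  classical
  have hk1 : (1 : ℝ) ≤ k := by exact_mod_cast hk
  have ht0 : (0 : ℝ) ≤ t := by positivity
  set s := Real.sqrt (((k : ℝ) - 1) ^ 2 + 4 * k * t) with hs
  have hs2 : s ^ 2 = ((k : ℝ) - 1) ^ 2 + 4 * k * t := Real.sq_sqrt (by positivity)
  set μ := ((k : ℝ) - 1 + s) / 2 with hμ
  have hμ2 : μ * μ = ((k : ℝ) - 1) * μ + t * k := by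
    rw [hμ]
    nlinarith
  have key : ∀ a b : ℝ, ∀ v : V,
      ∑ w, av G v w * Sum.elim (fun _ : Fin k => a) (fun _ : Fin t => b) (e w) =
      Sum.elim (fun _ : Fin k => ((k : ℝ) - 1) * a + t * b) (fun _ : Fin t => k * a) (e v) := by
    intro a b v
    have h1 : ∑ w, av G v w * Sum.elim (fun _ : Fin k => a) (fun _ : Fin t => b) (e w) =
        ∑ s : Fin k ⊕ Fin t, (if (joinKI k t).Adj (e v) s then
          Sum.elim (fun _ => a) (fun _ => b) s else 0) := by
      refine Fintype.sum_equiv e.toEquiv _ _ fun w => ?_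
      unfold av
      have h5 : (joinKI k t).Adj (e v) (e.toEquiv w) ↔ G.Adj v w := e.map_rel_iff
      simp only [h5, ite_mul, one_mul, zero_mul]
      rfl
    rw [h1]
    rcases e v with i | i
    · rw [Ext_.row_left]
      rfl
    · rw [Ext_.row_right]
      rfl
  rcases Nat.eq_zero_or_pos t with h0 | h0
  · have hμk : μ = (k : ℝ) - 1 := by
      have h1 : s = (k : ℝ) - 1 := by
        rw [hs, h0]
        simp only [Nat.cast_zero, mul_zero, add_zero]
        exact Real.sqrt_sq (by linarith)
      rw [hμ, h1]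
      ring
    subst h0
    apply Ext_.le_lam G μ (fun w => Sum.elim (fun _ : Fin k => 1) (fun _ : Fin 0 => 1) (e w))
    · intro h
      have h1 := congrFun h (e.symm (Sum.inl ⟨0, hk⟩))
      simp at h1
    · intro v
      rw [key 1 1 v, hμk]
      rcases e v with i | i
      · simp
      · exact i.elim0
  · apply Ext_.le_lam G μ (fun w => Sum.elim (fun _ : Fin k => μ) (fun _ : Fin t => (k : ℝ))
      (e w))
    · intro h
      have h1 := congrFun h (e.symm (Sum.inr ⟨0, h0⟩))
      simp at h1
      linarith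
    · intro v
      rw [key μ k v]
      rcases e v with i | i
      · simp only [Sum.elim_inl]
        linarith
      · simp only [Sum.elim_inr]
        ring

end Pool.Agent.BHTri
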