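import Pool.Agent.BHTri.Defs2
import Pool.Agent.BHTri.Extremal

set_option autoImplicit false

/-!
# Recognising the extremal graph
-/

namespace Pool.Agent.BHTri

variable {V : Type*}

namespace Recog_

theorem exists_equiv {α : Type*} [Fintype α] (P : α → Prop) [DecidablePred P] (n r : ℕ)
    (hn : Fintype.card α = n) (hr : Fintype.card {a // P a} = r) :
    ∃ e : α ≃ Fin n, ∀ a, P a ↔ (e a).val < r := by
  have hc : Fintype.card {a // ¬ P a} = n - r := by rw [Fintype.card_subtype_compl, hn, hr]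
  have hle : r ≤ n := by
    rw [← hn, ← hr]
    exact Fintype.card_subtype_le P
  let e1 : {a // P a} ≃ Fin r := Fintype.equivFinOfCardEq hr
  let e2 : {a // ¬ P a} ≃ Fin (n - r) := Fintype.equivFinOfCardEq hc
  refine ⟨(Equiv.sumCompl P).symm.trans ((Equiv.sumCongr e1 e2).trans
    (finSumFinEquiv.trans (finCongr (by omega)))), fun a => ?_⟩
  by_cases ha : P a
  · have h1 : (Equiv.sumCompl P).symm a = Sum.inl ⟨a, ha⟩ := Equiv.sumCompl_symm_apply_of_pos ha
    have h2 := (e1 ⟨a, ha⟩).2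
    simp [h1, ha]
  · have h1 : (Equiv.sumCompl P).symm a = Sum.inr ⟨a, ha⟩ := Equiv.sumCompl_symm_apply_of_neg ha
    simp [h1, ha]

theorem iso_gen [Fintype V] [DecidableEq V] (G : SimpleGraph V) {k r t : ℕ}
    (C : Finset V) (h1 : ∀ v ∈ C, ∀ w ∈ C, v ≠ w → G.Adj v w)
    (h2 : ∀ v ∉ C, ∀ w ∉ C, ¬ G.Adj v w) (eC : {x // x ∈ C} ≃ Fin k)
    (eD : {x // x ∉ C} ≃ Fin (t + min r 1))
    (h3 : ∀ (v : {x // x ∈ C}) (w : {x // x ∉ C}),
      G.Adj v w ↔ (eD w).val < t ∨ (eC v).val < r) : Nonempty (G ≃g hubExt k t r) := by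
  classical
  let e : V ≃ Fin k ⊕ Fin (t + min r 1) :=
    (Equiv.sumCompl (fun x => x ∈ C)).symm.trans (Equiv.sumCongr eC eD)
  have he1 : ∀ v (hv : v ∈ C), e v = Sum.inl (eC ⟨v, hv⟩) := by
    intro v hv
    show Equiv.sumCongr eC eD ((Equiv.sumCompl (fun x => x ∈ C)).symm v) = _
    rw [Equiv.sumCompl_symm_apply_of_pos hv]
    rfl
  have he2 : ∀ v (hv : v ∉ C), e v = Sum.inr (eD ⟨v, hv⟩) := by
    intro v hv
    show Equiv.sumCongr eC eD ((Equiv.sumCompl (fun x => x ∈ C)).symm v) = _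
    rw [Equiv.sumCompl_symm_apply_of_neg hv]
    rfl
  refine ⟨{ toEquiv := e, map_rel_iff' := ?_ }⟩
  intro v w
  show hubAdj k t r (e v) (e w) ↔ G.Adj v w
  by_cases hv : v ∈ C
  · by_cases hw : w ∈ C
    · rw [he1 v hv, he1 w hw]
      show eC ⟨v, hv⟩ ≠ eC ⟨w, hw⟩ ↔ _
      rw [eC.injective.ne_iff]
      constructor
      · intro h
        exact h1 v hv w hw fun h' => h (Subtype.ext h')
      · intro h h'
        exact h.ne (congrArg Subtype.val h')
    · rw [he1 v hv, he2 w hw]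
      exact (h3 ⟨v, hv⟩ ⟨w, hw⟩).symm
  · by_cases hw : w ∈ C
    · rw [he2 v hv, he1 w hw, G.adj_comm]
      exact (h3 ⟨w, hw⟩ ⟨v, hv⟩).symm
    · rw [he2 v hv, he2 w hw]
      exact ⟨fun h => absurd h id, fun h => absurd h (h2 v hv w hw)⟩

end Recog_

theorem ncard_hubExt {k t r : ℕ} (hr : r < k) :
    (hubExt k t r).edgeSet.ncard = k.choose 2 + k * t + r := by
  classical
  have hav : ∀ v w, av (hubExt k t r) v w = if hubAdj k t r v w then 1 else 0 := by
    intro v w
    unfold av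
    by_cases h : hubAdj k t r v w
    · rw [if_pos h, if_pos (show (hubExt k t r).Adj v w from h)]
    · rw [if_neg h, if_neg (show ¬ (hubExt k t r).Adj v w from h)]
  -- the number of the pairs of the second kind
  obtain ⟨S, hS⟩ : ∃ S : ℝ, S = ∑ j : Fin (t + min r 1), ∑ i : Fin k,
    (if j.val < t ∨ i.val < r then (1 : ℝ) else 0) := ⟨_, rfl⟩
  have hcol : ∀ j : Fin (t + min r 1), ∑ i : Fin k,
      (if j.val < t ∨ i.val < r then (1 : ℝ) else 0) = if j.val < t then (k : ℝ) else r := by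
    intro j
    by_cases hj : j.val < t
    · simp [hj]
    · simp only [hj, false_or, if_false]
      rw [Fin.sum_univ_eq_sum_range (fun i => if i < r then (1 : ℝ) else 0) k,
        ← Finset.sum_filter]
      have h1 : (Finset.range k).filter (fun i => i < r) = Finset.range r := by
        ext i
        rw [Finset.mem_filter, Finset.mem_range, Finset.mem_range]
        omega
      rw [h1]
      simp
  have hSv : S = k * t + r := by
    rw [hS, Finset.sum_congr rfl fun j _ => hcol j, Fin.sum_univ_add]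
    have h1 : ∀ i : Fin t, (if (Fin.castAdd (min r 1) i).val < t then (k : ℝ) else r) = k := by
      intro i
      rw [if_pos]
      exact i.2
    have h2 : ∀ i : Fin (min r 1), (if (Fin.natAdd t i).val < t then (k : ℝ) else r) = r := by
      intro i
      rw [if_neg]
      simp
    rw [Finset.sum_congr rfl fun i _ => h1 i, Finset.sum_congr rfl fun i _ => h2 i,
      Finset.sum_const, Finset.sum_const, Finset.card_univ, Finset.card_univ, Fintype.card_fin,
      Fintype.card_fin, nsmul_eq_mul, nsmul_eq_mul]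
    have h3 : ((min r 1 : ℕ) : ℝ) * r = r := by
      rcases Nat.eq_zero_or_pos r with h | h
      · rw [h]
        simp
      · rw [Nat.min_eq_right h]
        simp
    rw [h3]
    ring
  have h1 := two_mul_edges (hubExt k t r)
  simp only [hav] at h1
  rw [Fintype.sum_sum_type] at h1
  have hleft : ∑ i : Fin k, ∑ w, (if hubAdj k t r (Sum.inl i) w then (1 : ℝ) else 0) =
      k * ((k : ℝ) - 1) + S := by
    have h2 : ∀ i : Fin k, ∑ w, (if hubAdj k t r (Sum.inl i) w then (1 : ℝ) else 0) =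
        ((k : ℝ) - 1) * 1 + ∑ j : Fin (t + min r 1),
          (if j.val < t ∨ i.val < r then (1 : ℝ) else 0) := by
      intro i
      rw [Fintype.sum_sum_type, ← Ext_.sum_ne k i 1]
      congr 1
      · exact Finset.sum_congr rfl fun j _ => if_congr Iff.rfl rfl rfl
      · exact Finset.sum_congr rfl fun j _ => if_congr Iff.rfl rfl rfl
    rw [Finset.sum_congr rfl fun i _ => h2 i, Finset.sum_add_distrib, Finset.sum_const,
      Finset.card_univ, Fintype.card_fin, nsmul_eq_mul, mul_one, hS, Finset.sum_comm]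
  have hright : ∑ i : Fin (t + min r 1), ∑ w,
      (if hubAdj k t r (Sum.inr i) w then (1 : ℝ) else 0) = S := by
    rw [hS]
    refine Finset.sum_congr rfl fun i _ => ?_
    rw [Fintype.sum_sum_type]
    have h2 : ∑ j : Fin (t + min r 1),
        (if hubAdj k t r (Sum.inr i) (Sum.inr j) then (1 : ℝ) else 0) = 0 :=
      Finset.sum_eq_zero fun j _ => if_neg id
    rw [h2, add_zero]
    exact Finset.sum_congr rfl fun j _ => if_congr Iff.rfl rfl rfl
  rw [hleft, hright, hSv] at h1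
  have h7 : ((hubExt k t r).edgeSet.ncard : ℝ) = ((k.choose 2 + k * t + r : ℕ) : ℝ) := by
    push_cast
    rw [Nat.cast_choose_two]
    linarith
  exact_mod_cast h7

theorem iso_hubExt [Fintype V] [DecidableEq V] (G : SimpleGraph V) {k r : ℕ} (hr : r < k)
    (C : Finset V) (hC : C.card = k) (h1 : ∀ v ∈ C, ∀ w ∈ C, v ≠ w → G.Adj v w)
    (h2 : ∀ v ∉ C, ∀ w ∉ C, ¬ G.Adj v w)
    (h3 : r = 0 → ∀ w ∉ C, ∀ c ∈ C, G.Adj w c)
    (h4 : 1 ≤ r → ∃ w₀ ∉ C, (∃ T ⊆ C, T.card = r ∧ ∀ c ∈ C, G.Adj w₀ c ↔ c ∈ T) ∧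
      ∀ w ∉ C, w ≠ w₀ → ∀ c ∈ C, G.Adj w c) :
    ∃ t : ℕ, Nonempty (G ≃g hubExt k t r) := by
  classical
  rcases Nat.eq_zero_or_pos r with hr0 | hr1
  · obtain ⟨t, ht⟩ : ∃ t, t = Fintype.card {x // x ∉ C} := ⟨_, rfl⟩
    refine ⟨t, Recog_.iso_gen G C h1 h2
      (Fintype.equivFinOfCardEq (by rw [Fintype.card_coe, hC]))
      (Fintype.equivFinOfCardEq (by rw [hr0, ht]; rfl)) ?_⟩
    intro v w
    constructor
    · intro _
      left
      have h5 := ((Fintype.equivFinOfCardEq (show Fintype.card {x // x ∉ C} = t + min r 1 by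
        rw [hr0, ht]; rfl)) w).2
      have h6 : t + min r 1 = t := by rw [hr0]; rfl
      omega
    · intro _
      exact (h3 hr0 w w.2 v v.2).symm
  · obtain ⟨w₀, hw₀, ⟨T, hTC, hTc, hT⟩, hall⟩ := h4 hr1
    obtain ⟨t, ht⟩ : ∃ t, t = Fintype.card {x : {x // x ∉ C} // x ≠ ⟨w₀, hw₀⟩} := ⟨_, rfl⟩
    have hcardD : Fintype.card {x // x ∉ C} = t + min r 1 := by
      have h5 := Fintype.card_subtype_compl (fun x : {x // x ∉ C} => x = ⟨w₀, hw₀⟩)
      rw [Fintype.card_subtype_eq] at h5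
      have h6 : Fintype.card {x : {x // x ∉ C} // x ≠ ⟨w₀, hw₀⟩} =
          Fintype.card {x // x ∉ C} - 1 := by
        rw [← h5]
      have h7 : 0 < Fintype.card {x // x ∉ C} := Fintype.card_pos_iff.2 ⟨⟨w₀, hw₀⟩⟩
      have h8 : min r 1 = 1 := Nat.min_eq_right hr1
      omega
    obtain ⟨eD, heD⟩ := Recog_.exists_equiv (fun x : {x // x ∉ C} => x ≠ ⟨w₀, hw₀⟩)
      (t + min r 1) t hcardD ht.symm
    have hTcard : Fintype.card {x : {x // x ∈ C} // (x : V) ∈ T} = r := by
      rw [← hTc, ← Fintype.card_coe]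
      exact Fintype.card_congr
        { toFun := fun x => ⟨x.1.1, x.2⟩
          invFun := fun x => ⟨⟨x.1, hTC x.2⟩, x.2⟩
          left_inv := fun _ => rfl
          right_inv := fun _ => rfl }
    obtain ⟨eC, heC⟩ := Recog_.exists_equiv (fun x : {x // x ∈ C} => (x : V) ∈ T)
      k r (by rw [Fintype.card_coe, hC]) hTcard
    refine ⟨t, Recog_.iso_gen G C h1 h2 eC eD fun v w => ?_⟩
    rw [← heD, ← heC]
    by_cases hw : w = ⟨w₀, hw₀⟩
    · rw [hw, G.adj_comm, hT v v.2]
      simp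
    · have h5 : G.Adj v w := (hall w w.2 (fun h => hw (Subtype.ext h)) v v.2).symm
      exact ⟨fun _ => Or.inl hw, fun _ => h5⟩

end Pool.Agent.BHTri
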