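import Pool.Agent.BHTri.Core5
import Pool.Agent.BHTri.Recog

set_option autoImplicit false
set_option linter.unusedSectionVars false

namespace Pool.Agent.BHTri

open Finset

variable {V : Type*} [Fintype V] [DecidableEq V]

namespace Setup

variable {G : SimpleGraph V} {k : ℕ} {x : V → ℝ} {u : V} {l : ℝ} {A B : Finset V}

omit [DecidableEq V] in
/-- (e) the exact identity for a set `C` and its complement `W` -/
lemma hub_identity (G : SimpleGraph V) (x : V → ℝ) (l : ℝ) (C W : Finset V)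
    (hsum : ∀ f : V → ℝ, ∑ v, f v = ∑ v ∈ C, f v + ∑ v ∈ W, f v)
    (heig : ∀ v, ∑ w, av G v w * x w = l * x v) :
    l ^ 2 * ∑ c ∈ C, x c = l * ∑ c ∈ C, (∑ c' ∈ C, av G c c') * x c +
      ∑ c ∈ C, (∑ w ∈ W, av G c w * ∑ c' ∈ C, av G w c') * x c +
      ∑ w ∈ W, (∑ c ∈ C, av G w c) * ∑ w' ∈ W, av G w w' * x w' := by
  have h1 : ∀ v, l * x v = ∑ c ∈ C, av G v c * x c + ∑ w ∈ W, av G v w * x w := by
    intro v
    rw [← heig v, hsum]
  have a1 : ∑ c ∈ C, ∑ c' ∈ C, av G c c' * x c' = ∑ c ∈ C, (∑ c' ∈ C, av G c c') * x c := by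
    rw [Finset.sum_comm]
    refine Finset.sum_congr rfl fun c _ => ?_
    rw [Finset.sum_mul]
    exact Finset.sum_congr rfl fun c' _ => by rw [av_symm]
  have a2 : l * ∑ c ∈ C, ∑ w ∈ W, av G c w * x w = ∑ w ∈ W, (∑ c ∈ C, av G w c) * (l * x w) := by
    rw [Finset.sum_comm, Finset.mul_sum]
    refine Finset.sum_congr rfl fun w _ => ?_
    rw [Finset.mul_sum, Finset.sum_mul]
    exact Finset.sum_congr rfl fun c _ => by rw [av_symm]; ring
  have a3 : ∑ w ∈ W, (∑ c ∈ C, av G w c) * (l * x w) =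
      ∑ w ∈ W, (∑ c ∈ C, av G w c) * ∑ c ∈ C, av G w c * x c +
      ∑ w ∈ W, (∑ c ∈ C, av G w c) * ∑ w' ∈ W, av G w w' * x w' := by
    rw [← Finset.sum_add_distrib]
    exact Finset.sum_congr rfl fun w _ => by rw [h1 w]; ring
  have a4 : ∑ w ∈ W, (∑ c ∈ C, av G w c) * ∑ c ∈ C, av G w c * x c =
      ∑ c ∈ C, (∑ w ∈ W, av G c w * ∑ c' ∈ C, av G w c') * x c := by
    have : ∀ w ∈ W, (∑ c ∈ C, av G w c) * ∑ c ∈ C, av G w c * x c =
        ∑ c ∈ C, av G c w * (∑ c' ∈ C, av G w c') * x c := by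
      intro w _
      rw [Finset.mul_sum]
      exact Finset.sum_congr rfl fun c _ => by rw [av_symm G w c]; ring
    rw [Finset.sum_congr rfl this, Finset.sum_comm]
    exact Finset.sum_congr rfl fun c _ => by rw [Finset.sum_mul]
  have a5 : l ^ 2 * ∑ c ∈ C, x c = l * ∑ c ∈ C, (l * x c) := by
    rw [← Finset.mul_sum]
    ring
  rw [a5, Finset.sum_congr rfl (fun c _ => h1 c), Finset.sum_add_distrib, mul_add, a1, a2, a3, a4]
  ring

omit [DecidableEq V] in
lemma total (G : SimpleGraph V) (C W : Finset V)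
    (hsum : ∀ f : V → ℝ, ∑ v, f v = ∑ v ∈ C, f v + ∑ v ∈ W, f v) :
    ∑ v, ∑ w, av G v w = ∑ c ∈ C, ∑ c' ∈ C, av G c c' + 2 * ∑ w ∈ W, ∑ c ∈ C, av G w c +
      ∑ w ∈ W, ∑ w' ∈ W, av G w w' := by
  have h1 : ∑ c ∈ C, ∑ w ∈ W, av G c w = ∑ w ∈ W, ∑ c ∈ C, av G w c := by
    rw [Finset.sum_comm]
    exact Finset.sum_congr rfl fun w _ => Finset.sum_congr rfl fun c _ => av_symm G c w
  rw [hsum]
  simp only [hsum (fun w => av G _ w), Finset.sum_add_distrib]
  rw [h1]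
  ring

/-- The main inequality. -/
lemma main_ineq (S : Setup G k x u l A B)
    (hl : 2000 * (k : ℝ) ^ 4 ≤ l)
    {L D : Finset V} (P : Split G k x l A L D)
    (hLk : L.card = k - 1) (T : Small G k x A B L D)
    (hFk : (k : ℝ) * (k - 1) ≤ F G k x l A)
    (hxB : ∀ w ∈ B, x w ≤ 1 / 2) (hxW : ∀ w ∈ D ∪ B, l * x w ≤ 80 * (k : ℝ) ^ 2)
    (heps : ∀ v ∈ L, l ^ 2 * (1 - x v) ≤ 320 * (k : ℝ) ^ 3)
    (hmiss : ∀ v ∈ L, ∑ w ∈ D, (1 - av G v w) ≤ 720 * (k : ℝ) ^ 3)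
    (hsum : ∀ f : V → ℝ, ∑ v, f v = ∑ v ∈ insert u L, f v + ∑ v ∈ D ∪ B, f v)
    (hDB : Disjoint D B) (φ : ℝ)
    (hP : (∑ v, ∑ w, av G v w - (k : ℝ) * (k - 1)) / 2 - φ / k ≤ l ^ 2 - ((k : ℝ) - 1) * l) :
    ∑ w ∈ D ∪ B, (∑ c ∈ insert u L, av G w c) * (k - ∑ c ∈ insert u L, av G w c) +
      k * (∑ w ∈ D ∪ B, ∑ w' ∈ D ∪ B, av G w w') / 2 +
      (l - k) / 2 * ∑ c ∈ insert u L, ∑ c' ∈ (insert u L).erase c, (1 - av G c c') <
      φ + 1 / 2 := by
  have hk := S.k_ge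
  have hkk := S.hk
  have hk1 : (1 : ℝ) ≤ k := by linarith
  have hk2 : (4 : ℝ) ≤ (k : ℝ) ^ 2 := by nlinarith
  have hk4 : (16 : ℝ) ≤ (k : ℝ) ^ 4 := by nlinarith
  have hlpos : 1 < l := by nlinarith
  have hLc : (L.card : ℝ) = (k : ℝ) - 1 := by
    rw [hLk, Nat.cast_sub (by omega)]
    simp
  have huA : u ∉ A := fun h => G.loopless.irrefl u ((S.hA u).mp h)
  have huL : u ∉ L := fun h => huA (P.hLA h)
  obtain ⟨eAB, eBB⟩ := S.edges_B T hxB
  have hxD4 : ∀ w ∈ D, x w ≤ 1 / 4 := by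
    intro w hw
    have h1 := hxW w (Finset.mem_union_left _ hw)
    have h2 : 320 * (k : ℝ) ^ 2 ≤ l := by nlinarith
    by_contra hcon
    push Not at hcon
    nlinarith
  have eDD := S.edges_D T hxD4
  have hid := hub_identity G x l (insert u L) (D ∪ B) hsum S.heig
  have htot := total G (insert u L) (D ∪ B) hsum
  have hFQ := S.identity
  have hQ0 := S.Q_nonneg
  set C := insert u L with hCdef
  set W := D ∪ B with hWdef
  have hCcard : (C.card : ℝ) = k := by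
    rw [hCdef, Finset.card_insert_of_notMem huL]
    push_cast
    linarith
  set d : V → ℝ := fun w => ∑ c ∈ C, av G w c with hd
  have hd0 : ∀ w, 0 ≤ d w := fun w => Finset.sum_nonneg fun c _ => av_nonneg G w c
  have hdk : ∀ w, d w ≤ k := by
    intro w
    calc d w ≤ ∑ c ∈ C, (1 : ℝ) := Finset.sum_le_sum fun c _ => av_le_one G w c
      _ = k := by rw [Finset.sum_const, nsmul_eq_mul, mul_one, hCcard]
  set ms : V → ℝ := fun c => ∑ c' ∈ C.erase c, (1 - av G c c') with hms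
  have hms0 : ∀ c, 0 ≤ ms c := fun c => Finset.sum_nonneg fun c' _ => by
    linarith [av_le_one G c c']
  have hrow : ∀ c ∈ C, ∑ c' ∈ C, av G c c' = (k : ℝ) - 1 - ms c := by
    intro c hc
    have h1 := Finset.sum_erase_add C (fun w => 1 - av G c w) hc
    simp only [av_self, Finset.sum_sub_distrib, Finset.sum_const, nsmul_eq_mul, mul_one] at h1
    rw [hCcard] at h1
    have h2 : ms c = ∑ c' ∈ C.erase c, (1 : ℝ) - ∑ c' ∈ C.erase c, av G c c' := by
      simp only [hms, Finset.sum_sub_distrib]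
    rw [Finset.sum_const, nsmul_eq_mul, mul_one] at h2
    linarith
  set N : ℝ := ∑ w ∈ W, d w with hN
  set E : ℝ := ∑ w ∈ W, ∑ w' ∈ W, av G w w' with hE
  set MS : ℝ := ∑ c ∈ C, ms c with hMS
  set Pq : ℝ := l ^ 2 - ((k : ℝ) - 1) * l with hPq
  have hMS0 : 0 ≤ MS := Finset.sum_nonneg fun c _ => hms0 c
  have hCC : ∑ c ∈ C, ∑ c' ∈ C, av G c c' = (k : ℝ) * (k - 1) - MS := by
    rw [Finset.sum_congr rfl hrow, Finset.sum_sub_distrib, Finset.sum_const, nsmul_eq_mul, hCcard]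
  have htot' : ∑ v, ∑ w, av G v w = (k : ℝ) * (k - 1) - MS + 2 * N + E := by
    rw [htot, hCC]
  -- the number of edges outside
  have hE5 : E ≤ 5 * k := by
    have e1 : E = ∑ v ∈ D, ∑ w ∈ D, av G v w + 2 * ∑ v ∈ D, ∑ w ∈ B, av G v w +
        ∑ v ∈ B, ∑ w ∈ B, av G v w := by
      have e2 : ∀ v, ∑ w ∈ W, av G v w = ∑ w ∈ D, av G v w + ∑ w ∈ B, av G v w := fun v =>
        Finset.sum_union hDB
      have e3 : ∑ v ∈ B, ∑ w ∈ D, av G v w = ∑ v ∈ D, ∑ w ∈ B, av G v w := by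
        rw [Finset.sum_comm]
        exact Finset.sum_congr rfl fun w _ => Finset.sum_congr rfl fun c _ => av_symm G c w
      rw [hE]
      simp only [e2]
      rw [hWdef, Finset.sum_union hDB, Finset.sum_add_distrib, Finset.sum_add_distrib, e3]
      ring
    have e4 : ∑ v ∈ D, ∑ w ∈ B, av G v w ≤ k := by
      refine le_trans ?_ eAB
      exact Finset.sum_le_sum_of_subset_of_nonneg P.hDA
        (fun v _ _ => Finset.sum_nonneg fun w _ => av_nonneg G v w)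
    rw [e1]
    linarith
  have hE0 : 0 ≤ E := Finset.sum_nonneg fun v _ => Finset.sum_nonneg fun w _ => av_nonneg G v w
  -- (i)
  have hi : ∑ w ∈ W, d w * ∑ w' ∈ W, av G w w' * x w' ≤ 1 / 5 := by
    have h1 : l * ∑ w ∈ W, d w * ∑ w' ∈ W, av G w w' * x w' ≤ k * (80 * (k : ℝ) ^ 2) * E := by
      rw [hE, Finset.mul_sum, Finset.mul_sum]
      refine Finset.sum_le_sum fun w _ => ?_
      have h2 : l * ∑ w' ∈ W, av G w w' * x w' ≤ 80 * (k : ℝ) ^ 2 * ∑ w' ∈ W, av G w w' := by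
        rw [Finset.mul_sum, Finset.mul_sum]
        refine Finset.sum_le_sum fun w' hw' => ?_
        nlinarith [hxW w' hw', av_nonneg G w w']
      have h3 : 0 ≤ ∑ w' ∈ W, av G w w' := Finset.sum_nonneg fun w' _ => av_nonneg G w w'
      calc l * (d w * ∑ w' ∈ W, av G w w' * x w') = d w * (l * ∑ w' ∈ W, av G w w' * x w') := by
            ring
        _ ≤ d w * (80 * (k : ℝ) ^ 2 * ∑ w' ∈ W, av G w w') :=
            mul_le_mul_of_nonneg_left h2 (hd0 w)
        _ ≤ k * (80 * (k : ℝ) ^ 2 * ∑ w' ∈ W, av G w w') :=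
            mul_le_mul_of_nonneg_right (hdk w) (by positivity)
        _ = k * (80 * (k : ℝ) ^ 2) * ∑ w' ∈ W, av G w w' := by ring
    have h4 : k * (80 * (k : ℝ) ^ 2) * E ≤ 400 * (k : ℝ) ^ 4 := by
      have : k * (80 * (k : ℝ) ^ 2) * E ≤ k * (80 * (k : ℝ) ^ 2) * (5 * k) :=
        mul_le_mul_of_nonneg_left hE5 (by positivity)
      nlinarith
    have h5 : l * ∑ w ∈ W, d w * ∑ w' ∈ W, av G w w' * x w' ≤ l * (1 / 5) := by linarith
    exact le_of_mul_le_mul_left h5 (by linarith)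
  -- (ii)
  set h : V → ℝ := fun c => ∑ w ∈ W, av G c w * d w with hh
  have hPN : Pq ≤ N + E / 2 := by linarith
  have hPh : ∀ c ∈ L, Pq - h c ≤ 724 * (k : ℝ) ^ 4 := by
    intro c hc
    have h1 : N - h c = ∑ w ∈ D, (1 - av G c w) * d w + ∑ w ∈ B, (1 - av G c w) * d w := by
      rw [hN, hh, ← Finset.sum_sub_distrib, hWdef, Finset.sum_union hDB]
      congr 1 <;> exact Finset.sum_congr rfl fun w _ => by ring
    have h2 : ∑ w ∈ D, (1 - av G c w) * d w ≤ k * (720 * (k : ℝ) ^ 3) := by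
      refine le_trans ?_ (mul_le_mul_of_nonneg_left (hmiss c hc) (by linarith))
      rw [Finset.mul_sum]
      refine Finset.sum_le_sum fun w _ => ?_
      rw [mul_comm]
      exact mul_le_mul_of_nonneg_right (hdk w) (by linarith [av_le_one G c w])
    have h3 : ∑ w ∈ B, (1 - av G c w) * d w ≤ k := by
      refine le_trans ?_ eAB
      rw [Finset.sum_comm]
      refine Finset.sum_le_sum fun w hw => ?_
      have h4 : d w ≤ ∑ v ∈ A, av G v w := by
        have h5 : d w = ∑ v ∈ L, av G w v := by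
          simp only [hd, hCdef]
          rw [Finset.sum_insert huL, S.a_B_u hw, zero_add]
        rw [h5]
        refine le_trans (Finset.sum_le_sum_of_subset_of_nonneg P.hLA
          (fun v _ _ => av_nonneg G w v)) (le_of_eq ?_)
        exact Finset.sum_congr rfl fun v _ => av_symm G w v
      refine le_trans ?_ h4
      nlinarith [av_nonneg G c w, hd0 w]
    have h6 : (k : ℝ) ≤ (k : ℝ) ^ 4 := by
      calc (k : ℝ) = (k : ℝ) ^ 1 := (pow_one _).symm
        _ ≤ (k : ℝ) ^ 4 := pow_le_pow_right₀ hk1 (by norm_num)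
    nlinarith
  have hii : ∑ c ∈ C, (Pq - h c) * (1 - x c) ≤ 1 / 4 := by
    rw [hCdef, Finset.sum_insert huL, S.hu]
    have h1 : l ^ 2 * ∑ c ∈ L, (Pq - h c) * (1 - x c) ≤
        ∑ c ∈ L, 724 * (k : ℝ) ^ 4 * (320 * (k : ℝ) ^ 3) := by
      rw [Finset.mul_sum]
      refine Finset.sum_le_sum fun c hc => ?_
      have hxc := S.hx1 c
      calc l ^ 2 * ((Pq - h c) * (1 - x c)) = (Pq - h c) * (l ^ 2 * (1 - x c)) := by ring
        _ ≤ 724 * (k : ℝ) ^ 4 * (l ^ 2 * (1 - x c)) :=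
            mul_le_mul_of_nonneg_right (hPh c hc) (mul_nonneg (by positivity) (by linarith))
        _ ≤ 724 * (k : ℝ) ^ 4 * (320 * (k : ℝ) ^ 3) :=
            mul_le_mul_of_nonneg_left (heps c hc) (by positivity)
    rw [Finset.sum_const, nsmul_eq_mul, hLc] at h1
    have h2 : ((k : ℝ) - 1) * (724 * (k : ℝ) ^ 4 * (320 * (k : ℝ) ^ 3)) ≤
        231680 * (k : ℝ) ^ 8 := by
      have : 0 ≤ (k : ℝ) ^ 7 := by positivity
      nlinarith
    have h3 : (2000 * (k : ℝ) ^ 4) ^ 2 ≤ l ^ 2 := by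
      exact pow_le_pow_left₀ (by positivity) hl 2
    have h4 : l ^ 2 * ∑ c ∈ L, (Pq - h c) * (1 - x c) ≤ l ^ 2 * (1 / 4) := by
      have : 0 ≤ (k : ℝ) ^ 8 := by positivity
      nlinarith
    have h5 := le_of_mul_le_mul_left h4 (by positivity)
    linarith
  -- (iii)
  have hiii : l / 2 * MS ≤ l * ∑ c ∈ C, ms c * x c := by
    rw [hMS, Finset.mul_sum, Finset.mul_sum]
    refine Finset.sum_le_sum fun c hc => ?_
    have hxc : 1 / 2 ≤ x c := by
      rcases Finset.mem_insert.mp hc with h' | h'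
      · rw [h', S.hu]
        norm_num
      · exact (P.hxL c h').le
    have h1 := hms0 c
    have h2 : 0 ≤ l * ms c := mul_nonneg (by linarith) h1
    nlinarith
  -- combination
  have hsq : ∑ c ∈ C, h c = ∑ w ∈ W, d w ^ 2 := by
    rw [hh, Finset.sum_comm]
    refine Finset.sum_congr rfl fun w _ => ?_
    have h3 : ∑ c ∈ C, av G c w * d w = (∑ c ∈ C, av G c w) * d w := by rw [Finset.sum_mul]
    have h4 : ∑ c ∈ C, av G c w = d w := Finset.sum_congr rfl fun c _ => av_symm G c w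
    rw [h3, h4]
    ring
  have hid2 : (k : ℝ) * Pq = ∑ w ∈ W, d w ^ 2 + ∑ c ∈ C, (Pq - h c) * (1 - x c) -
      l * ∑ c ∈ C, ms c * x c + ∑ w ∈ W, d w * ∑ w' ∈ W, av G w w' * x w' := by
    have e1 : ∑ c ∈ C, (∑ c' ∈ C, av G c c') * x c =
        ((k : ℝ) - 1) * ∑ c ∈ C, x c - ∑ c ∈ C, ms c * x c := by
      rw [Finset.mul_sum, ← Finset.sum_sub_distrib]
      exact Finset.sum_congr rfl fun c hc => by rw [hrow c hc]; ring
    have e2 : ∑ c ∈ C, (Pq - h c) * (1 - x c) = (k : ℝ) * Pq - ∑ c ∈ C, h c -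
        Pq * ∑ c ∈ C, x c + ∑ c ∈ C, h c * x c := by
      have : ∑ c ∈ C, (Pq - h c) * (1 - x c) =
          ∑ c ∈ C, (Pq - h c - Pq * x c + h c * x c) :=
        Finset.sum_congr rfl fun c _ => by ring
      rw [this, Finset.sum_add_distrib, Finset.sum_sub_distrib, Finset.sum_sub_distrib,
        Finset.sum_const, nsmul_eq_mul, hCcard, ← Finset.mul_sum]
    have e3 : l ^ 2 * ∑ c ∈ C, x c = l * ∑ c ∈ C, (∑ c' ∈ C, av G c c') * x c +
        ∑ c ∈ C, h c * x c + ∑ w ∈ W, d w * ∑ w' ∈ W, av G w w' * x w' := hid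
    rw [e1] at e3
    rw [← hsq, e2, hPq]
    linarith
  have hfin : ∑ w ∈ W, d w * (k - d w) = k * N - ∑ w ∈ W, d w ^ 2 := by
    rw [hN, Finset.mul_sum, ← Finset.sum_sub_distrib]
    exact Finset.sum_congr rfl fun w _ => by ring
  have hP2 : (k : ℝ) * N + k * E / 2 - k * MS / 2 - φ ≤ k * Pq := by
    have h1 : (k : ℝ) * ((∑ v, ∑ w, av G v w - (k : ℝ) * (k - 1)) / 2 - φ / k) ≤ k * Pq :=
      mul_le_mul_of_nonneg_left hP (by linarith)
    rw [htot'] at h1
    have h2 : (k : ℝ) * (φ / k) = φ := by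
      field_simp
    have h3 : (k : ℝ) * (((k : ℝ) * (k - 1) - MS + 2 * N + E - (k : ℝ) * (k - 1)) / 2 - φ / k) =
        (k : ℝ) * N + k * E / 2 - k * MS / 2 - k * (φ / k) := by ring
    rw [h3, h2] at h1
    exact h1
  rw [hfin]
  nlinarith

end Setup

end Pool.Agent.BHTri
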