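import Pool.Agent.BHTri.Core6
import Pool.Agent.BHTri.Arith

set_option autoImplicit false
set_option linter.unusedSectionVars false

namespace Pool.Agent.BHTri

open Finset

variable {V : Type*} [Fintype V] [DecidableEq V]

namespace Setup

variable {G : SimpleGraph V} {k : ℕ} {x : V → ℝ} {u : V} {l : ℝ} {A B : Finset V}

/-- The structure of the graphs with a large eigenvalue. -/
theorem core2 (S : Setup G k x u l A B) (hNP : NoPath G A (2 * k + 1))
    (hfree : (cTri (2 * k)).Free G ∨ (cTri (2 * k + 1)).Free G)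
    (hiso : ∀ v, ∃ w, G.Adj v w)
    (hl : 2000 * (k : ℝ) ^ 4 ≤ l) (hl2 : k * (2 * cst k + 77 * (k : ℝ) ^ 2) + k < l)
    {t r : ℕ} (hr : r < k)
    (hm : ∑ v, ∑ w, av G v w = (k : ℝ) * (k - 1) + 2 * (k * t + r))
    (hP : (k : ℝ) * t + r - r * ((k : ℝ) - r) / k ≤ l ^ 2 - ((k : ℝ) - 1) * l) :
    ∃ t', Nonempty (G ≃g hubExt k t' r) := by
  classical
  have hk := S.k_ge
  have hkk := S.hk
  have hk1 : (1 : ℝ) ≤ k := by linarith
  have hk2 : (4 : ℝ) ≤ (k : ℝ) ^ 2 := by nlinarith
  have hk4 : (16 : ℝ) ≤ (k : ℝ) ^ 4 := by nlinarith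
  have hlpos : 1 < l := by nlinarith
  have hl1 : 616 * (k : ℝ) ^ 2 ≤ l := by nlinarith
  have hrk : (r : ℝ) + 1 ≤ k := by exact_mod_cast hr
  have hr0 : (0 : ℝ) ≤ r := Nat.cast_nonneg r
  -- the defect
  have hφ : (r : ℝ) * ((k : ℝ) - r) / k ≤ k / 4 := by
    rw [div_le_iff₀ (by linarith)]
    nlinarith [sq_nonneg ((k : ℝ) - 2 * r)]
  have hFQ : F G k x l A + Q G x A B ≤ (k : ℝ) * (k - 1) + k := by
    rw [← S.identity, hm]
    linarith
  have hFQ2 : F G k x l A + Q G x A B ≤ (k : ℝ) ^ 2 := by nlinarith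
  have hQ0 := S.Q_nonneg
  have hF : F G k x l A ≤ (k : ℝ) ^ 2 := by linarith
  have hQ := S.Q_le hNP (by nlinarith) hFQ2
  have hB := S.sum_B_le hNP hfree (by nlinarith) hF hQ
  -- the two parts
  set L := A.filter (fun v => 1 / 2 < x v) with hLdef
  set D := A.filter (fun v => ¬ 1 / 2 < x v) with hDdef
  have P : Split G k x l A L D :=
    { hs := fun f => (Finset.sum_filter_add_sum_filter_not A _ f).symm
      hLA := Finset.filter_subset _ _
      hDA := Finset.filter_subset _ _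
      hLD := Finset.disjoint_filter_filter_not A A _
      hxL := fun v hv => (Finset.mem_filter.mp hv).2
      hxD := fun v hv => not_lt.mp (Finset.mem_filter.mp hv).2
      hcard := S.heavy_card hNP hl1 hB }
  have hAmem : ∀ v, v ∈ A ↔ v ∈ L ∨ v ∈ D := by
    intro v
    constructor
    · intro hv
      by_cases h : 1 / 2 < x v
      · exact Or.inl (Finset.mem_filter.mpr ⟨hv, h⟩)
      · exact Or.inr (Finset.mem_filter.mpr ⟨hv, h⟩)
    · rintro (hv | hv)
      · exact P.hLA hv
      · exact P.hDA hv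
  clear_value L D
  have hLk := S.card_L_eq hNP hF hl1 hl2 hB P
  obtain ⟨T, hFk⟩ := S.small hl1 hB P hLk hFQ
  have hxD := fun w (hw : w ∈ D) => S.xD_le hNP hB P hLk T hw
  have hxB := fun w (hw : w ∈ B) => S.xB_half hfree hl1 hB P hLk T hw
  have hxB' := fun w (hw : w ∈ B) => S.xB_le hB T hxB hw
  have hxW : ∀ w ∈ D ∪ B, l * x w ≤ 80 * (k : ℝ) ^ 2 := by
    intro w hw
    rcases Finset.mem_union.mp hw with h | h
    · exact hxD w h
    · exact hxB' w h
  have heps := fun v (hv : v ∈ L) => S.eps_small hl hB P hLk T hxD hv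
  have hmiss := fun v (hv : v ∈ L) => S.missing_count hl P T hxB hxB' hv (heps v hv)
  have huA : u ∉ A := fun h => G.loopless.irrefl u ((S.hA u).mp h)
  have huL : u ∉ L := fun h => huA (P.hLA h)
  have hDB : Disjoint D B := by
    rw [Finset.disjoint_left]
    intro v hv hv'
    exact ((S.hB v).mp hv').2 ((S.hA v).mp (P.hDA hv))
  have hsum : ∀ f : V → ℝ, ∑ v, f v = ∑ v ∈ insert u L, f v + ∑ v ∈ D ∪ B, f v := by
    intro f
    rw [S.sum_split, P.hs, Finset.sum_insert huL, Finset.sum_union hDB]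
    ring
  have hmain := S.main_ineq hl P hLk T hFk hxB hxW heps hmiss hsum hDB
    ((r : ℝ) * ((k : ℝ) - r)) (by
      rw [hm]
      linarith)
  have htot := total G (insert u L) (D ∪ B) hsum
  -- membership
  have hmem : ∀ v, v ∉ insert u L ↔ v ∈ D ∪ B := by
    intro v
    rw [Finset.mem_insert, Finset.mem_union, S.hB]
    constructor
    · intro h
      push Not at h
      by_cases hv : G.Adj u v
      · rcases (hAmem v).mp ((S.hA v).mpr hv) with h' | h'
        · exact absurd h' h.2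
        · exact Or.inl h'
      · exact Or.inr ⟨h.1, hv⟩
    · rintro (h | h)
      · push Not
        exact ⟨fun h' => huA (h' ▸ P.hDA h), fun h' => Finset.disjoint_left.mp P.hLD h' h⟩
      · push Not
        exact ⟨h.1, fun h' => h.2 ((S.hA v).mp (P.hLA h'))⟩
  set C := insert u L with hCdef
  set W := D ∪ B with hWdef
  have hCcard : C.card = k := by
    rw [hCdef, Finset.card_insert_of_notMem huL, hLk]
    omega
  have hCcard' : (C.card : ℝ) = k := by exact_mod_cast hCcard
  clear_value C W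
  set dn : V → ℕ := fun w => (C.filter (fun c => G.Adj w c)).card with hdn
  have hd : ∀ w, ∑ c ∈ C, av G w c = (dn w : ℝ) := fun w => sum_av_eq_card C w
  have hdnk : ∀ w, dn w ≤ k := fun w => by
    rw [← hCcard]
    exact Finset.card_le_card (Finset.filter_subset _ _)
  simp only [hd] at hmain htot
  set MS : ℝ := ∑ c ∈ C, ∑ c' ∈ C.erase c, (1 - av G c c') with hMS
  have hE0 : 0 ≤ ∑ w ∈ W, ∑ w' ∈ W, av G w w' :=
    Finset.sum_nonneg fun v _ => Finset.sum_nonneg fun w _ => av_nonneg G v w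
  have hf0 : 0 ≤ ∑ w ∈ W, (dn w : ℝ) * (k - dn w) := by
    refine Finset.sum_nonneg fun w _ => mul_nonneg (Nat.cast_nonneg _) ?_
    have : (dn w : ℝ) ≤ k := by exact_mod_cast hdnk w
    linarith
  have hlk : (k : ℝ) ^ 2 + 1 ≤ (l - k) / 2 := by nlinarith
  -- no missing pair in `C`
  have hclique : ∀ v ∈ C, ∀ w ∈ C, v ≠ w → G.Adj v w := by
    intro v hv w hw hvw
    by_contra hcon
    have h1 : (1 : ℝ) ≤ MS := by
      have h2 : (1 : ℝ) ≤ ∑ c' ∈ C.erase v, (1 - av G v c') := by
        refine le_trans (le_of_eq ?_) (Finset.single_le_sum (f := fun c' => 1 - av G v c')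
          (fun c' _ => by linarith [av_le_one G v c']) (Finset.mem_erase.mpr ⟨hvw.symm, hw⟩))
        simp only [av_of_not hcon]
        ring
      refine le_trans h2 ?_
      exact Finset.single_le_sum (f := fun c => ∑ c' ∈ C.erase c, (1 - av G c c'))
        (fun c _ => Finset.sum_nonneg fun c' _ => by linarith [av_le_one G c c']) hv
    nlinarith [sq_nonneg ((k : ℝ) - 2 * r)]
  have hMS0 : MS = 0 := by
    rw [hMS]
    refine Finset.sum_eq_zero fun c hc => Finset.sum_eq_zero fun c' hc' => ?_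
    obtain ⟨h1, h2⟩ := Finset.mem_erase.mp hc'
    rw [av_of_adj (hclique c hc c' h2 h1.symm)]
    ring
  have hCC : ∑ c ∈ C, (dn c : ℝ) = (k : ℝ) * (k - 1) := by
    have h1 : ∀ c ∈ C, (dn c : ℝ) = (k : ℝ) - 1 := by
      intro c hc
      have h2 : C.filter (fun c' => G.Adj c c') = C.erase c := by
        ext c'
        rw [Finset.mem_filter, Finset.mem_erase]
        constructor
        · rintro ⟨h3, h4⟩
          exact ⟨h4.ne', h3⟩
        · rintro ⟨h3, h4⟩
          exact ⟨h4, hclique c hc c' h4 h3.symm⟩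
      simp only [hdn]
      rw [h2, Finset.card_erase_of_mem hc, hCcard, Nat.cast_sub (by omega)]
      simp
    rw [Finset.sum_congr rfl h1, Finset.sum_const, nsmul_eq_mul, hCcard']
  rw [hCC, hm] at htot
  rw [hMS0, mul_zero, add_zero] at hmain
  -- the number of edges outside
  have hN : ∑ w ∈ W, dn w ≤ k * t + r := by
    have : (∑ w ∈ W, (dn w : ℝ)) ≤ k * t + r := by linarith
    exact_mod_cast this
  obtain ⟨e, he⟩ := Nat.exists_eq_add_of_le hN
  have he' : (k : ℝ) * t + r = ∑ w ∈ W, (dn w : ℝ) + e := by exact_mod_cast he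
  have hEe : ∑ w ∈ W, ∑ w' ∈ W, av G w w' = 2 * e := by linarith
  rw [hEe] at hmain
  have hle : ∑ w ∈ W, dn w * (k - dn w) + k * e ≤ r * (k - r) := by
    have h1 : ((∑ w ∈ W, dn w * (k - dn w) + k * e : ℕ) : ℝ) < ((r * (k - r) : ℕ) : ℝ) + 1 := by
      push_cast
      rw [Nat.cast_sub hr.le]
      have h2 : ∀ w ∈ W, (dn w : ℝ) * ((k - dn w : ℕ) : ℝ) = (dn w : ℝ) * (k - dn w) := by
        intro w _
        rw [Nat.cast_sub (hdnk w)]
      rw [Finset.sum_congr rfl h2]
      linarith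
    have h3 : ∑ w ∈ W, dn w * (k - dn w) + k * e < r * (k - r) + 1 := by exact_mod_cast h1
    omega
  obtain ⟨he0, hr1, hr2⟩ := arith_core W dn hr (fun w _ => hdnk w) he.symm hle
  have hE00 : ∑ w ∈ W, ∑ w' ∈ W, av G w w' = 0 := by
    rw [hEe, he0]
    simp
  have hWW : ∀ v ∈ W, ∀ w ∈ W, ¬ G.Adj v w := by
    intro v hv w hw hvw
    have h1 := (Finset.sum_eq_zero_iff_of_nonneg (fun v _ => Finset.sum_nonneg fun w _ =>
      av_nonneg G v w)).mp hE00 v hv
    have h2 := (Finset.sum_eq_zero_iff_of_nonneg (fun w _ => av_nonneg G v w)).mp h1 w hw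
    rw [av_of_adj hvw] at h2
    norm_num at h2
  have hpos : ∀ w ∈ W, dn w ≠ 0 := by
    intro w hw h0
    obtain ⟨v, hv⟩ := hiso w
    by_cases hvC : v ∈ C
    · have h1 : v ∈ C.filter (fun c => G.Adj w c) := Finset.mem_filter.mpr ⟨hvC, hv⟩
      simp only [hdn] at h0
      rw [Finset.card_eq_zero] at h0
      rw [h0] at h1
      exact absurd h1 (Finset.notMem_empty v)
    · exact hWW w hw v ((hmem v).mp hvC) hv
  have hfull : ∀ w, dn w = k → ∀ c ∈ C, G.Adj w c := by
    intro w hw c hc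
    have h1 : C.filter (fun c => G.Adj w c) = C :=
      Finset.eq_of_subset_of_card_le (Finset.filter_subset _ _) (by rw [hCcard]; exact hw.ge)
    rw [← h1] at hc
    exact (Finset.mem_filter.mp hc).2
  refine iso_hubExt G hr C hCcard hclique (fun v hv w hw => hWW v ((hmem v).mp hv) w
    ((hmem w).mp hw)) ?_ ?_
  · intro hr0 w hw
    rcases hr1 hr0 w ((hmem w).mp hw) with h | h
    · exact absurd h (hpos w ((hmem w).mp hw))
    · exact hfull w h
  · intro hr0
    obtain ⟨w₀, hw₀, h1, h2⟩ := hr2 hr0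
    refine ⟨w₀, (hmem w₀).mpr hw₀, ⟨C.filter (fun c => G.Adj w₀ c), Finset.filter_subset _ _, h1,
      fun c hc => ⟨fun h => Finset.mem_filter.mpr ⟨hc, h⟩, fun h => (Finset.mem_filter.mp h).2⟩⟩,
      ?_⟩
    intro w hw hne
    rcases h2 w ((hmem w).mp hw) hne with h | h
    · exact absurd h (hpos w ((hmem w).mp hw))
    · exact hfull w h

end Setup

end Pool.Agent.BHTri
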