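import Pool.Agent.BHTri.Defs2

set_option autoImplicit false

/-!
# Graphs with a small vertex cover are free
-/

namespace Pool.Agent.BHTri

variable {V : Type*}

theorem free_of_cover (G : SimpleGraph V) {k s : ℕ} (hs : 2 * k ≤ s) (hs2 : 2 ≤ s)
    (C : Finset V) (hC : C.card ≤ k) (h : ∀ v w, G.Adj v w → v ∈ C ∨ w ∈ C) :
    (cTri s).Free G := by
  classical
  rintro ⟨f⟩
  obtain ⟨m, rfl⟩ : ∃ m, s = m + 1 := ⟨s - 1, by omega⟩
  obtain ⟨c, hc⟩ : ∃ c : Option (Fin (m + 1)) → ℕ, ∀ x, c x = if f x ∈ C then 1 else 0 :=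
    ⟨_, fun _ => rfl⟩
  have hedge : ∀ x y, (cTri (m + 1)).Adj x y → 1 ≤ c x + c y := by
    intro x y hxy
    rw [hc, hc]
    rcases h _ _ (f.toHom.map_adj hxy) with h1 | h1
    · have h2 : f x ∈ C := h1
      rw [if_pos h2]
      omega
    · have h2 : f y ∈ C := h1
      rw [if_pos h2]
      omega
  -- the total number
  have htot : ∑ x, c x ≤ k := by
    refine le_trans ?_ hC
    have h1 : ∑ x, c x = (Finset.univ.filter fun x => f x ∈ C).card := by
      rw [Finset.card_filter]
      exact Finset.sum_congr rfl fun x _ => hc x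
    rw [h1]
    refine Finset.card_le_card_of_injOn (fun x => f x) (fun x hx => ?_) (f.injective.injOn)
    simpa using hx
  obtain ⟨g, hg⟩ : ∃ g : ℕ → ℕ, ∀ i : Fin (m + 1), g i = c (some i) := by
    refine ⟨fun i => if hi : i < m + 1 then c (some ⟨i, hi⟩) else 0, fun i => ?_⟩
    simp [i.2]
  have hsum : ∑ x, c x = c none + ∑ i ∈ Finset.range (m + 1), g i := by
    rw [Fintype.sum_option, ← Fin.sum_univ_eq_sum_range]
    congr 1
    exact Finset.sum_congr rfl fun i _ => (hg i).symm
  have e0 : 1 ≤ c none + g 0 := by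
    have h1 := hg ⟨0, by omega⟩
    have h2 := hedge none (some ⟨0, by omega⟩) (Or.inl rfl)
    rw [← h1] at h2
    exact h2
  have em : 1 ≤ c none + g m := by
    have h1 := hg ⟨m, by omega⟩
    have h2 := hedge none (some ⟨m, by omega⟩) (Or.inr rfl)
    rw [← h1] at h2
    exact h2
  have ei : ∀ i ∈ Finset.range m, 1 ≤ g i + g (i + 1) := by
    intro i hi
    rw [Finset.mem_range] at hi
    have h1 := hg ⟨i, by omega⟩
    have h2 := hg ⟨i + 1, by omega⟩
    have h3 := hedge (some ⟨i, by omega⟩) (some ⟨i + 1, by omega⟩)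
      ⟨fun h => by simp [Fin.ext_iff] at h, Or.inl rfl⟩
    rw [← h1, ← h2] at h3
    exact h3
  have h1 : m ≤ ∑ i ∈ Finset.range m, (g i + g (i + 1)) := by
    have h2 := Finset.card_nsmul_le_sum (Finset.range m) (fun i => g i + g (i + 1)) 1 ei
    rw [Finset.card_range, smul_eq_mul, mul_one] at h2
    exact h2
  rw [Finset.sum_add_distrib] at h1
  have h2 := Finset.sum_range_succ g m
  have h3 := Finset.sum_range_succ' g m
  omega

theorem hubExt_free {k t r : ℕ} (hk : 2 ≤ k) :
    (cTri (2 * k)).Free (hubExt k t r) ∧ (cTri (2 * k + 1)).Free (hubExt k t r) := by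
  classical
  have hcov : ∀ v w, (hubExt k t r).Adj v w →
      v ∈ Finset.univ.image (Sum.inl : Fin k → Fin k ⊕ Fin (t + min r 1)) ∨
      w ∈ Finset.univ.image (Sum.inl : Fin k → Fin k ⊕ Fin (t + min r 1)) := by
    rintro (i | i) (j | j) h
    · exact Or.inl (Finset.mem_image_of_mem _ (Finset.mem_univ _))
    · exact Or.inl (Finset.mem_image_of_mem _ (Finset.mem_univ _))
    · exact Or.inr (Finset.mem_image_of_mem _ (Finset.mem_univ _))
    · exact absurd h id
  have hcard : (Finset.univ.image (Sum.inl : Fin k → Fin k ⊕ Fin (t + min r 1))).card ≤ k := by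
    refine Finset.card_image_le.trans ?_
    simp
  exact ⟨free_of_cover _ le_rfl (by omega) _ hcard hcov,
    free_of_cover _ (by omega) (by omega) _ hcard hcov⟩

end Pool.Agent.BHTri
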