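import Mathlib

set_option autoImplicit false

/-!
# Graphs with a given number of edges and no cycle sharing an edge with a triangle
-/

namespace Pool.Agent.BHTri

/-- Adjacency of `cTri t`. -/
def cAdj (t : ℕ) : Option (Fin t) → Option (Fin t) → Prop
  | some i, some j => i ≠ j ∧ (i.val + 1 = j.val ∨ j.val + 1 = i.val ∨
      (i.val = 0 ∧ j.val + 1 = t) ∨ (j.val = 0 ∧ i.val + 1 = t))
  | some i, none => i.val = 0 ∨ i.val + 1 = t
  | none, some j => j.val = 0 ∨ j.val + 1 = t
  | none, none => False

/-- A cycle `0, 1, ..., t - 1` on `t` vertices (for `t ≥ 3`) together with one extra vertex `none`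
which is adjacent to the two ends `0` and `t - 1` of one edge of the cycle. -/
def cTri (t : ℕ) : SimpleGraph (Option (Fin t)) where
  Adj := cAdj t
  symm := ⟨by
    rintro (_ | i) (_ | j) h
    · exact h
    · exact h
    · exact h
    · obtain ⟨h1, h2⟩ := h
      exact ⟨h1.symm, by tauto⟩⟩
  loopless := ⟨by
    rintro (_ | i) h
    · exact h
    · exact h.1 rfl⟩

/-- The join of the complete graph on `k` vertices and the edgeless graph on `t` vertices. -/
def joinKI (k t : ℕ) : SimpleGraph (Fin k ⊕ Fin t) where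
  Adj a b := a ≠ b ∧ (a.isLeft = true ∨ b.isLeft = true)
  symm := ⟨fun _ _ h => ⟨h.1.symm, h.2.symm⟩⟩
  loopless := ⟨fun _ h => h.1 rfl⟩

open scoped Classical in
/-- The largest eigenvalue of the adjacency matrix. -/
noncomputable def lam {V : Type*} [Fintype V] (G : SimpleGraph V) : ℝ :=
  sSup {μ : ℝ | ∃ x : V → ℝ, x ≠ 0 ∧ (G.adjMatrix ℝ).mulVec x = μ • x}

open scoped Classical in
/-- The adjacency indicator. -/
noncomputable def av {V : Type*} (G : SimpleGraph V) (v w : V) : ℝ := if G.Adj v w then 1 else 0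

/-- There is no path with `n` vertices inside `S`. -/
def NoPath {V : Type*} (G : SimpleGraph V) (S : Finset V) (n : ℕ) : Prop :=
  ∀ l : List V, l.Nodup → l.IsChain G.Adj → (∀ v ∈ l, v ∈ S) → l.length ≠ n

end Pool.Agent.BHTri
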