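import Pool.Agent.BHTri.Defs

set_option autoImplicit false

/-!
# The extremal graph for an arbitrary number of edges
-/

namespace Pool.Agent.BHTri

/-- Adjacency of `hubExt`. -/
def hubAdj (k t r : ℕ) : Fin k ⊕ Fin (t + min r 1) → Fin k ⊕ Fin (t + min r 1) → Prop
  | .inl i, .inl j => i ≠ j
  | .inl i, .inr j => j.val < t ∨ i.val < r
  | .inr i, .inl j => i.val < t ∨ j.val < r
  | .inr _, .inr _ => False

/-- The join of the complete graph on `k` vertices and the edgeless graph on `t` vertices together
with, if `r ≥ 1`, one further vertex which is adjacent to exactly the first `r` vertices of the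
complete graph. -/
def hubExt (k t r : ℕ) : SimpleGraph (Fin k ⊕ Fin (t + min r 1)) where
  Adj := hubAdj k t r
  symm := ⟨by
    rintro (i | i) (j | j) h
    · exact Ne.symm h
    · exact h
    · exact h
    · exact h⟩
  loopless := ⟨by
    rintro (i | i) h
    · exact h rfl
    · exact h⟩

end Pool.Agent.BHTri
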