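import Pool.Agent.BHTri.Defs

/-!
# A nonnegative eigenvector for the largest eigenvalue of the adjacency matrix
-/

set_option autoImplicit false

namespace Pool.Agent.BHTri

variable {V : Type*}

open Matrix

open scoped Classical in
lemma mulVec_av [Fintype V] (G : SimpleGraph V) (x : V → ℝ) (v : V) :
    (G.adjMatrix ℝ).mulVec x v = ∑ w, av G v w * x w := by
  simp only [Matrix.mulVec, dotProduct, SimpleGraph.adjMatrix_apply, av]

open scoped Classical in
/-- the quadratic form -/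
noncomputable def qf [Fintype V] (G : SimpleGraph V) (x : V → ℝ) : ℝ :=
  x ⬝ᵥ (G.adjMatrix ℝ *ᵥ x)

lemma qf_eq [Fintype V] (G : SimpleGraph V) (x : V → ℝ) :
    qf G x = ∑ v, ∑ w, av G v w * (x v * x w) := by
  unfold qf dotProduct
  refine Finset.sum_congr rfl fun v _ => ?_
  rw [mulVec_av, Finset.mul_sum]
  exact Finset.sum_congr rfl fun w _ => by ring

lemma av_nonneg (G : SimpleGraph V) (v w : V) : 0 ≤ av G v w := by
  unfold av
  split_ifs <;> norm_num

lemma qf_le_abs [Fintype V] (G : SimpleGraph V) (x : V → ℝ) :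
    qf G x ≤ qf G (fun v => |x v|) := by
  rw [qf_eq, qf_eq]
  refine Finset.sum_le_sum fun v _ => Finset.sum_le_sum fun w _ => ?_
  apply mul_le_mul_of_nonneg_left _ (av_nonneg G v w)
  rw [← abs_mul]
  exact le_abs_self _

lemma qf_smul [Fintype V] (G : SimpleGraph V) (a : ℝ) (x : V → ℝ) :
    qf G (fun v => a * x v) = a ^ 2 * qf G x := by
  rw [qf_eq, qf_eq, Finset.mul_sum]
  refine Finset.sum_congr rfl fun v _ => ?_
  rw [Finset.mul_sum]
  exact Finset.sum_congr rfl fun w _ => by ring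

lemma exists_max [Fintype V] [Nonempty V] (G : SimpleGraph V) :
    ∃ y : V → ℝ, (∀ v, 0 ≤ y v) ∧ ∑ v, y v ^ 2 = 1 ∧
      ∀ x : V → ℝ, qf G x ≤ qf G y * ∑ v, x v ^ 2 := by
  classical
  set K : Set (V → ℝ) := {x | ∑ v, x v ^ 2 = 1} with hK
  have hKc : IsCompact K := by
    apply IsCompact.of_isClosed_subset (isCompact_Icc (a := fun _ : V => (-1 : ℝ))
      (b := fun _ : V => (1 : ℝ)))
    · exact isClosed_eq (by fun_prop) continuous_const
    · intro x hx
      have hx' : ∑ v, x v ^ 2 = 1 := hx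
      have h1 : ∀ v, x v ^ 2 ≤ 1 := by
        intro v
        rw [← hx']
        exact Finset.single_le_sum (f := fun v => x v ^ 2) (fun w _ => sq_nonneg _)
          (Finset.mem_univ v)
      exact ⟨fun v => (abs_le.1 ((sq_le_one_iff_abs_le_one _).1 (h1 v))).1,
        fun v => (abs_le.1 ((sq_le_one_iff_abs_le_one _).1 (h1 v))).2⟩
  have hKn : K.Nonempty := by
    obtain ⟨a⟩ := ‹Nonempty V›
    refine ⟨Pi.single a 1, ?_⟩
    show ∑ v, (Pi.single a (1 : ℝ) : V → ℝ) v ^ 2 = 1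
    rw [Finset.sum_eq_single a]
    · simp
    · intro b _ hb
      simp [Pi.single_eq_of_ne hb]
    · intro h
      exact absurd (Finset.mem_univ a) h
  have hcont : Continuous (fun x : V → ℝ => qf G x) := by
    have : (fun x : V → ℝ => qf G x) = fun x => ∑ v, ∑ w, av G v w * (x v * x w) := by
      funext x
      exact qf_eq G x
    rw [this]
    fun_prop
  obtain ⟨x₀, hx₀, hmax⟩ := hKc.exists_isMaxOn hKn hcont.continuousOn
  have hx₀' : ∑ v, x₀ v ^ 2 = 1 := hx₀
  refine ⟨fun v => |x₀ v|, fun v => abs_nonneg _, by simpa using hx₀', fun x => ?_⟩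
  have hle := qf_le_abs G x₀
  by_cases hs : ∑ v, x v ^ 2 = 0
  · have hx0 : ∀ v, x v = 0 := by
      intro v
      have := (Finset.sum_eq_zero_iff_of_nonneg (fun w _ => sq_nonneg (x w))).1 hs v
        (Finset.mem_univ v)
      exact pow_eq_zero_iff (two_ne_zero) |>.1 this
    rw [hs, mul_zero, qf_eq]
    apply le_of_eq
    apply Finset.sum_eq_zero
    intro v _
    apply Finset.sum_eq_zero
    intro w _
    rw [hx0 v]
    ring
  · have hs0 : 0 < ∑ v, x v ^ 2 :=
      lt_of_le_of_ne (Finset.sum_nonneg fun v _ => sq_nonneg _) (Ne.symm hs)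
    set s := ∑ v, x v ^ 2 with hsdef
    have hr : 0 < Real.sqrt s := Real.sqrt_pos.2 hs0
    have hmem : (fun v => (Real.sqrt s)⁻¹ * x v) ∈ K := by
      show ∑ v, ((Real.sqrt s)⁻¹ * x v) ^ 2 = 1
      simp only [mul_pow]
      rw [← Finset.mul_sum, ← hsdef, inv_pow, Real.sq_sqrt hs0.le]
      exact inv_mul_cancel₀ hs0.ne'
    have h1 : qf G (fun v => (Real.sqrt s)⁻¹ * x v) ≤ qf G x₀ := hmax hmem
    rw [qf_smul, inv_pow, Real.sq_sqrt hs0.le] at h1
    have h2 : s⁻¹ * qf G x ≤ qf G (fun v => |x₀ v|) := h1.trans hle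
    rw [inv_mul_le_iff₀ hs0] at h2
    linarith

lemma eig_of_max [Fintype V] (G : SimpleGraph V) (y : V → ℝ) (hy : ∀ v, 0 ≤ y v)
    (h1 : ∑ v, y v ^ 2 = 1) (hmax : ∀ x : V → ℝ, qf G x ≤ qf G y * ∑ v, x v ^ 2) (v : V) :
    ∑ w, av G v w * y w = qf G y * y v := by
  classical
  have hl0 : 0 ≤ qf G y := by
    rw [qf_eq]
    exact Finset.sum_nonneg fun a _ => Finset.sum_nonneg fun b _ =>
      mul_nonneg (av_nonneg G a b) (mul_nonneg (hy a) (hy b))
  set l := qf G y with hl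
  set a := ∑ w, av G v w * y w with ha
  have hq : ∀ s : ℝ, qf G (y + s • (Pi.single v 1 : V → ℝ)) = l + 2 * s * a := by
    intro s
    have hsymm : y ⬝ᵥ (G.adjMatrix ℝ *ᵥ (Pi.single v 1 : V → ℝ)) =
        (Pi.single v 1 : V → ℝ) ⬝ᵥ (G.adjMatrix ℝ *ᵥ y) := by
      rw [dotProduct_mulVec, ← mulVec_transpose, SimpleGraph.transpose_adjMatrix,
        dotProduct_comm]
    have hav : (Pi.single v 1 : V → ℝ) ⬝ᵥ (G.adjMatrix ℝ *ᵥ y) = a := by
      rw [single_one_dotProduct]
      have := mulVec_av G y v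
      convert this
    have hzz : (Pi.single v 1 : V → ℝ) ⬝ᵥ (G.adjMatrix ℝ *ᵥ (Pi.single v 1 : V → ℝ)) = 0 := by
      rw [single_one_dotProduct, mulVec_single_one]
      simp
    have hyy : y ⬝ᵥ (G.adjMatrix ℝ *ᵥ y) = l := by
      rw [hl]
      unfold qf
      convert rfl
    have : qf G (y + s • (Pi.single v 1 : V → ℝ)) =
        (y + s • (Pi.single v 1 : V → ℝ)) ⬝ᵥ
          (G.adjMatrix ℝ *ᵥ (y + s • (Pi.single v 1 : V → ℝ))) := by
      unfold qf
      convert rfl
    rw [this, mulVec_add, mulVec_smul, dotProduct_add, add_dotProduct, add_dotProduct,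
      smul_dotProduct, smul_dotProduct, dotProduct_smul, dotProduct_smul, hsymm, hav, hzz, hyy]
    simp only [smul_eq_mul]
    ring
  have hn : ∀ s : ℝ, ∑ w, (y + s • (Pi.single v 1 : V → ℝ)) w ^ 2 = 1 + 2 * s * y v + s ^ 2 := by
    intro s
    have e : ∀ w, (y + s • (Pi.single v 1 : V → ℝ)) w ^ 2 = y w ^ 2 +
        (if w = v then 2 * s * y v + s ^ 2 else 0) := by
      intro w
      by_cases hw : w = v
      · subst hw
        simp
        ring
      · simp [hw]
    simp only [e, Finset.sum_add_distrib, h1]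
    rw [Finset.sum_ite_eq' Finset.univ v]
    simp
    ring
  have key : ∀ s : ℝ, 2 * s * (a - l * y v) ≤ l * s ^ 2 := by
    intro s
    have := hmax (y + s • (Pi.single v 1 : V → ℝ))
    rw [hq, hn] at this
    nlinarith
  by_contra hne
  have hd : a - l * y v ≠ 0 := sub_ne_zero.2 hne
  set d := a - l * y v with hdd
  have hl1 : 0 < l + 1 := by linarith
  have := key (d / (l + 1))
  have hd2 : 0 < d ^ 2 := by positivity
  have e1 : 2 * (d / (l + 1)) * d = 2 * (d ^ 2 / (l + 1)) := by ring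
  have e2 : l * (d / (l + 1)) ^ 2 = (l / (l + 1)) * (d ^ 2 / (l + 1)) := by
    field_simp
  rw [e1, e2] at this
  have h3 : 0 < d ^ 2 / (l + 1) := by positivity
  have h4 : l / (l + 1) < 1 := by
    rw [div_lt_one hl1]
    linarith
  nlinarith

lemma qf_of_eig [Fintype V] (G : SimpleGraph V) (μ : ℝ) (x : V → ℝ)
    (h : ∀ v, ∑ w, av G v w * x w = μ * x v) : qf G x = μ * ∑ v, x v ^ 2 := by
  rw [qf_eq, Finset.mul_sum]
  refine Finset.sum_congr rfl fun v _ => ?_
  calc ∑ w, av G v w * (x v * x w) = x v * ∑ w, av G v w * x w := by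
        rw [Finset.mul_sum]
        exact Finset.sum_congr rfl fun w _ => by ring
    _ = μ * x v ^ 2 := by
        rw [h v]
        ring

lemma mem_iff [Fintype V] (G : SimpleGraph V) (μ : ℝ) (x : V → ℝ) :
    (∀ v, ∑ w, av G v w * x w = μ * x v) ↔
      (@SimpleGraph.adjMatrix ℝ V G (Classical.decRel _) _ _).mulVec x = μ • x := by
  constructor
  · intro h
    funext v
    have := mulVec_av G x v
    rw [Pi.smul_apply, smul_eq_mul, ← h v, ← this]
  · intro h v
    have h1 := congrFun h v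
    rw [Pi.smul_apply, smul_eq_mul] at h1
    rw [← h1]
    exact (mulVec_av G x v).symm

lemma exists_greatest [Fintype V] [Nonempty V] (G : SimpleGraph V) :
    ∃ y : V → ℝ, (∀ v, 0 ≤ y v) ∧ ∑ v, y v ^ 2 = 1 ∧
      (∀ v, ∑ w, av G v w * y w = qf G y * y v) ∧
      ∀ (μ : ℝ) (x : V → ℝ), x ≠ 0 → (∀ v, ∑ w, av G v w * x w = μ * x v) → μ ≤ qf G y := by
  obtain ⟨y, hy, h1, hmax⟩ := exists_max G
  refine ⟨y, hy, h1, fun v => eig_of_max G y hy h1 hmax v, fun μ x hx h => ?_⟩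
  have h2 := hmax x
  rw [qf_of_eig G μ x h] at h2
  have hs : 0 < ∑ v, x v ^ 2 := by
    obtain ⟨v, hv⟩ := Function.ne_iff.1 hx
    have h3 : 0 < x v ^ 2 := by
      have : x v ≠ 0 := hv
      positivity
    exact lt_of_lt_of_le h3 (Finset.single_le_sum (f := fun v => x v ^ 2)
      (fun w _ => sq_nonneg _) (Finset.mem_univ v))
  exact le_of_mul_le_mul_right h2 hs

lemma lam_eq [Fintype V] (G : SimpleGraph V) (y : V → ℝ) (hy0 : y ≠ 0)
    (he : ∀ v, ∑ w, av G v w * y w = qf G y * y v)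
    (hg : ∀ (μ : ℝ) (x : V → ℝ), x ≠ 0 → (∀ v, ∑ w, av G v w * x w = μ * x v) → μ ≤ qf G y) :
    lam G = qf G y := by
  unfold lam
  apply IsGreatest.csSup_eq
  constructor
  · refine ⟨y, hy0, ?_⟩
    have := (mem_iff G (qf G y) y).1 he
    convert this
  · rintro μ ⟨x, hx, h⟩
    apply hg μ x hx
    rw [mem_iff]
    convert h

theorem exists_perron [Fintype V] [Nonempty V] (G : SimpleGraph V) :
    ∃ x : V → ℝ, (∀ v, 0 ≤ x v) ∧ x ≠ 0 ∧ ∀ v, ∑ w, av G v w * x w = lam G * x v := by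
  obtain ⟨y, hy, h1, he, hg⟩ := exists_greatest G
  have hy0 : y ≠ 0 := by
    rintro rfl
    simp at h1
  refine ⟨y, hy, hy0, fun v => ?_⟩
  rw [lam_eq G y hy0 he hg]
  exact he v

theorem le_lam [Fintype V] (G : SimpleGraph V) (μ : ℝ) (x : V → ℝ) (hx : x ≠ 0)
    (h : ∀ v, ∑ w, av G v w * x w = μ * x v) : μ ≤ lam G := by
  obtain ⟨v, -⟩ := Function.ne_iff.1 hx
  have : Nonempty V := ⟨v⟩
  obtain ⟨y, hy, h1, he, hg⟩ := exists_greatest G
  have hy0 : y ≠ 0 := by
    rintro rfl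
    simp at h1
  rw [lam_eq G y hy0 he hg]
  exact hg μ x hx h

end Pool.Agent.BHTri
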