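import Pool.Agent.BHTri.Defs2
import Pool.Agent.BHTri.Perron

set_option autoImplicit false

/-!
# A lower bound for the largest eigenvalue of the extremal graph
-/

namespace Pool.Agent.BHTri

variable {V : Type*}

theorem rayleigh [Fintype V] (G : SimpleGraph V) (x : V → ℝ) :
    ∑ v, ∑ w, av G v w * (x v * x w) ≤ lam G * ∑ v, x v ^ 2 := by
  rcases isEmpty_or_nonempty V with h | h
  · simp
  · obtain ⟨y, hy, h1, hmax⟩ := exists_max G
    have he := fun v => eig_of_max G y hy h1 hmax v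
    have hy0 : y ≠ 0 := by
      intro h0
      rw [h0] at h1
      simp at h1
    have hg : ∀ (μ : ℝ) (x : V → ℝ), x ≠ 0 → (∀ v, ∑ w, av G v w * x w = μ * x v) →
        μ ≤ qf G y := by
      intro μ x hx h
      have h2 := hmax x
      rw [qf_of_eig G μ x h] at h2
      have hs : 0 < ∑ v, x v ^ 2 := by
        obtain ⟨v, hv⟩ := Function.ne_iff.1 hx
        have h3 : 0 < x v ^ 2 := by
          have : x v ≠ 0 := hv
          positivity
        exact lt_of_lt_of_le h3 (Finset.single_le_sum (f := fun v => x v ^ 2)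
          (fun w _ => sq_nonneg _) (Finset.mem_univ v))
      exact le_of_mul_le_mul_right h2 hs
    rw [lam_eq G y hy0 he hg, ← qf_eq]
    exact hmax x

lemma av_iso {W : Type*} {G : SimpleGraph V} {H : SimpleGraph W} (e : G ≃g H) (v w : V) :
    av H (e v) (e w) = av G v w := by
  have h : H.Adj (e v) (e w) ↔ G.Adj v w := e.map_adj_iff
  unfold av
  by_cases h1 : G.Adj v w
  · rw [if_pos h1, if_pos (h.2 h1)]
  · rw [if_neg h1, if_neg (fun h2 => h1 (h.1 h2))]

lemma eig_iso {W : Type*} [Fintype V] [Fintype W] {G : SimpleGraph V} {H : SimpleGraph W}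
    (e : G ≃g H) (μ : ℝ) (x : V → ℝ) (hx : x ≠ 0)
    (h : ∀ v, ∑ w, av G v w * x w = μ * x v) :
    ∃ z : W → ℝ, z ≠ 0 ∧ ∀ v, ∑ w, av H v w * z w = μ * z v := by
  refine ⟨fun w => x (e.symm w), ?_, fun v => ?_⟩
  · intro h0
    apply hx
    funext v
    have := congrFun h0 (e v)
    simpa using this
  · have h1 := h (e.symm v)
    rw [← h1]
    refine (Fintype.sum_equiv e.toEquiv _ _ fun w => ?_).symm
    have h2 := av_iso e (e.symm v) w
    rw [e.apply_symm_apply] at h2
    have h3 : e.toEquiv w = e w := rfl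
    rw [h3, h2]
    show _ = av G (e.symm v) w * x (e.symm (e w))
    rw [e.symm_apply_apply]

theorem lam_iso {W : Type*} [Fintype V] [Fintype W] {G : SimpleGraph V} {H : SimpleGraph W}
    (e : G ≃g H) : lam G = lam H := by
  unfold lam
  congr 1
  ext μ
  constructor
  · rintro ⟨x, hx, h⟩
    have h' := (mem_iff G μ x).2 (by convert h)
    obtain ⟨z, hz, hz2⟩ := eig_iso e μ x hx h'
    refine ⟨z, hz, ?_⟩
    have := (mem_iff H μ z).1 hz2
    convert this
  · rintro ⟨x, hx, h⟩
    have h' := (mem_iff H μ x).2 (by convert h)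
    obtain ⟨z, hz, hz2⟩ := eig_iso e.symm μ x hx h'
    refine ⟨z, hz, ?_⟩
    have := (mem_iff G μ z).1 hz2
    convert this

lemma sum_hub {k t r : ℕ} :
    ∑ j : Fin (t + min r 1), (if j.val < t then (k : ℝ) else r) ^ 2 =
      (k : ℝ) ^ 2 * t + (r : ℝ) ^ 2 := by
  have h1 := Fin.sum_univ_eq_sum_range (fun j : ℕ => (if j < t then (k : ℝ) else r) ^ 2)
    (t + min r 1)
  rw [h1]
  have h2 : ∑ j ∈ Finset.range t, (if j < t then (k : ℝ) else r) ^ 2 = (k : ℝ) ^ 2 * t := by
    rw [Finset.sum_congr rfl (fun j hj => by rw [if_pos (Finset.mem_range.1 hj)])]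
    simp
    ring
  rcases Nat.eq_zero_or_pos r with hr | hr
  · subst hr
    simp only [Nat.zero_min, add_zero, h2]
    simp
  · rw [min_eq_right hr, Finset.sum_range_succ, h2]
    simp

lemma sum_adj {k t r : ℕ} (hr : r < k) (j : Fin (t + min r 1)) :
    ∑ i : Fin k, av (hubExt k t r) (.inl i) (.inr j) = (if j.val < t then (k : ℝ) else r) := by
  classical
  have h : ∀ i : Fin k, av (hubExt k t r) (.inl i) (.inr j) =
      if (j.val < t ∨ i.val < r) then (1 : ℝ) else 0 := by
    intro i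
    unfold av
    have : (hubExt k t r).Adj (.inl i) (.inr j) ↔ (j.val < t ∨ i.val < r) := Iff.rfl
    simp only [this]
  simp only [h]
  by_cases hj : j.val < t
  · simp [hj]
  · have : (Finset.univ.filter fun i : Fin k => i.val < r).card = r := by
      rw [Fin.card_filter_val_lt]
      omega
    simp [hj, Finset.sum_boole, this]

theorem lam_hubExt_ge {k t r : ℕ} (hk : 1 ≤ k) (hr : r < k) (μ : ℝ) (hμ : 0 < μ)
    (h : μ ^ 2 - ((k : ℝ) - 1) * μ = k * t + (r : ℝ) ^ 2 / k) : μ ≤ lam (hubExt k t r) := by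
  classical
  set G := hubExt k t r with hG
  set d : Fin (t + min r 1) → ℝ := fun j => if j.val < t then (k : ℝ) else r with hd
  set x : Fin k ⊕ Fin (t + min r 1) → ℝ := Sum.elim (fun _ => 1) (fun j => d j / μ) with hx
  have hk0 : (0 : ℝ) < k := by exact_mod_cast hk
  have hS : ∑ j, d j ^ 2 = (k : ℝ) ^ 2 * t + (r : ℝ) ^ 2 := sum_hub
  have hS2 : ∑ j, d j ^ 2 = k * μ * (μ - k + 1) := by
    rw [hS]
    have h1 : (k : ℝ) * (k * t + (r : ℝ) ^ 2 / k) = (k : ℝ) ^ 2 * t + (r : ℝ) ^ 2 := by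
      field_simp
    rw [← h1, ← h]
    ring
  have hadj : ∀ j, ∑ i : Fin k, av G (.inl i) (.inr j) = d j := fun j => sum_adj hr j
  have hsym : ∀ i j, av G (.inr j) (.inl i) = av G (.inl i) (.inr j) := by
    intro i j
    unfold av
    simp only [G.adj_comm]
  have hll : ∀ i : Fin k, ∑ j : Fin k, av G (.inl i) (.inl j) = (k : ℝ) - 1 := by
    intro i
    have h1 : ∀ j : Fin k, av G (.inl i) (.inl j) = 1 - (if i = j then (1 : ℝ) else 0) := by
      intro j
      unfold av
      have : G.Adj (.inl i) (.inl j) ↔ i ≠ j := Iff.rfl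
      by_cases hij : i = j
      · rw [if_neg (by rw [this]; simpa using hij), if_pos hij]; ring
      · rw [if_pos (this.2 hij), if_neg hij]; ring
    simp only [h1, Finset.sum_sub_distrib]
    simp
  have hrr : ∀ i j, av G (.inr i) (.inr j) = 0 := by
    intro i j
    unfold av
    rw [if_neg]
    exact fun h => h
  have hN : ∑ v, ∑ w, av G v w * (x v * x w) = k * (k - 1) + 2 * (∑ j, d j ^ 2) / μ := by
    rw [Fintype.sum_sum_type]
    simp only [Fintype.sum_sum_type, hx, Sum.elim_inl, Sum.elim_inr, hrr, hsym, mul_one, one_mul,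
      zero_mul, Finset.sum_const_zero, add_zero, Finset.sum_add_distrib, hll]
    rw [Finset.sum_comm]
    simp only [← Finset.sum_mul, hadj]
    have h1 : ∑ j, d j * (d j / μ) = (∑ j, d j ^ 2) / μ := by
      rw [Finset.sum_div]
      exact Finset.sum_congr rfl fun j _ => by ring
    rw [h1]
    simp
    ring
  have hD : ∑ v, x v ^ 2 = k + (∑ j, d j ^ 2) / μ ^ 2 := by
    rw [Fintype.sum_sum_type]
    simp only [hx, Sum.elim_inl, Sum.elim_inr, div_pow, Finset.sum_div]
    simp
  have hmain := rayleigh G x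
  rw [hN, hD, hS2] at hmain
  have hD0 : 0 < (k : ℝ) + k * μ * (μ - k + 1) / μ ^ 2 := by
    rw [← hS2]
    have : 0 ≤ (∑ j, d j ^ 2) / μ ^ 2 :=
      div_nonneg (Finset.sum_nonneg fun j _ => sq_nonneg _) (sq_nonneg _)
    linarith
  have e1 : (k : ℝ) * (k - 1) + 2 * (k * μ * (μ - k + 1)) / μ =
      μ * (k + k * μ * (μ - k + 1) / μ ^ 2) := by
    field_simp
    ring
  rw [e1] at hmain
  exact le_of_mul_le_mul_right hmain hD0

end Pool.Agent.BHTri
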