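import Pool.Agent.BHTri.Core7
import Pool.Agent.BHTri.Lower
import Pool.Agent.BHTri.Cover
import Pool.Agent.BHTri.Extremal

set_option autoImplicit false

namespace Pool.Agent.BHTri

open Finset

universe u

/-- the threshold for the eigenvalue -/
noncomputable def thr (k : ℕ) : ℝ :=
  2000 * (k : ℝ) ^ 4 + (k * (2 * cst k + 77 * (k : ℝ) ^ 2) + k) + 1

lemma thr_facts {k : ℕ} (hk : 2 ≤ k) : 2000 * (k : ℝ) ^ 4 ≤ thr k ∧
    k * (2 * cst k + 77 * (k : ℝ) ^ 2) + k < thr k ∧ 616 * (k : ℝ) ^ 2 ≤ thr k ∧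
    (k : ℝ) < thr k ∧ 0 < thr k := by
  have hk' : (2 : ℝ) ≤ k := by exact_mod_cast hk
  have hc := cst_nonneg k
  have hk2 : (4 : ℝ) ≤ (k : ℝ) ^ 2 := by nlinarith
  have h4 : 4 * (k : ℝ) ^ 2 ≤ (k : ℝ) ^ 4 := by nlinarith
  have h5 : 0 ≤ k * (2 * cst k + 77 * (k : ℝ) ^ 2) := by positivity
  unfold thr
  refine ⟨by linarith, by nlinarith, by nlinarith, by nlinarith, by nlinarith⟩

/-- A quadratic function is monotone beyond its vertex. -/
lemma quad_le {k : ℕ} {a b : ℝ} (ha : (k : ℝ) ≤ a) (hab : a ≤ b) :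
    a ^ 2 - ((k : ℝ) - 1) * a ≤ b ^ 2 - ((k : ℝ) - 1) * b := by
  nlinarith

lemma quad_lt {k : ℕ} {a b : ℝ} (ha : (k : ℝ) ≤ a) (hab : a < b) :
    a ^ 2 - ((k : ℝ) - 1) * a < b ^ 2 - ((k : ℝ) - 1) * b := by
  nlinarith

lemma root_eq (k : ℕ) {ρ : ℝ} (hρ : 0 ≤ ρ) :
    (((k : ℝ) - 1 + Real.sqrt (((k : ℝ) - 1) ^ 2 + 4 * ρ)) / 2) ^ 2 -
      ((k : ℝ) - 1) * (((k : ℝ) - 1 + Real.sqrt (((k : ℝ) - 1) ^ 2 + 4 * ρ)) / 2) = ρ := by
  have h : Real.sqrt (((k : ℝ) - 1) ^ 2 + 4 * ρ) ^ 2 = ((k : ℝ) - 1) ^ 2 + 4 * ρ :=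
    Real.sq_sqrt (by positivity)
  nlinarith

lemma root_ge {k : ℕ} (hk : 1 ≤ k) {ρ T : ℝ} (hT : 0 ≤ T) (h : T ^ 2 ≤ ρ) :
    T ≤ ((k : ℝ) - 1 + Real.sqrt (((k : ℝ) - 1) ^ 2 + 4 * ρ)) / 2 := by
  have hk' : (1 : ℝ) ≤ k := by exact_mod_cast hk
  have h1 : 2 * T ≤ Real.sqrt (((k : ℝ) - 1) ^ 2 + 4 * ρ) := by
    apply Real.le_sqrt_of_sq_le
    nlinarith [sq_nonneg ((k : ℝ) - 1)]
  linarith

variable {V : Type u}

/-- The standing data exist. -/
lemma exists_setup [Fintype V] [DecidableEq V] (G : SimpleGraph V) {k : ℕ} (hk : 2 ≤ k) [Nonempty V] :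
    ∃ (x : V → ℝ) (u : V) (A B : Finset V), Setup G k x u (lam G) A B := by
  classical
  obtain ⟨y, hy0, hyne, hy⟩ := exists_perron G
  obtain ⟨u, -, hu⟩ := Finset.exists_max_image Finset.univ y Finset.univ_nonempty
  have hupos : 0 < y u := by
    rcases (hy0 u).lt_or_eq with h | h
    · exact h
    · exfalso
      apply hyne
      funext v
      have h1 := hu v (Finset.mem_univ v)
      have h2 := hy0 v
      rw [← h] at h1
      exact le_antisymm h1 h2
  refine ⟨fun v => y v / y u, u, Finset.univ.filter (fun v => G.Adj u v),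
    Finset.univ.filter (fun v => v ≠ u ∧ ¬ G.Adj u v), ?_⟩
  refine ⟨hk, fun v => div_nonneg (hy0 v) hupos.le,
    fun v => (div_le_one hupos).mpr (hu v (Finset.mem_univ v)), div_self hupos.ne', ?_, ?_, ?_⟩
  · intro v
    have h1 : ∀ w, av G v w * (y w / y u) = (av G v w * y w) / y u := fun w => by ring
    simp only [h1]
    rw [← Finset.sum_div, hy v]
    ring
  · intro v
    simp
  · intro v
    simp

lemma noPath_A [DecidableEq V] (G : SimpleGraph V) {k : ℕ} (hk : 2 ≤ k)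
    (hfree : (cTri (2 * k)).Free G ∨ (cTri (2 * k + 1)).Free G) (u : V) (A : Finset V)
    (hA : ∀ v ∈ A, G.Adj u v) : NoPath G A (2 * k + 1) := by
  rcases hfree with h | h
  · exact (noPath_of_free G (by omega) h u A hA).mono (by omega)
  · exact noPath_of_free G (by omega) h u A hA

lemma two_m [Fintype V] (G : SimpleGraph V) {k m' : ℕ} (h : G.edgeSet.ncard = k.choose 2 + m') :
    ∑ v, ∑ w, av G v w = (k : ℝ) * (k - 1) + 2 * m' := by
  rw [← two_mul_edges, h]
  push_cast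
  rw [Nat.cast_choose_two]
  ring

/-- Large eigenvalue implies the structure. -/
theorem structure_of_large [Fintype V] (G : SimpleGraph V) {k : ℕ} (hk : 2 ≤ k)
    (hiso : ∀ v, ∃ w, G.Adj v w)
    (hfree : (cTri (2 * k)).Free G ∨ (cTri (2 * k + 1)).Free G) {t r : ℕ} (hr : r < k)
    (hm : G.edgeSet.ncard = k.choose 2 + k * t + r) (hl : thr k ≤ lam G)
    (hP : (k : ℝ) * t + (r : ℝ) ^ 2 / k ≤ lam G ^ 2 - ((k : ℝ) - 1) * lam G) :
    Nonempty (G ≃g hubExt k t r) := by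
  classical
  obtain ⟨f1, f2, f3, f4, f5⟩ := thr_facts hk
  have hk' : (2 : ℝ) ≤ k := by exact_mod_cast hk
  have hne : Nonempty V := by
    by_contra hcon
    rw [not_nonempty_iff] at hcon
    have h1 : lam G ≤ 0 := by
      unfold lam
      have : {μ : ℝ | ∃ x : V → ℝ, x ≠ 0 ∧ (G.adjMatrix ℝ).mulVec x = μ • x} = ∅ := by
        ext μ
        simp only [Set.mem_setOf_eq, Set.mem_empty_iff_false, iff_false]
        rintro ⟨x, hx, _⟩
        exact hx (Subsingleton.elim _ _)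
      rw [this, Real.sSup_empty]
    linarith
  obtain ⟨x, u, A, B, S⟩ := exists_setup G hk
  have hNP := noPath_A G hk hfree u A (fun v hv => (S.hA v).mp hv)
  have hm2 := two_m G (k := k) (m' := k * t + r) (by rw [hm]; ring)
  push_cast at hm2
  obtain ⟨t', ⟨e⟩⟩ := S.core2 hNP hfree hiso (f1.trans hl) (f2.trans_le hl) hr hm2 (by
    have h1 : (k : ℝ) * t + r - r * ((k : ℝ) - r) / k = (k : ℝ) * t + (r : ℝ) ^ 2 / k := by
      have : (k : ℝ) ≠ 0 := by linarith
      field_simp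
      ring
    rw [h1]
    exact hP)
  have h2 : G.edgeSet.ncard = (hubExt k t' r).edgeSet.ncard := by
    have := Nat.card_congr e.mapEdgeSet
    exact this
  rw [hm, ncard_hubExt hr] at h2
  have h3 : k * t = k * t' := by omega
  have h4 : t = t' := Nat.eq_of_mul_eq_mul_left (by omega) h3
  rw [h4]
  exact ⟨e⟩

/-- The outer vertices and the hubs have neighbours. -/
theorem hubExt_no_isolated {k t r : ℕ} (hk : 2 ≤ k) : ∀ v, ∃ w, (hubExt k t r).Adj v w := by
  rintro (i | j)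
  · by_cases hi : i.val = 0
    · refine ⟨Sum.inl ⟨1, by omega⟩, ?_⟩
      show i ≠ _
      intro h
      rw [h] at hi
      simp at hi
    · refine ⟨Sum.inl ⟨0, by omega⟩, ?_⟩
      show i ≠ _
      intro h
      rw [h] at hi
      simp at hi
  · refine ⟨Sum.inl ⟨0, by omega⟩, ?_⟩
    show j.val < t ∨ 0 < r
    have := j.isLt
    by_cases hr : r = 0
    · left
      have h2 : min r 1 = 0 := by simp [hr]
      omega
    · right
      omega

/-- The extremal theorem. -/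
theorem extremal (k : ℕ) (hk : 2 ≤ k) : ∃ m₀ : ℕ, ∀ (V : Type u) [Fintype V]
    (G : SimpleGraph V), m₀ ≤ G.edgeSet.ncard → (∀ v, ∃ w, G.Adj v w) →
    ((cTri (2 * k)).Free G ∨ (cTri (2 * k + 1)).Free G) →
    (lam G ≤ ((k : ℝ) - 1 + Real.sqrt (4 * G.edgeSet.ncard - (k : ℝ) ^ 2 + 1)) / 2 ∧
      (lam G = ((k : ℝ) - 1 + Real.sqrt (4 * G.edgeSet.ncard - (k : ℝ) ^ 2 + 1)) / 2 ↔
        ∃ t : ℕ, G.edgeSet.ncard = k.choose 2 + k * t ∧ Nonempty (G ≃g joinKI k t))) ∧
    ∀ t r : ℕ, r < k → G.edgeSet.ncard = k.choose 2 + k * t + r →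
      lam G ≤ lam (hubExt k t r) ∧
        (lam G = lam (hubExt k t r) ↔ Nonempty (G ≃g hubExt k t r)) := by
  obtain ⟨f1, f2, f3, f4, f5⟩ := thr_facts hk
  have hk' : (2 : ℝ) ≤ k := by exact_mod_cast hk
  obtain ⟨m₀, hm₀⟩ := exists_nat_ge (thr k ^ 2 + (k : ℝ) ^ 2)
  refine ⟨m₀, ?_⟩
  intro V _ G hmm hiso hfree
  classical
  set m := G.edgeSet.ncard with hmdef
  have hm : thr k ^ 2 + (k : ℝ) ^ 2 ≤ m := hm₀.trans (by exact_mod_cast hmm)
  have hne : Nonempty V := by
    by_contra hcon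
    rw [not_nonempty_iff] at hcon
    have h1 : m = 0 := by
      rw [hmdef, Set.ncard_eq_zero (Set.toFinite _)]
      ext e
      simp only [Set.mem_empty_iff_false, iff_false]
      intro he
      induction e with
      | _ a b => exact hcon.elim a
    rw [h1] at hm
    push_cast at hm
    nlinarith
  constructor
  · -- the bound
    have hb1 : 4 * (m : ℝ) - (k : ℝ) ^ 2 + 1 =
        ((k : ℝ) - 1) ^ 2 + 4 * (m - (k : ℝ) * (k - 1) / 2) := by ring
    have hρ : thr k ^ 2 ≤ m - (k : ℝ) * (k - 1) / 2 := by nlinarith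
    set b := ((k : ℝ) - 1 + Real.sqrt (4 * (m : ℝ) - (k : ℝ) ^ 2 + 1)) / 2 with hb
    have hbq : b ^ 2 - ((k : ℝ) - 1) * b = m - (k : ℝ) * (k - 1) / 2 := by
      rw [hb, hb1]
      exact root_eq k (by nlinarith)
    have hbt : thr k ≤ b := by
      rw [hb, hb1]
      exact root_ge (by omega) f5.le hρ
    have hback : (∃ t : ℕ, m = k.choose 2 + k * t ∧ Nonempty (G ≃g joinKI k t)) → b ≤ lam G := by
      rintro ⟨t, ht, ⟨e⟩⟩
      have h1 := lam_joinKI_le G (by omega) e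
      have h2 : 4 * (m : ℝ) - (k : ℝ) ^ 2 + 1 = ((k : ℝ) - 1) ^ 2 + 4 * k * t := by
        rw [ht]
        push_cast
        rw [Nat.cast_choose_two]
        ring
      rw [hb, h2]
      exact h1
    rcases lt_or_ge (lam G) (thr k) with h | h
    · have hlt : lam G < b := lt_of_lt_of_le h hbt
      exact ⟨hlt.le, fun h' => absurd h' hlt.ne, fun h' => absurd (hback h') (not_le.mpr hlt)⟩
    · obtain ⟨x, u, A, B, S⟩ := exists_setup G hk
      have hNP := noPath_A G hk hfree u A (fun v hv => (S.hA v).mp hv)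
      have hid := S.identity
      rw [← two_mul_edges] at hid
      rcases lt_or_ge (lam G) b with hlt | hge
      · exact ⟨hlt.le, fun h' => absurd h' hlt.ne, fun h' => absurd (hback h') (not_le.mpr hlt)⟩
      · have hq := quad_le (f4.le.trans hbt) hge
        obtain ⟨h1, C, hC1, hC2, hC3⟩ := S.core hNP hfree hiso (f3.trans h) (f2.trans_le h) (by
          rw [← hid]
          linarith)
        have heq : lam G = b := by
          by_contra hcon
          have hlt : b < lam G := lt_of_le_of_ne hge (Ne.symm hcon)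
          have hq' := quad_lt (f4.le.trans hbt) hlt
          rw [← hid] at h1
          linarith
        exact ⟨heq.le, fun _ => iso_of_structure G C hC1 hC2 hC3, fun _ => heq⟩
  · -- the extremal graph
    intro t r hr hmt
    have hρ0 : (k : ℝ) * t + (r : ℝ) ^ 2 / k = m - (k : ℝ) * (k - 1) / 2 -
        r * ((k : ℝ) - r) / k := by
      have h1 : (m : ℝ) = (k : ℝ) * (k - 1) / 2 + k * t + r := by
        rw [hmt]
        push_cast
        rw [Nat.cast_choose_two]
      rw [h1]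
      have : (k : ℝ) ≠ 0 := by linarith
      field_simp
      ring
    have hφ : (r : ℝ) * ((k : ℝ) - r) / k ≤ k / 4 := by
      rw [div_le_iff₀ (by linarith)]
      nlinarith [sq_nonneg ((k : ℝ) - 2 * r)]
    have hρ : thr k ^ 2 ≤ (k : ℝ) * t + (r : ℝ) ^ 2 / k := by
      rw [hρ0]
      nlinarith
    set ρ := (k : ℝ) * t + (r : ℝ) ^ 2 / k with hρdef
    have hρn : 0 ≤ ρ := le_trans (by positivity) hρ
    set μ := ((k : ℝ) - 1 + Real.sqrt (((k : ℝ) - 1) ^ 2 + 4 * ρ)) / 2 with hμ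
    have hμq : μ ^ 2 - ((k : ℝ) - 1) * μ = ρ := root_eq k hρn
    have hμt : thr k ≤ μ := root_ge (by omega) f5.le hρ
    have hlow : μ ≤ lam (hubExt k t r) :=
      lam_hubExt_ge (by omega) hr μ (lt_of_lt_of_le f5 hμt) hμq
    rcases lt_or_ge (lam G) μ with hlt | hge
    · have h1 : lam G < lam (hubExt k t r) := lt_of_lt_of_le hlt hlow
      refine ⟨h1.le, fun h' => absurd h' h1.ne, ?_⟩
      rintro ⟨e⟩
      exact absurd (lam_iso e) h1.ne
    · have hq := quad_le (f4.le.trans hμt) hge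
      have hst := structure_of_large G hk hiso hfree hr hmt (hμt.trans hge) (by
        rw [← hρdef]
        linarith)
      obtain ⟨e⟩ := hst
      exact ⟨(lam_iso e).le, fun _ => ⟨e⟩, fun _ => lam_iso e⟩

end Pool.Agent.BHTri
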