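import Pool.Agent.BHTri.Perron

set_option autoImplicit false
set_option linter.unusedSectionVars false

namespace Pool.Agent.BHTri

open Finset

variable {V : Type*} [Fintype V] [DecidableEq V]

omit [Fintype V] [DecidableEq V] in
lemma av_symm (G : SimpleGraph V) (v w : V) : av G v w = av G w v := by
  unfold av
  by_cases h : G.Adj v w
  · simp [h, h.symm]
  · have h' : ¬ G.Adj w v := fun h' => h h'.symm
    simp [h, h']

omit [Fintype V] [DecidableEq V] in
lemma av_le_one (G : SimpleGraph V) (v w : V) : av G v w ≤ 1 := by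
  unfold av
  split_ifs <;> norm_num

omit [Fintype V] [DecidableEq V] in
lemma av_of_adj {G : SimpleGraph V} {v w : V} (h : G.Adj v w) : av G v w = 1 := by
  unfold av
  simp [h]

omit [Fintype V] [DecidableEq V] in
lemma av_of_not {G : SimpleGraph V} {v w : V} (h : ¬ G.Adj v w) : av G v w = 0 := by
  unfold av
  simp [h]

/-- The standing data: Perron vector `x` with maximum `1` at `u`, `A` the neighbours of `u` and `B`
the remaining vertices. -/
structure Setup (G : SimpleGraph V) (k : ℕ) (x : V → ℝ) (u : V) (l : ℝ) (A B : Finset V) :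
    Prop where
  hk : 2 ≤ k
  hx0 : ∀ v, 0 ≤ x v
  hx1 : ∀ v, x v ≤ 1
  hu : x u = 1
  heig : ∀ v, ∑ w, av G v w * x w = l * x v
  hA : ∀ v, v ∈ A ↔ G.Adj u v
  hB : ∀ v, v ∈ B ↔ v ≠ u ∧ ¬ G.Adj u v

namespace Setup

variable {G : SimpleGraph V} {k : ℕ} {x : V → ℝ} {u : V} {l : ℝ} {A B : Finset V}

lemma sum_split (S : Setup G k x u l A B) (f : V → ℝ) :
    ∑ w, f w = f u + ∑ w ∈ A, f w + ∑ w ∈ B, f w := by
  have huA : u ∉ A := fun h => G.loopless.irrefl u ((S.hA u).mp h)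
  have hd : Disjoint A B := by
    rw [Finset.disjoint_left]
    intro v hv hv'
    exact ((S.hB v).mp hv').2 ((S.hA v).mp hv)
  have huB : u ∉ B := fun h => ((S.hB u).mp h).1 rfl
  have : (Finset.univ : Finset V) = insert u (A ∪ B) := by
    ext v
    simp only [mem_univ, mem_insert, mem_union, true_iff, S.hA, S.hB]
    tauto
  rw [this, Finset.sum_insert (by simp [huA, huB]), Finset.sum_union hd]
  ring

lemma a_u_A (S : Setup G k x u l A B) {v : V} (hv : v ∈ A) : av G u v = 1 :=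
  av_of_adj ((S.hA v).mp hv)

lemma a_A_u (S : Setup G k x u l A B) {v : V} (hv : v ∈ A) : av G v u = 1 :=
  av_of_adj ((S.hA v).mp hv).symm

lemma a_u_B (S : Setup G k x u l A B) {v : V} (hv : v ∈ B) : av G u v = 0 :=
  av_of_not ((S.hB v).mp hv).2

lemma a_B_u (S : Setup G k x u l A B) {v : V} (hv : v ∈ B) : av G v u = 0 := by
  rw [av_symm]; exact S.a_u_B hv

omit [Fintype V] [DecidableEq V] in
lemma av_self (G : SimpleGraph V) (v : V) : av G v v = 0 := av_of_not (G.loopless.irrefl v)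

lemma eig_u (S : Setup G k x u l A B) : ∑ w ∈ A, x w = l := by
  have h := S.heig u
  rw [S.sum_split, av_self, S.hu, Finset.sum_congr rfl (fun w hw => by rw [S.a_u_A hw, one_mul]),
    Finset.sum_congr (s₁ := B) rfl (fun w hw => by rw [S.a_u_B hw, zero_mul])] at h
  simpa using h

lemma eig_A (S : Setup G k x u l A B) {v : V} (hv : v ∈ A) :
    l * x v = 1 + ∑ w ∈ A, av G v w * x w + ∑ w ∈ B, av G v w * x w := by
  have h := S.heig v
  rw [S.sum_split, S.a_A_u hv, S.hu] at h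
  linarith

lemma eig_B (S : Setup G k x u l A B) {v : V} (hv : v ∈ B) :
    l * x v = ∑ w ∈ A, av G v w * x w + ∑ w ∈ B, av G v w * x w := by
  have h := S.heig v
  rw [S.sum_split, S.a_B_u hv, S.hu] at h
  linarith

lemma l_nonneg (S : Setup G k x u l A B) : 0 ≤ l := by
  rw [← S.eig_u]
  exact Finset.sum_nonneg fun v _ => S.hx0 v

/-- twice the part of the defect inside `A` -/
noncomputable def F (G : SimpleGraph V) (k : ℕ) (x : V → ℝ) (l : ℝ) (A : Finset V) : ℝ :=
  2 * ((k : ℝ) - 1) * l - ∑ v ∈ A, ∑ w ∈ A, av G v w * (x v + x w - 1)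

/-- twice the part of the defect outside `A` -/
noncomputable def Q (G : SimpleGraph V) (x : V → ℝ) (A B : Finset V) : ℝ :=
  2 * ∑ v ∈ A, ∑ w ∈ B, av G v w * (1 - x w) + ∑ v ∈ B, ∑ w ∈ B, av G v w

lemma Q_nonneg (S : Setup G k x u l A B) : 0 ≤ Q G x A B := by
  unfold Q
  have h1 : 0 ≤ ∑ v ∈ A, ∑ w ∈ B, av G v w * (1 - x w) :=
    Finset.sum_nonneg fun v _ => Finset.sum_nonneg fun w _ =>
      mul_nonneg (av_nonneg G v w) (by linarith [S.hx1 w])
  have h2 : 0 ≤ ∑ v ∈ B, ∑ w ∈ B, av G v w :=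
    Finset.sum_nonneg fun v _ => Finset.sum_nonneg fun w _ => av_nonneg G v w
  linarith

lemma identity (S : Setup G k x u l A B) :
    ∑ v, ∑ w, av G v w - 2 * (l ^ 2 - ((k : ℝ) - 1) * l) = F G k x l A + Q G x A B := by
  have hsym : ∀ (P R : Finset V) (f : V → ℝ), ∑ v ∈ P, ∑ w ∈ R, av G v w * f w =
      ∑ w ∈ R, ∑ v ∈ P, av G w v * f w := by
    intro P R f
    rw [Finset.sum_comm]
    exact Finset.sum_congr rfl fun w _ => Finset.sum_congr rfl fun v _ => by rw [av_symm]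
  -- total number of ordered edges
  have hu1 : ∑ w, av G u w = A.card := by
    rw [S.sum_split, av_self, Finset.sum_congr rfl (fun w hw => S.a_u_A hw),
      Finset.sum_congr (s₁ := B) rfl (fun w hw => S.a_u_B hw)]
    simp
  have hA1 : ∀ v ∈ A, ∑ w, av G v w = 1 + ∑ w ∈ A, av G v w + ∑ w ∈ B, av G v w := by
    intro v hv
    rw [S.sum_split, S.a_A_u hv]
  have hB1 : ∀ v ∈ B, ∑ w, av G v w = ∑ w ∈ A, av G v w + ∑ w ∈ B, av G v w := by
    intro v hv
    rw [S.sum_split, S.a_B_u hv, zero_add]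
  have htot : ∑ v, ∑ w, av G v w = 2 * A.card + ∑ v ∈ A, ∑ w ∈ A, av G v w +
      2 * ∑ v ∈ A, ∑ w ∈ B, av G v w + ∑ v ∈ B, ∑ w ∈ B, av G v w := by
    rw [S.sum_split, hu1, Finset.sum_congr rfl hA1, Finset.sum_congr (s₁ := B) rfl hB1]
    have h3 : ∑ v ∈ B, ∑ w ∈ A, av G v w = ∑ v ∈ A, ∑ w ∈ B, av G v w := by
      have := hsym B A (fun _ => 1)
      simpa using this
    simp only [Finset.sum_add_distrib, h3]
    simp
    ring
  have hl2 : l ^ 2 = A.card + ∑ v ∈ A, ∑ w ∈ A, av G v w * x w +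
      ∑ v ∈ A, ∑ w ∈ B, av G v w * x w := by
    have : l ^ 2 = ∑ v ∈ A, l * x v := by
      rw [← Finset.mul_sum, S.eig_u]; ring
    rw [this, Finset.sum_congr rfl (fun v hv => S.eig_A hv)]
    simp only [Finset.sum_add_distrib]
    simp
  have h4 : ∑ v ∈ A, ∑ w ∈ A, av G v w * x v = ∑ v ∈ A, ∑ w ∈ A, av G v w * x w := by
    rw [hsym A A x]
  unfold F Q
  have e1 : ∑ v ∈ A, ∑ w ∈ A, av G v w * (x v + x w - 1) =
      ∑ v ∈ A, ∑ w ∈ A, av G v w * x v + ∑ v ∈ A, ∑ w ∈ A, av G v w * x w -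
      ∑ v ∈ A, ∑ w ∈ A, av G v w := by
    simp only [← Finset.sum_add_distrib, ← Finset.sum_sub_distrib]
    exact Finset.sum_congr rfl fun v _ => Finset.sum_congr rfl fun w _ => by ring
  have e2 : ∑ v ∈ A, ∑ w ∈ B, av G v w * (1 - x w) =
      ∑ v ∈ A, ∑ w ∈ B, av G v w - ∑ v ∈ A, ∑ w ∈ B, av G v w * x w := by
    simp only [← Finset.sum_sub_distrib]
    exact Finset.sum_congr rfl fun v _ => Finset.sum_congr rfl fun w _ => by ring
  rw [htot, e1, e2, h4]
  nlinarith [hl2]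

end Setup

end Pool.Agent.BHTri
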